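import Pool.Agent.H206R2.Rot.Defs

/-!
# `O(k) × O(m)`-invariant metrics on spheres: definitions

An `O(k) × O(m)`-invariant Riemannian metric on `S^{k+m-1} ⊂ ℝ^k × ℝ^m` is
`dr² + f(r)² g_{S^{k-1}} + h(r)² g_{S^{m-1}}`, `0 ≤ r ≤ L`, where `r` is the distance from the sphere
`{0} × S^{m-1}` and `L` the distance of the two singular orbits.  It is smooth exactly when `f`, `h`
extend to smooth functions on `ℝ` with `f` odd about `0` and even about `L`, `h` even about `0` and odd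
about `L`, `f > 0` on `(0, L]`, `h > 0` on `[0, L)`, `f'(0) = 1`, `h'(L) = -1`.
-/

open Real Set MeasureTheory
open scoped ContDiff

namespace Pool.Agent.H206R2.Rot2

/-- The pairs of profile functions of smooth metrics `dr² + f(r)² g_{S^{k-1}} + h(r)² g_{S^{m-1}}` on
`S^{k+m-1}`. -/
structure IsProfile2 (L : ℝ) (f h : ℝ → ℝ) : Prop where
  pos : 0 < L
  smooth_f : ContDiff ℝ ∞ f
  smooth_h : ContDiff ℝ ∞ h
  f_odd : ∀ r, f (-r) = -f r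
  f_even : ∀ r, f (L + r) = f (L - r)
  h_even : ∀ r, h (-r) = h r
  h_odd : ∀ r, h (L + r) = -h (L - r)
  f_pos : ∀ r, 0 < r → r ≤ L → 0 < f r
  h_pos : ∀ r, 0 ≤ r → r < L → 0 < h r
  f_deriv : deriv f 0 = 1
  h_deriv : deriv h L = -1

/-- The point of `S^{k+m-1} ⊂ ℝ^k × ℝ^m` with coordinates `(r, u, w)`, `u ∈ S^{k-1}`, `w ∈ S^{m-1}`, for
`0 ≤ r ≤ L`; for all real `r` by continuing the normal geodesic. -/
noncomputable def join {k m : ℕ} (L r : ℝ) (u : EuclideanSpace ℝ (Fin k))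
    (w : EuclideanSpace ℝ (Fin m)) : EuclideanSpace ℝ (Fin k) × EuclideanSpace ℝ (Fin m) :=
  (Real.sin (π * r / (2 * L)) • u, Real.cos (π * r / (2 * L)) • w)

/-- `γ` is a geodesic of speed `v` of the metric `dr² + f(r)² g_{S^{k-1}} + h(r)² g_{S^{m-1}}` on
`S^{k+m-1} ⊂ ℝ^k × ℝ^m`, written in extended coordinates `(r, u, w)`. -/
def IsGeodesic2 {k m : ℕ} (L : ℝ) (f h : ℝ → ℝ) (v : ℝ)
    (γ : ℝ → EuclideanSpace ℝ (Fin k) × EuclideanSpace ℝ (Fin m)) : Prop :=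
  ∃ (r : ℝ → ℝ) (u : ℝ → EuclideanSpace ℝ (Fin k)) (w : ℝ → EuclideanSpace ℝ (Fin m)),
    ContDiff ℝ 2 r ∧ ContDiff ℝ 2 u ∧ ContDiff ℝ 2 w ∧
    (∀ t, ‖u t‖ = 1) ∧ (∀ t, ‖w t‖ = 1) ∧ (∀ t, γ t = join L (r t) (u t) (w t)) ∧
    (∀ t, deriv (deriv r) t = f (r t) * deriv f (r t) * ‖deriv u t‖ ^ 2
      + h (r t) * deriv h (r t) * ‖deriv w t‖ ^ 2) ∧
    (∀ t, f (r t) • deriv (deriv u) t + (2 * deriv f (r t) * deriv r t) • deriv u t
      + (f (r t) * ‖deriv u t‖ ^ 2) • u t = 0) ∧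
    (∀ t, h (r t) • deriv (deriv w) t + (2 * deriv h (r t) * deriv r t) • deriv w t
      + (h (r t) * ‖deriv w t‖ ^ 2) • w t = 0) ∧
    (∀ t, deriv r t ^ 2 + f (r t) ^ 2 * ‖deriv u t‖ ^ 2 + h (r t) ^ 2 * ‖deriv w t‖ ^ 2 = v ^ 2)

/-- The effective potential `c₁²/f² + c₂²/h²`. -/
noncomputable def Veff (f h : ℝ → ℝ) (c₁ c₂ r : ℝ) : ℝ := (c₁ / f r) ^ 2 + (c₂ / h r) ^ 2

/-- The well of `V` (the component of `{V < 1}` in `(0, L)`) containing the point `s`. -/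
def well (L : ℝ) (V : ℝ → ℝ) (s : ℝ) : Set ℝ := {r | ∀ x ∈ uIcc s r, 0 < x ∧ x < L ∧ V x < 1}

/-- The radial action `2 ∫ √(1 - V)` over the well containing `s`. -/
noncomputable def actW (L : ℝ) (V : ℝ → ℝ) (s : ℝ) : ℝ := 2 * ∫ r in well L V s, √(1 - V r)

/-- The open triangle `c₁, c₂ > 0`, `c₁ + c₂ < R`. -/
def Tri (R : ℝ) : Set (ℝ × ℝ) := {c | 0 < c.1 ∧ 0 < c.2 ∧ c.1 + c.2 < R}

end Pool.Agent.H206R2.Rot2
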