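import Pool.Agent.H206R2.Rot.Main
import Pool.Agent.H206R2.Rot2.Defs

open Real Set MeasureTheory
open scoped ContDiff Topology

namespace Pool.Agent.H206R2.Rot2.Edge

/-- If a rotationally symmetric metric has no closed geodesic of length `≤ 2 π R₀`, then
`A(c) ≥ 2 π (R₀ - c)` on `[0, R₀]`. -/
theorem rot_edge {L : ℝ} {f : ℝ → ℝ} (hf : Rot.IsProfile L f) {n : ℕ} (hn : 2 ≤ n) {R₀ : ℝ}
    (hR : 0 < R₀)
    (hno : ∀ (γ : ℝ → EuclideanSpace ℝ (Fin n) × ℝ) (T : ℝ), 0 < T → Rot.IsGeodesic L f 1 γ →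
      (∀ t, γ (t + T) = γ t) → 2 * π * R₀ < T) :
    ∀ c, 0 ≤ c → c ≤ R₀ → 2 * π * (R₀ - c) ≤ Rot.actA L f c := by
  have hfc : Continuous f := hf.smooth.continuous
  have hLpos := hf.pos
  have hpi := Real.pi_pos
  have hcase : π * R₀ < L := by
    obtain ⟨γ, h1, h2⟩ := Rot.TG.meridian hf hn
    have := hno γ (2 * L) (by linarith) h1 h2
    nlinarith
  have hcrit : ∀ r, 0 < r → r < L → deriv f r = 0 → R₀ < f r := by
    intro r h0 hrL hd
    obtain ⟨γ, h1, h2⟩ := Rot.TG.parallel hf hn h0 hrL hd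
    have hfr := hf.fpos r h0 hrL
    have := hno γ (2 * π * f r) (by positivity) h1 h2
    exact lt_of_mul_lt_mul_left this (by positivity)
  obtain ⟨S, a, b, hRS, hw⟩ := Rot.TA.exists_wall hf hR hcrit
  obtain ⟨hAcont, hA0, hAnn⟩ := Rot.TE.actA_continuousOn hf
  set D : ℝ → ℝ := fun c => Rot.actA L f c - 2 * π * (R₀ - c) with hD
  have hDcont : Continuous D := by
    exact hAcont.sub (continuous_const.mul (continuous_const.sub continuous_id))
  obtain ⟨c, hcmem, hcmin⟩ := (isCompact_Icc (a := (0 : ℝ)) (b := R₀)).exists_isMinOn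
    ⟨0, by constructor <;> linarith⟩ hDcont.continuousOn
  by_contra hcon
  push Not at hcon
  obtain ⟨x, hx1, hx2, hx3⟩ := hcon
  have hDneg : D c < 0 := by
    have h1 : D c ≤ D x := hcmin ⟨hx1, hx2⟩
    have h2 : D x = Rot.actA L f x - 2 * π * (R₀ - x) := rfl
    linarith
  have hc0 : 0 < c := by
    rcases hcmem.1.lt_or_eq with h | h
    · exact h
    · exfalso
      rw [← h] at hDneg
      simp only [hD, hA0, sub_zero] at hDneg
      linarith
  have hcR : c < R₀ := by
    rcases hcmem.2.lt_or_eq with h | h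
    · exact h
    · exfalso
      rw [h] at hDneg
      simp only [hD, sub_self, mul_zero, sub_zero] at hDneg
      linarith [hAnn R₀]
  have hder : HasDerivAt D (-Rot.rotP L f c + 2 * π) c := by
    have h1 := Rot.Main.hasDerivAt_actA hf hw hR hRS hc0 hcR
    have h2 : HasDerivAt (fun c => 2 * π * (R₀ - c)) (2 * π * (-1)) c :=
      ((hasDerivAt_id c).const_sub R₀).const_mul (2 * π)
    refine (h1.sub h2).congr_deriv ?_
    ring
  have hmin : IsLocalMin D c := by
    filter_upwards [isOpen_Ioo.mem_nhds (⟨hc0, hcR⟩ : c ∈ Ioo 0 R₀)] with x hx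
    exact hcmin ⟨hx.1.le, hx.2.le⟩
  have hrot : Rot.rotP L f c = 2 * π := by
    have := hmin.hasDerivAt_eq_zero hder
    linarith
  have hcS : c < S := hcR.trans hRS
  have hT := Rot.TD.timT_eq hf hw (Rot.TB.coarea hf hw) hc0 hcS
  obtain ⟨r, θ, hr, hθ, hpos, h1, h2, h3, hTpos, hrT, hθT⟩ := Rot.TF.exists_planar hf hw hc0 hcS
  obtain ⟨γ, hγ, hper⟩ := Rot.TG.geodesic_of_planar hf hn hr hθ hpos h1 h2 h3 hrT
    (fun t => by rw [hθT, hrot])
  have hfin := hno γ (Rot.timT L f c) hTpos hγ hper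
  rw [hT, hrot] at hfin
  have h2 : D c = Rot.actA L f c - 2 * π * (R₀ - c) := rfl
  nlinarith

/-- Halving the action of a profile that is symmetric about the midpoint. -/
theorem actA_double {L : ℝ} (hL : 0 < L) {f : ℝ → ℝ} (hfc : Continuous f)
    (hsym : ∀ r, f (L + r) = f (L - r)) (c : ℝ) :
    Rot.actA (2 * L) f c = 4 * ∫ r in Ioo 0 L, √(1 - (c / f r) ^ 2) := by
  have hmeas : Measurable fun r => √(1 - (c / f r) ^ 2) := by
    have := hfc.measurable
    fun_prop
  have hb : ∀ r, |√(1 - (c / f r) ^ 2)| ≤ 1 := by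
    intro r
    rw [abs_of_nonneg (Real.sqrt_nonneg _)]
    exact Real.sqrt_le_one.2 (by nlinarith [sq_nonneg (c / f r)])
  have hint : ∀ x y : ℝ, IntervalIntegrable (fun r => √(1 - (c / f r) ^ 2)) volume x y := by
    intro x y
    rw [intervalIntegrable_iff]
    exact Measure.integrableOn_of_bounded (by simp) hmeas.aestronglyMeasurable
      (Filter.Eventually.of_forall fun r => by simpa using hb r)
  have h1 : Rot.actA (2 * L) f c = 2 * ∫ r in (0 : ℝ)..(2 * L), √(1 - (c / f r) ^ 2) := by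
    rw [Rot.actA, intervalIntegral.integral_of_le (by linarith), integral_Ioc_eq_integral_Ioo]
  have h2 : ∫ r in Ioo 0 L, √(1 - (c / f r) ^ 2) = ∫ r in (0 : ℝ)..L, √(1 - (c / f r) ^ 2) := by
    rw [intervalIntegral.integral_of_le hL.le, integral_Ioc_eq_integral_Ioo]
  have h3 : ∫ r in L..(2 * L), √(1 - (c / f r) ^ 2) = ∫ r in (0 : ℝ)..L, √(1 - (c / f r) ^ 2) := by
    have e : ∀ r, √(1 - (c / f (2 * L - r)) ^ 2) = √(1 - (c / f r) ^ 2) := by
      intro r
      have := hsym (L - r)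
      rw [show L + (L - r) = 2 * L - r by ring, show L - (L - r) = r by ring] at this
      rw [this]
    have := intervalIntegral.integral_comp_sub_left (a := (0 : ℝ)) (b := L)
      (fun r => √(1 - (c / f r) ^ 2)) (2 * L)
    simp only [e] at this
    rw [this]
    congr 1 <;> ring
  rw [h1, h2, ← intervalIntegral.integral_add_adjacent_intervals (hint 0 L) (hint L (2 * L)), h3]
  ring

end Pool.Agent.H206R2.Rot2.Edge
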