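import Pool.Agent.H206R2.Rot2.Defs

/-! helper206's project, task A (helper503): the two totally geodesic spheres and the round metric -/

open Real Set MeasureTheory
open scoped ContDiff

namespace Pool.Agent.H206R2.Rot2.TA

/-- The profile of the totally geodesic 2-spheres `w = const`. -/
theorem profile_f {L : ℝ} {f h : ℝ → ℝ} (hf : IsProfile2 L f h) : Rot.IsProfile (2 * L) f := by
  have e1 : ∀ r, f (2 * L - r) = f r := by
    intro r
    have := hf.f_even (L - r)
    rw [show L + (L - r) = 2 * L - r by ring, show L - (L - r) = r by ring] at this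
    exact this
  have e2 : ∀ r, f (2 * L + r) = -f r := by
    intro r
    have := e1 (-r)
    rw [sub_neg_eq_add, hf.f_odd] at this
    exact this
  refine ⟨by linarith [hf.pos], hf.smooth_f, hf.f_odd, ?_, ?_, hf.f_deriv, ?_⟩
  · intro r
    rw [e1, e2]
  · intro r h1 h2
    rcases le_total r L with h3 | h3
    · exact hf.f_pos r h1 h3
    · rw [← e1]
      exact hf.f_pos _ (by linarith) (by linarith)
  · have h1 : ∀ x, HasDerivAt f (deriv f x) x := fun x =>
      (hf.smooth_f.differentiable (by norm_num)).differentiableAt.hasDerivAt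
    have h2 : HasDerivAt (fun r => f (2 * L + r)) (deriv f (2 * L + 0)) 0 :=
      (h1 (2 * L + 0)).comp_const_add (2 * L) 0
    have h3 : (fun r => f (2 * L + r)) = fun r => -f r := funext e2
    rw [h3] at h2
    have h4 := h2.unique (h1 0).neg
    rw [add_zero, hf.f_deriv] at h4
    exact h4

/-- The profile of the totally geodesic 2-spheres `u = const`. -/
theorem profile_h {L : ℝ} {f h : ℝ → ℝ} (hf : IsProfile2 L f h) :
    Rot.IsProfile (2 * L) (fun r => h (r - L)) := by
  have h1 : ∀ x, HasDerivAt h (deriv h x) x := fun x =>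
    (hf.smooth_h.differentiable (by norm_num)).differentiableAt.hasDerivAt
  refine ⟨by linarith [hf.pos], hf.smooth_h.comp (contDiff_id.sub contDiff_const), ?_, ?_, ?_, ?_, ?_⟩
  · intro r
    have e1 := hf.h_odd r
    have e2 := hf.h_even (L + r)
    have e3 := hf.h_even (L - r)
    rw [show -r - L = -(L + r) by ring, show r - L = -(L - r) by ring]
    rw [e2, e1, e3]
  · intro r
    have e1 := hf.h_odd r
    show h (2 * L + r - L) = -h (2 * L - r - L)
    rw [show 2 * L + r - L = L + r by ring, show 2 * L - r - L = L - r by ring]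
    exact e1
  · intro r h1 h2
    rcases le_total r L with h3 | h3
    · show 0 < h (r - L)
      rw [show r - L = -(L - r) by ring, hf.h_even]
      exact hf.h_pos _ (by linarith) (by linarith)
    · exact hf.h_pos _ (by linarith) (by linarith)
  · rw [deriv_comp_sub_const]
    have h2 : HasDerivAt (fun r => h (-r)) (-deriv h (-L)) L := by
      have := (h1 (-L)).scomp L (hasDerivAt_neg L)
      refine (this.congr_deriv ?_)
      simp
    have h3 : (fun r => h (-r)) = h := funext hf.h_even
    rw [h3] at h2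
    have h4 := h2.deriv
    rw [hf.h_deriv] at h4
    rw [zero_sub]
    linarith
  · rw [deriv_comp_sub_const, show 2 * L - L = L by ring]
    exact hf.h_deriv

theorem lift_f {L : ℝ} {f h : ℝ → ℝ} (hf : IsProfile2 L f h) {k m : ℕ} {v : ℝ}
    {γ : ℝ → EuclideanSpace ℝ (Fin k) × ℝ} (hγ : Rot.IsGeodesic (2 * L) f v γ)
    {w₀ : EuclideanSpace ℝ (Fin m)} (hw : ‖w₀‖ = 1) :
    IsGeodesic2 L f h v (fun t => ((γ t).1, (γ t).2 • w₀)) := by
  obtain ⟨r, u, hr, hu, hnu, hγe, h1, h2, h3⟩ := hγ
  refine ⟨r, u, fun _ => w₀, hr, hu, contDiff_const, hnu, fun _ => hw, ?_, ?_, h2, ?_, ?_⟩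
  · intro t
    simp only [hγe, Rot.polar, join]
  · intro t
    rw [h1]
    simp
  · intro t
    simp
  · intro t
    rw [← h3 t]
    simp

theorem lift_h {L : ℝ} {f h : ℝ → ℝ} (hf : IsProfile2 L f h) {k m : ℕ} {v : ℝ}
    {γ : ℝ → EuclideanSpace ℝ (Fin m) × ℝ}
    (hγ : Rot.IsGeodesic (2 * L) (fun r => h (r - L)) v γ)
    {u₀ : EuclideanSpace ℝ (Fin k)} (hu : ‖u₀‖ = 1) :
    IsGeodesic2 L f h v (fun t => (-(γ t).2 • u₀, (γ t).1)) := by
  obtain ⟨r, w, hr, hw, hnw, hγe, h1, h2, h3⟩ := hγ
  have hL : L ≠ 0 := hf.pos.ne'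
  have hd : deriv (fun t => r t - L) = deriv r := by
    funext t
    rw [deriv_sub_const]
  refine ⟨fun t => r t - L, fun _ => u₀, w, hr.sub contDiff_const, contDiff_const, hw,
    fun _ => hu, hnw, ?_, ?_, ?_, ?_, ?_⟩
  · intro t
    have e : π * (r t - L) / (2 * L) = π * r t / (2 * L) - π / 2 := by field_simp
    simp only [hγe, Rot.polar, join, e, Real.sin_sub_pi_div_two, Real.cos_sub_pi_div_two]
  · intro t
    rw [hd, h1, deriv_comp_sub_const]
    simp
  · intro t
    simp
  · intro t
    have := h2 t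
    rw [deriv_comp_sub_const] at this
    rw [hd]
    exact this
  · intro t
    rw [← h3 t, hd]
    simp

theorem round_profile2 : IsProfile2 (π / 2) Real.sin Real.cos where
  pos := by positivity
  smooth_f := Real.contDiff_sin
  smooth_h := Real.contDiff_cos
  f_odd := Real.sin_neg
  f_even := fun r => by rw [Real.sin_pi_div_two_sub, add_comm, Real.sin_add_pi_div_two]
  h_even := Real.cos_neg
  h_odd := fun r => by rw [Real.cos_pi_div_two_sub, add_comm, Real.cos_add_pi_div_two]
  f_pos := fun r h1 h2 => Real.sin_pos_of_pos_of_lt_pi h1 (by linarith [Real.pi_pos])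
  h_pos := fun r h1 h2 => Real.cos_pos_of_mem_Ioo ⟨by linarith [Real.pi_pos], h2⟩
  f_deriv := by simp
  h_deriv := by simp

end Pool.Agent.H206R2.Rot2.TA
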