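import Pool.Agent.H206R2.Rot2.Defs
import Pool.Agent.H206R2.Rot.TG

/-! helper206's project, task B (helper503): circles, tori and planar geodesics -/

open Real Set MeasureTheory
open scoped ContDiff

namespace Pool.Agent.H206R2.Rot2.TB

open Pool.Agent.H206R2.Rot.TG

/-- facts on a curve in a great circle -/
lemma circ {n : ℕ} (hn : 2 ≤ n) {θ : ℝ → ℝ} (hθ : ContDiff ℝ 2 θ) :
    ∃ u : ℝ → EuclideanSpace ℝ (Fin n), ContDiff ℝ 2 u ∧ (∀ t, ‖u t‖ = 1) ∧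
      (∀ t, ‖deriv u t‖ ^ 2 = deriv θ t ^ 2) ∧
      (∀ t F G : ℝ, F * deriv (deriv θ) t + G * deriv θ t = 0 →
        F • deriv (deriv u) t + G • deriv u t + (F * ‖deriv u t‖ ^ 2) • u t = 0) ∧
      (∀ s t, Real.cos (θ s) = Real.cos (θ t) → Real.sin (θ s) = Real.sin (θ t) → u s = u t) := by
  obtain ⟨e₁, e₂, he1, he2, he12⟩ := exists_orthonormal_pair hn
  set u : ℝ → EuclideanSpace ℝ (Fin n) := fun t => Real.cos (θ t) • e₁ + Real.sin (θ t) • e₂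
    with hu
  have hθ1 : ∀ t, HasDerivAt θ (deriv θ t) t := fun t =>
    (hθ.differentiable (by norm_num)).differentiableAt.hasDerivAt
  have hθ' : ContDiff ℝ 1 (deriv θ) := by
    have h2' : ContDiff ℝ (1 + 1) θ := by
      have : (1 + 1 : WithTop ℕ∞) = 2 := by norm_num
      rw [this]; exact hθ
    exact (contDiff_succ_iff_deriv.1 h2').2.2
  have hθ2 : ∀ t, HasDerivAt (deriv θ) (deriv (deriv θ) t) t := fun t =>
    (hθ'.differentiable (by norm_num)).differentiableAt.hasDerivAt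
  have hu1 : ∀ t, HasDerivAt u (deriv θ t • (-Real.sin (θ t) • e₁ + Real.cos (θ t) • e₂)) t := by
    intro t
    have ha := ((hθ1 t).cos).smul_const e₁
    have hb := ((hθ1 t).sin).smul_const e₂
    refine (ha.add hb).congr_deriv ?_
    module
  have hdu : deriv u = fun t => deriv θ t • (-Real.sin (θ t) • e₁ + Real.cos (θ t) • e₂) :=
    funext fun t => (hu1 t).deriv
  have hu2 : ∀ t, HasDerivAt (deriv u)
      (deriv (deriv θ) t • (-Real.sin (θ t) • e₁ + Real.cos (θ t) • e₂)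
        - (deriv θ t) ^ 2 • u t) t := by
    intro t
    rw [hdu]
    have ha := (((hθ1 t).sin).neg).smul_const e₁
    have hb := ((hθ1 t).cos).smul_const e₂
    have hc := (hθ2 t).smul (ha.add hb)
    refine hc.congr_deriv ?_
    have hval : ((fun y => (-fun x => Real.sin (θ x)) y • e₁) + fun y => Real.cos (θ y) • e₂) t
        = -Real.sin (θ t) • e₁ + Real.cos (θ t) • e₂ := rfl
    rw [hval]
    simp only [hu]
    module
  have hnu : ∀ t, ‖u t‖ = 1 := by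
    intro t
    have : ‖u t‖ ^ 2 = 1 := by
      rw [hu]; simp only []
      rw [norm_sq_comb he1 he2 he12]; exact Real.cos_sq_add_sin_sq _
    have h0 := norm_nonneg (u t)
    nlinarith
  have hndu : ∀ t, ‖deriv u t‖ ^ 2 = deriv θ t ^ 2 := by
    intro t
    rw [hdu]; simp only []
    rw [norm_smul, mul_pow, norm_sq_comb he1 he2 he12]
    rw [Real.norm_eq_abs, sq_abs]
    have := Real.sin_sq_add_cos_sq (θ t)
    nlinarith
  refine ⟨u, ?_, hnu, hndu, ?_, ?_⟩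
  · rw [hu]
    have hcos : ContDiff ℝ 2 (fun t => Real.cos (θ t)) := Real.contDiff_cos.comp hθ
    have hsin : ContDiff ℝ 2 (fun t => Real.sin (θ t)) := Real.contDiff_sin.comp hθ
    exact (hcos.smul contDiff_const).add (hsin.smul contDiff_const)
  · intro t F G h0
    rw [(hu2 t).deriv, hndu, (hu1 t).deriv]
    set w := (-Real.sin (θ t) • e₁ + Real.cos (θ t) • e₂) with hw
    have : F • (deriv (deriv θ) t • w - (deriv θ t) ^ 2 • u t)
        + G • (deriv θ t • w) + (F * deriv θ t ^ 2) • u t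
        = (F * deriv (deriv θ) t + G * deriv θ t) • w := by
      module
    rw [this, h0, zero_smul]
  · intro s t h1 h2
    simp only [hu, h1, h2]

/-- the general construction -/
lemma geod {L : ℝ} {f h : ℝ → ℝ} {k m : ℕ} (hk : 2 ≤ k)
    (hm : 2 ≤ m) {r θ₁ θ₂ : ℝ → ℝ} {T : ℝ} (hr : ContDiff ℝ 2 r) (hθ₁ : ContDiff ℝ 2 θ₁)
    (hθ₂ : ContDiff ℝ 2 θ₂)
    (h1 : ∀ t, deriv (deriv r) t = f (r t) * deriv f (r t) * deriv θ₁ t ^ 2
      + h (r t) * deriv h (r t) * deriv θ₂ t ^ 2)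
    (h2 : ∀ t, f (r t) * deriv (deriv θ₁) t + (2 * deriv f (r t) * deriv r t) * deriv θ₁ t = 0)
    (h3 : ∀ t, h (r t) * deriv (deriv θ₂) t + (2 * deriv h (r t) * deriv r t) * deriv θ₂ t = 0)
    (h4 : ∀ t, deriv r t ^ 2 + f (r t) ^ 2 * deriv θ₁ t ^ 2 + h (r t) ^ 2 * deriv θ₂ t ^ 2 = 1)
    (hrT : ∀ t, r (t + T) = r t)
    (c1 : ∀ t, Real.cos (θ₁ (t + T)) = Real.cos (θ₁ t)) (s1 : ∀ t, Real.sin (θ₁ (t + T)) = Real.sin (θ₁ t))
    (c2 : ∀ t, Real.cos (θ₂ (t + T)) = Real.cos (θ₂ t)) (s2 : ∀ t, Real.sin (θ₂ (t + T)) = Real.sin (θ₂ t)) :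
    ∃ γ : ℝ → EuclideanSpace ℝ (Fin k) × EuclideanSpace ℝ (Fin m), IsGeodesic2 L f h 1 γ ∧
      ∀ t, γ (t + T) = γ t := by
  obtain ⟨u, u1, u2, u3, u4, u5⟩ := circ hk hθ₁
  obtain ⟨w, w1, w2, w3, w4, w5⟩ := circ hm hθ₂
  refine ⟨fun t => join L (r t) (u t) (w t), ⟨r, u, w, hr, u1, w1, u2, w2, fun _ => rfl, ?_, ?_, ?_, ?_⟩, ?_⟩
  · intro t
    rw [u3, w3, h1]
  · intro t
    exact u4 t _ _ (h2 t)
  · intro t
    exact w4 t _ _ (h3 t)
  · intro t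
    rw [u3, w3, h4]
    norm_num
  · intro t
    simp only
    rw [hrT, u5 _ _ (c1 t) (s1 t), w5 _ _ (c2 t) (s2 t)]

lemma deriv_div (c : ℝ) : deriv (fun t : ℝ => t / c) = fun _ => 1 / c :=
  funext fun t => ((hasDerivAt_id t).div_const c).deriv

theorem circle_f {L : ℝ} {f h : ℝ → ℝ} (hf : IsProfile2 L f h) {k m : ℕ} (hk : 2 ≤ k)
    (hm : 2 ≤ m) {r₀ : ℝ} (h0 : 0 < r₀) (hL : r₀ ≤ L) (hd : deriv f r₀ = 0) :
    ∃ γ : ℝ → EuclideanSpace ℝ (Fin k) × EuclideanSpace ℝ (Fin m), IsGeodesic2 L f h 1 γ ∧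
      ∀ t, γ (t + 2 * π * f r₀) = γ t := by
  have hp : 0 < f r₀ := hf.f_pos _ h0 hL
  have e : ∀ t, (t + 2 * π * f r₀) / f r₀ = t / f r₀ + 2 * π := fun t => by field_simp
  refine geod hk hm (r := fun _ => r₀) (θ₁ := fun t => t / f r₀) (θ₂ := fun _ => 0)
    contDiff_const (contDiff_id.div_const _) contDiff_const ?_ ?_ ?_ ?_ (fun _ => rfl) ?_ ?_ ?_ ?_
  · intro t; simp [hd]
  · intro t; rw [deriv_div]; simp
  · intro t; simp
  · intro t; rw [deriv_div]; simp; field_simp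
  · intro t; simp only [e, Real.cos_add_two_pi]
  · intro t; simp only [e, Real.sin_add_two_pi]
  · intro t; rfl
  · intro t; rfl

theorem circle_h {L : ℝ} {f h : ℝ → ℝ} (hf : IsProfile2 L f h) {k m : ℕ} (hk : 2 ≤ k)
    (hm : 2 ≤ m) {r₀ : ℝ} (h0 : 0 ≤ r₀) (hL : r₀ < L) (hd : deriv h r₀ = 0) :
    ∃ γ : ℝ → EuclideanSpace ℝ (Fin k) × EuclideanSpace ℝ (Fin m), IsGeodesic2 L f h 1 γ ∧
      ∀ t, γ (t + 2 * π * h r₀) = γ t := by
  have hp : 0 < h r₀ := hf.h_pos _ h0 hL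
  have e : ∀ t, (t + 2 * π * h r₀) / h r₀ = t / h r₀ + 2 * π := fun t => by field_simp
  refine geod hk hm (r := fun _ => r₀) (θ₁ := fun _ => 0) (θ₂ := fun t => t / h r₀)
    contDiff_const contDiff_const (contDiff_id.div_const _) ?_ ?_ ?_ ?_ (fun _ => rfl) ?_ ?_ ?_ ?_
  · intro t; simp [hd]
  · intro t; simp
  · intro t; rw [deriv_div]; simp
  · intro t; rw [deriv_div]; simp; field_simp
  · intro t; rfl
  · intro t; rfl
  · intro t; simp only [e, Real.cos_add_two_pi]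
  · intro t; simp only [e, Real.sin_add_two_pi]

theorem torus {L : ℝ} {f h : ℝ → ℝ} (hf : IsProfile2 L f h) {k m : ℕ} (hk : 2 ≤ k)
    (hm : 2 ≤ m) {r₀ : ℝ} (h0 : 0 ≤ r₀) (hL : r₀ ≤ L)
    (hd : f r₀ * deriv f r₀ + h r₀ * deriv h r₀ = 0) :
    ∃ γ : ℝ → EuclideanSpace ℝ (Fin k) × EuclideanSpace ℝ (Fin m), IsGeodesic2 L f h 1 γ ∧
      ∀ t, γ (t + 2 * π * √(f r₀ ^ 2 + h r₀ ^ 2)) = γ t := by
  have hp : 0 < f r₀ ^ 2 + h r₀ ^ 2 := by
    rcases h0.eq_or_lt with h1 | h1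
    · have : 0 < h r₀ := hf.h_pos _ h0 (by rw [← h1]; exact hf.pos)
      positivity
    · have : 0 < f r₀ := hf.f_pos _ h1 hL
      positivity
  obtain ⟨ρ, hρ⟩ : ∃ ρ, √(f r₀ ^ 2 + h r₀ ^ 2) = ρ := ⟨_, rfl⟩
  have hρ0 : 0 < ρ := by rw [← hρ]; exact Real.sqrt_pos.2 hp
  have hρ2 : ρ ^ 2 = f r₀ ^ 2 + h r₀ ^ 2 := by rw [← hρ]; exact Real.sq_sqrt hp.le
  rw [hρ]
  have e : ∀ t, (t + 2 * π * ρ) / ρ = t / ρ + 2 * π := fun t => by field_simp
  refine geod hk hm (r := fun _ => r₀) (θ₁ := fun t => t / ρ) (θ₂ := fun t => t / ρ)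
    contDiff_const (contDiff_id.div_const _) (contDiff_id.div_const _) ?_ ?_ ?_ ?_ (fun _ => rfl) ?_ ?_ ?_ ?_
  · intro t
    rw [deriv_div]
    simp only [deriv_const']
    rw [← add_mul, hd, zero_mul]
  · intro t; rw [deriv_div]; simp
  · intro t; rw [deriv_div]; simp
  · intro t
    rw [deriv_div]
    simp only [deriv_const]
    field_simp
    rw [hρ2]
    ring
  · intro t; simp only [e, Real.cos_add_two_pi]
  · intro t; simp only [e, Real.sin_add_two_pi]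
  · intro t; simp only [e, Real.cos_add_two_pi]
  · intro t; simp only [e, Real.sin_add_two_pi]

/-- differentiating the Clairaut relation -/
lemma clairaut {f r θ : ℝ → ℝ} {c : ℝ} (hf : ContDiff ℝ ∞ f) (hr : ContDiff ℝ 2 r)
    (hθ : ContDiff ℝ 2 θ) (hpos : ∀ t, 0 < f (r t)) (h2 : ∀ t, f (r t) ^ 2 * deriv θ t = c) (t : ℝ) :
    f (r t) * deriv (deriv θ) t + (2 * deriv f (r t) * deriv r t) * deriv θ t = 0 := by
  have hθ' : ContDiff ℝ 1 (deriv θ) := by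
    have h2' : ContDiff ℝ (1 + 1) θ := by
      have : (1 + 1 : WithTop ℕ∞) = 2 := by norm_num
      rw [this]; exact hθ
    exact (contDiff_succ_iff_deriv.1 h2').2.2
  have hθ2 : ∀ t, HasDerivAt (deriv θ) (deriv (deriv θ) t) t := fun t =>
    (hθ'.differentiable (by norm_num)).differentiableAt.hasDerivAt
  have hr1 : ∀ t, HasDerivAt r (deriv r t) t := fun t =>
    (hr.differentiable (by norm_num)).differentiableAt.hasDerivAt
  have hf1 : ∀ x, HasDerivAt f (deriv f x) x := fun x =>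
    (hf.differentiable (by norm_num)).differentiableAt.hasDerivAt
  have hcl : HasDerivAt (fun t => f (r t) ^ 2 * deriv θ t)
      (2 * f (r t) * (deriv f (r t) * deriv r t) * deriv θ t
        + f (r t) ^ 2 * deriv (deriv θ) t) t := by
    have ha : HasDerivAt (fun t => f (r t)) (deriv f (r t) * deriv r t) t :=
      (hf1 (r t)).comp t (hr1 t)
    have hb := (ha.pow 2).mul (hθ2 t)
    refine hb.congr_deriv ?_
    norm_num
  have hconst : (fun t => f (r t) ^ 2 * deriv θ t) = fun _ => c := funext h2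
  rw [hconst] at hcl
  have h0 := hcl.unique (hasDerivAt_const t c)
  have : f (r t) * (f (r t) * deriv (deriv θ) t + (2 * deriv f (r t) * deriv r t) * deriv θ t) = 0 := by
    rw [← h0]; ring
  rcases mul_eq_zero.1 this with h | h
  · exact absurd h (hpos t).ne'
  · exact h

theorem geodesic_of_planar2 {L : ℝ} {f h : ℝ → ℝ} (hf : IsProfile2 L f h) {k m : ℕ} (hk : 2 ≤ k)
    (hm : 2 ≤ m) {r θ₁ θ₂ : ℝ → ℝ} {c₁ c₂ T : ℝ} (hr : ContDiff ℝ 2 r) (hθ₁ : ContDiff ℝ 2 θ₁)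
    (hθ₂ : ContDiff ℝ 2 θ₂) (hpos : ∀ t, 0 < r t ∧ r t < L)
    (h1 : ∀ t, deriv (deriv r) t = f (r t) * deriv f (r t) * deriv θ₁ t ^ 2
      + h (r t) * deriv h (r t) * deriv θ₂ t ^ 2)
    (h2 : ∀ t, f (r t) ^ 2 * deriv θ₁ t = c₁) (h3 : ∀ t, h (r t) ^ 2 * deriv θ₂ t = c₂)
    (h4 : ∀ t, deriv r t ^ 2 + f (r t) ^ 2 * deriv θ₁ t ^ 2 + h (r t) ^ 2 * deriv θ₂ t ^ 2 = 1)
    (hrT : ∀ t, r (t + T) = r t) (hθ₁T : ∀ t, θ₁ (t + T) = θ₁ t + 2 * π)
    (hθ₂T : ∀ t, θ₂ (t + T) = θ₂ t + 2 * π) :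
    ∃ γ : ℝ → EuclideanSpace ℝ (Fin k) × EuclideanSpace ℝ (Fin m), IsGeodesic2 L f h 1 γ ∧
      ∀ t, γ (t + T) = γ t := by
  refine geod hk hm hr hθ₁ hθ₂ h1
    (clairaut hf.smooth_f hr hθ₁ (fun t => hf.f_pos _ (hpos t).1 (hpos t).2.le) h2)
    (clairaut hf.smooth_h hr hθ₂ (fun t => hf.h_pos _ (hpos t).1.le (hpos t).2) h3)
    h4 hrT ?_ ?_ ?_ ?_
  · intro t; rw [hθ₁T, Real.cos_add_two_pi]
  · intro t; rw [hθ₁T, Real.sin_add_two_pi]
  · intro t; rw [hθ₂T, Real.cos_add_two_pi]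
  · intro t; rw [hθ₂T, Real.sin_add_two_pi]

end Pool.Agent.H206R2.Rot2.TB
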