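import Pool.Agent.H206R2.Rot2.Defs
import Pool.Agent.H206R2.Rot.TG

open Real Set MeasureTheory
open scoped ContDiff

namespace Pool.Agent.H206R2.Rot2.TC

/-- a periodic curve `σ u` with `(σ u)'' = - v² σ u`. -/
lemma period_aux {n : ℕ} {v T : ℝ} (hv : 0 < v) (hT : 0 < T) {σ σ1 σ2 : ℝ → ℝ}
    {u u1 u2 : ℝ → EuclideanSpace ℝ (Fin n)}
    (hs1 : ∀ t, HasDerivAt σ (σ1 t) t) (hs2 : ∀ t, HasDerivAt σ1 (σ2 t) t)
    (hu1 : ∀ t, HasDerivAt u (u1 t) t) (hu2 : ∀ t, HasDerivAt u1 (u2 t) t)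
    (heq : ∀ t, σ t • u2 t + (2 * σ1 t) • u1 t + (σ2 t + v ^ 2 * σ t) • u t = 0)
    (hper : ∀ t, σ (t + T) • u (t + T) = σ t • u t) (hn : ∀ t, ‖u t‖ = 1) (h0 : σ 0 ≠ 0) :
    2 * π ≤ v * T := by
  set x : EuclideanSpace ℝ (Fin n) := σ 0 • u 0 with hx
  have hy1 : ∀ t, HasDerivAt (fun t => σ t • u t) (σ t • u1 t + σ1 t • u t) t := fun t =>
    (hs1 t).smul (hu1 t)
  have hy2 : ∀ t, HasDerivAt (fun t => σ t • u1 t + σ1 t • u t) (-(v ^ 2) • (σ t • u t)) t := by
    intro t
    refine (((hs1 t).smul (hu2 t)).add ((hs2 t).smul (hu1 t))).congr_deriv ?_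
    have e := heq t
    have : σ t • u2 t = -((2 * σ1 t) • u1 t + (σ2 t + v ^ 2 * σ t) • u t) := by
      rw [eq_neg_iff_add_eq_zero, ← e]; abel
    rw [this]
    module
  have hg1 : ∀ t, HasDerivAt (fun t => inner ℝ x (σ t • u t))
      (inner ℝ x (σ t • u1 t + σ1 t • u t)) t :=
    fun t => (innerSL ℝ x).hasFDerivAt.comp_hasDerivAt t (hy1 t)
  have hg2 : ∀ t, HasDerivAt (fun t => inner ℝ x (σ t • u1 t + σ1 t • u t))
      (-v ^ 2 * inner ℝ x (σ t • u t)) t := by
    intro t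
    refine ((innerSL ℝ x).hasFDerivAt.comp_hasDerivAt t (hy2 t)).congr_deriv ?_
    simp [inner_smul_right]
  refine Rot.TG.osc_period hv hT hg1 hg2 (fun t => by rw [hper]) ?_
  have hxx : inner ℝ x x = σ 0 ^ 2 := by
    rw [real_inner_self_eq_norm_sq, hx, norm_smul, hn, mul_one, Real.norm_eq_abs, sq_abs]
  change inner ℝ x x ≠ (0 : ℝ)
  rw [hxx]
  exact pow_ne_zero 2 h0

lemma contDiff_aux {F : Type} [NormedAddCommGroup F] [NormedSpace ℝ F] {r : ℝ → F}
    (hr : ContDiff ℝ 2 r) :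
    (∀ t, HasDerivAt r (deriv r t) t) ∧ ∀ t, HasDerivAt (deriv r) (deriv (deriv r) t) t := by
  have hr' : ContDiff ℝ 1 (deriv r) := by
    have h2' : ContDiff ℝ (1 + 1) r := by
      have : (1 + 1 : WithTop ℕ∞) = 2 := by norm_num
      rw [this]; exact hr
    exact (contDiff_succ_iff_deriv.1 h2').2.2
  exact ⟨fun t => (hr.differentiable (by norm_num)).differentiableAt.hasDerivAt,
    fun t => (hr'.differentiable (by norm_num)).differentiableAt.hasDerivAt⟩

theorem round_length2 {k m : ℕ} {v T : ℝ} (hv : 0 < v) (hT : 0 < T)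
    {γ : ℝ → EuclideanSpace ℝ (Fin k) × EuclideanSpace ℝ (Fin m)}
    (hγ : IsGeodesic2 (π / 2) Real.sin Real.cos v γ) (hper : ∀ t, γ (t + T) = γ t) :
    2 * π ≤ v * T := by
  obtain ⟨r, u, w, hr, hu, hw, hnu, hnw, hγe, h1, h2, h3, h4⟩ := hγ
  obtain ⟨hr1, hr2⟩ := contDiff_aux hr
  obtain ⟨hu1, hu2⟩ := contDiff_aux hu
  obtain ⟨hw1, hw2⟩ := contDiff_aux hw
  have harg : ∀ x : ℝ, π * x / (2 * (π / 2)) = x := fun x => by
    have := Real.pi_ne_zero
    field_simp
  have hds : deriv Real.sin = Real.cos := Real.deriv_sin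
  have hdc : ∀ x, deriv Real.cos x = -Real.sin x := fun x => Real.deriv_cos
  have hp1 : ∀ t, Real.sin (r (t + T)) • u (t + T) = Real.sin (r t) • u t := by
    intro t
    have := congrArg Prod.fst (hper t)
    rw [hγe, hγe] at this
    simpa only [join, harg] using this
  have hp2 : ∀ t, Real.cos (r (t + T)) • w (t + T) = Real.cos (r t) • w t := by
    intro t
    have := congrArg Prod.snd (hper t)
    rw [hγe, hγe] at this
    simpa only [join, harg] using this
  by_cases hz : Real.sin (r 0) = 0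
  · -- use the second component
    have hc0 : Real.cos (r 0) ≠ 0 := by
      intro h
      have := Real.sin_sq_add_cos_sq (r 0)
      rw [hz, h] at this
      norm_num at this
    refine period_aux hv hT (σ := fun t => Real.cos (r t))
      (σ1 := fun t => -Real.sin (r t) * deriv r t)
      (σ2 := fun t => -(Real.cos (r t) * deriv r t) * deriv r t +
        -Real.sin (r t) * deriv (deriv r) t) (fun t => (hr1 t).cos)
      (fun t => ((hr1 t).sin.neg).mul (hr2 t)) hw1 hw2 ?_ hp2 hnw hc0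
    intro t
    have e1 := h1 t
    have e3 := h3 t
    have e4 := h4 t
    rw [hds, hdc] at e1
    rw [hdc] at e3
    rw [← e3, ← e4]
    have hc : Real.cos (r t) ^ 2 = 1 - Real.sin (r t) ^ 2 := by
      have := Real.sin_sq_add_cos_sq (r t); linarith
    have hcoef : -(Real.cos (r t) * deriv r t) * deriv r t +
        -Real.sin (r t) * deriv (deriv r) t +
        (deriv r t ^ 2 + Real.sin (r t) ^ 2 * ‖deriv u t‖ ^ 2 +
          Real.cos (r t) ^ 2 * ‖deriv w t‖ ^ 2) * Real.cos (r t) =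
        Real.cos (r t) * ‖deriv w t‖ ^ 2 := by
      rw [e1, hc]
      ring
    rw [hcoef]
    module
  · refine period_aux hv hT (σ := fun t => Real.sin (r t))
      (σ1 := fun t => Real.cos (r t) * deriv r t)
      (σ2 := fun t => (-Real.sin (r t) * deriv r t) * deriv r t +
        Real.cos (r t) * deriv (deriv r) t) (fun t => (hr1 t).sin)
      (fun t => ((hr1 t).cos).mul (hr2 t)) hu1 hu2 ?_ hp1 hnu hz
    intro t
    have e1 := h1 t
    have e2 := h2 t
    have e4 := h4 t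
    rw [hds, hdc] at e1
    rw [hds] at e2
    rw [← e2, ← e4]
    have hc : Real.sin (r t) ^ 2 = 1 - Real.cos (r t) ^ 2 := by
      have := Real.sin_sq_add_cos_sq (r t); linarith
    have hcoef : -Real.sin (r t) * deriv r t * deriv r t +
        Real.cos (r t) * deriv (deriv r) t +
        (deriv r t ^ 2 + Real.sin (r t) ^ 2 * ‖deriv u t‖ ^ 2 +
          Real.cos (r t) ^ 2 * ‖deriv w t‖ ^ 2) * Real.sin (r t) =
        Real.sin (r t) * ‖deriv u t‖ ^ 2 := by
      rw [e1, hc]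
      ring
    rw [hcoef]
    module

end Pool.Agent.H206R2.Rot2.TC
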