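import Pool.Agent.H206R2.Rot.TA
import Pool.Agent.H206R2.Rot2.Defs

/-!
# Structure of the profiles below the critical values, and the selection of a point in the well
-/

open Real Set MeasureTheory
open scoped ContDiff

namespace Pool.Agent.H206R2.Rot2.TD

theorem deriv_of_even {g : ℝ → ℝ} {c : ℝ} (h : ∀ r, g (c + r) = g (c - r)) (r : ℝ) :
    deriv g (c + r) = -deriv g (c - r) := by
  have h1 : deriv (fun r => g (c + r)) r = deriv (fun r => g (c - r)) r := by
    congr 1
    funext r
    exact h r
  rw [deriv_comp_const_add, deriv_comp_const_sub] at h1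
  exact h1

theorem deriv_of_odd {g : ℝ → ℝ} {c : ℝ} (h : ∀ r, g (c + r) = -g (c - r)) (r : ℝ) :
    deriv g (c + r) = deriv g (c - r) := by
  have h1 : deriv (fun r => g (c + r)) r = deriv (fun r => -g (c - r)) r := by
    congr 1
    funext r
    exact h r
  rw [deriv_comp_const_add, deriv.fun_neg, deriv_comp_const_sub, neg_neg] at h1
  exact h1

private theorem prof_f {L : ℝ} {f h : ℝ → ℝ} (hf : IsProfile2 L f h) : Rot.IsProfile (2 * L) f := by
  have hL := hf.pos
  have e1 : ∀ r, f (2 * L + r) = -f r := by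
    intro r
    have h1 := hf.f_even (L + r)
    have h2 := hf.f_odd r
    rw [show L + (L + r) = 2 * L + r by ring, show L - (L + r) = -r by ring] at h1
    rw [h1, h2]
  have e2 : ∀ r, f (2 * L - r) = f r := by
    intro r
    have h1 := hf.f_even (L - r)
    rw [show L + (L - r) = 2 * L - r by ring, show L - (L - r) = r by ring] at h1
    exact h1
  refine ⟨by linarith, hf.smooth_f, hf.f_odd, fun r => by rw [e1, e2], ?_, hf.f_deriv, ?_⟩
  · intro r h0 h1
    rcases le_or_gt r L with h2 | h2
    · exact hf.f_pos r h0 h2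
    · rw [← e2 r]
      exact hf.f_pos _ (by linarith) (by linarith)
  · have h1 : deriv (fun r => f (2 * L + r)) 0 = deriv (fun r => -f r) 0 := by
      congr 1
      funext r
      exact e1 r
    rw [deriv_comp_const_add, deriv.fun_neg, add_zero, hf.f_deriv] at h1
    exact h1

private theorem prof_h {L : ℝ} {f h : ℝ → ℝ} (hf : IsProfile2 L f h) :
    Rot.IsProfile (2 * L) (fun r => h (r - L)) := by
  have hL := hf.pos
  have e0 : ∀ x, h (-x) = h x := hf.h_even
  have e1 : ∀ x, h (L + x) = -h (L - x) := hf.h_odd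
  refine ⟨by linarith, hf.smooth_h.comp (contDiff_id.sub contDiff_const), ?_, ?_, ?_, ?_, ?_⟩
  · intro r
    show h (-r - L) = -h (r - L)
    rw [show -r - L = -(L + r) by ring, e0, e1, show r - L = -(L - r) by ring, e0]
  · intro r
    show h (2 * L + r - L) = -h (2 * L - r - L)
    rw [show 2 * L + r - L = L + r by ring, show 2 * L - r - L = L - r by ring, e1]
  · intro r h0 h1
    show 0 < h (r - L)
    rcases le_or_gt L r with h2 | h2
    · exact hf.h_pos _ (by linarith) (by linarith)
    · rw [← e0]
      exact hf.h_pos _ (by linarith) (by linarith)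
  · rw [deriv_comp_sub_const]
    have h1 := deriv_of_even (g := h) (c := 0) (fun r => by rw [zero_add, zero_sub, e0]) (-L)
    rw [zero_add, zero_sub, neg_neg, hf.h_deriv] at h1
    rw [zero_sub, h1, neg_neg]
  · rw [deriv_comp_sub_const, show 2 * L - L = L by ring, hf.h_deriv]

theorem structure_f {L : ℝ} {f h : ℝ → ℝ} (hf : IsProfile2 L f h) {R : ℝ} (hR : 0 < R)
    (hcrit : ∀ r, 0 < r → r ≤ L → deriv f r = 0 → R < f r) :
    ∃ S a, R < S ∧ 0 < a ∧ a < L ∧ (∀ r ∈ Icc 0 a, 0 < deriv f r) ∧ (∀ r ∈ Icc a L, S ≤ f r) := by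
  have hL := hf.pos
  have hd : ∀ r, deriv f (L + r) = -deriv f (L - r) := deriv_of_even hf.f_even
  have hdL : deriv f L = 0 := by
    have := hd 0
    simp only [add_zero, sub_zero] at this
    linarith
  obtain ⟨S, a, b, hRS, W⟩ := Rot.TA.exists_wall (prof_f hf) hR (by
    intro r h0 h1 h2
    rcases le_or_gt r L with h3 | h3
    · exact hcrit r h0 h3 h2
    · have h4 := hd (r - L)
      rw [show L + (r - L) = r by ring, h2, show L - (r - L) = 2 * L - r by ring] at h4
      have h5 := hf.f_even (r - L)
      rw [show L + (r - L) = r by ring, show L - (r - L) = 2 * L - r by ring] at h5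
      rw [h5]
      exact hcrit _ (by linarith) (by linarith) (by linarith))
  have haL : a < L := by
    by_contra hcon
    push Not at hcon
    have := W.inc L hL.le hcon
    rw [hdL] at this
    exact lt_irrefl _ this
  have hbL : L < b := by
    by_contra hcon
    push Not at hcon
    have := W.dec L hcon (by linarith)
    rw [hdL] at this
    exact lt_irrefl _ this
  exact ⟨S, a, hRS, W.apos, haL, fun r hr => W.inc r hr.1 hr.2,
    fun r hr => W.mid r hr.1 (hr.2.trans hbL.le)⟩

theorem structure_h {L : ℝ} {f h : ℝ → ℝ} (hf : IsProfile2 L f h) {R : ℝ} (hR : 0 < R)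
    (hcrit : ∀ r, 0 ≤ r → r < L → deriv h r = 0 → R < h r) :
    ∃ S b, R < S ∧ 0 < b ∧ b < L ∧ (∀ r ∈ Icc b L, deriv h r < 0) ∧ (∀ r ∈ Icc 0 b, S ≤ h r) := by
  have hL := hf.pos
  have hd : ∀ r, deriv h r = -deriv h (-r) := by
    intro r
    have := deriv_of_even (g := h) (c := 0) (fun r => by rw [zero_add, zero_sub, hf.h_even]) r
    rwa [zero_add, zero_sub] at this
  have hd0 : deriv h 0 = 0 := by
    have := hd 0
    rw [neg_zero] at this
    linarith
  have hds : ∀ r, deriv (fun r => h (r - L)) r = deriv h (r - L) := fun r =>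
    deriv_comp_sub_const ..
  obtain ⟨S, a, b, hRS, W⟩ := Rot.TA.exists_wall (prof_h hf) hR (by
    intro r h0 h1 h2
    rw [hds] at h2
    show R < h (r - L)
    rcases le_or_gt L r with h3 | h3
    · exact hcrit _ (by linarith) (by linarith) h2
    · rw [← hf.h_even]
      have h4 := hd (r - L)
      exact hcrit _ (by linarith) (by linarith) (by linarith))
  have haL : a < L := by
    by_contra hcon
    push Not at hcon
    have := W.inc L hL.le hcon
    rw [hds, sub_self, hd0] at this
    exact lt_irrefl _ this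
  have hbL : L < b := by
    by_contra hcon
    push Not at hcon
    have := W.dec L hcon (by linarith)
    rw [hds, sub_self, hd0] at this
    exact lt_irrefl _ this
  have hb2 := W.bL
  refine ⟨S, b - L, hRS, by linarith, by linarith, ?_, ?_⟩
  · intro r hr
    have := W.dec (r + L) (by linarith [hr.1]) (by linarith [hr.2])
    rwa [hds, add_sub_cancel_right] at this
  · intro r hr
    have := W.mid (r + L) (by linarith [hr.1]) (by linarith [hr.2])
    simpa using this

theorem structure_fh {L : ℝ} {f h : ℝ → ℝ} (hf : IsProfile2 L f h) {R : ℝ} (hR : 0 < R)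
    (hcrit : ∀ r, 0 ≤ r → r ≤ L → f r * deriv f r + h r * deriv h r = 0 →
      R ^ 2 < f r ^ 2 + h r ^ 2) :
    ∃ S, R < S ∧ ∀ r ∈ Icc 0 L, S ^ 2 ≤ f r ^ 2 + h r ^ 2 := by
  have hL := hf.pos
  have hdf : Differentiable ℝ f := hf.smooth_f.differentiable (by simp)
  have hdh : Differentiable ℝ h := hf.smooth_h.differentiable (by simp)
  have hc : Continuous fun r => f r ^ 2 + h r ^ 2 :=
    (hdf.continuous.pow 2).add (hdh.continuous.pow 2)
  obtain ⟨r₀, hr₀, hmin⟩ := (isCompact_Icc (a := (0 : ℝ)) (b := L)).exists_isMinOn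
    ⟨0, le_rfl, hL.le⟩ hc.continuousOn
  have key : f r₀ * deriv f r₀ + h r₀ * deriv h r₀ = 0 := by
    rcases hr₀.1.eq_or_lt with h0 | h0
    · have hf0 : f 0 = 0 := by
        have := hf.f_odd 0
        rw [neg_zero] at this
        linarith
      have hd := deriv_of_even (g := h) (c := 0) (fun r => by rw [zero_add, zero_sub, hf.h_even]) 0
      rw [zero_add, zero_sub, neg_zero] at hd
      have hd0 : deriv h 0 = 0 := by linarith
      rw [← h0, hf0, hd0]
      ring
    · rcases hr₀.2.eq_or_lt with h1 | h1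
      · have hh0 : h L = 0 := by
          have := hf.h_odd 0
          rw [add_zero, sub_zero] at this
          linarith
        have hd := deriv_of_even hf.f_even 0
        rw [add_zero, sub_zero] at hd
        have hd0 : deriv f L = 0 := by linarith
        rw [h1, hh0, hd0]
        ring
      · have hloc : IsLocalMin (fun r => f r ^ 2 + h r ^ 2) r₀ :=
          hmin.isLocalMin (Icc_mem_nhds h0 h1)
        have h2 := hloc.deriv_eq_zero
        have h3 : HasDerivAt (fun r => f r ^ 2 + h r ^ 2)
            (2 * f r₀ * deriv f r₀ + 2 * h r₀ * deriv h r₀) r₀ := by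
          have a1 := (hdf r₀).hasDerivAt.fun_pow 2
          have a2 := (hdh r₀).hasDerivAt.fun_pow 2
          have a3 := a1.fun_add a2
          simpa using a3
        rw [h3.deriv] at h2
        linarith
  have hlt := hcrit r₀ hr₀.1 hr₀.2 key
  refine ⟨√(f r₀ ^ 2 + h r₀ ^ 2), Real.lt_sqrt_of_sq_lt hlt, fun r hr => ?_⟩
  rw [Real.sq_sqrt (by positivity)]
  exact hmin hr

/-- A continuous selection of a point deep in a well. -/
theorem selection {L : ℝ} {f h : ℝ → ℝ} (hf : IsProfile2 L f h) {R S a b : ℝ} (hR : 0 < R)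
    (hRS : R < S) (ha : 0 < a) (haL : a < L) (hb : 0 < b) (hbL : b < L)
    (hfa : ∀ r ∈ Icc 0 a, 0 < deriv f r) (hfS : ∀ r ∈ Icc a L, S ≤ f r)
    (hhb : ∀ r ∈ Icc b L, deriv h r < 0) (hhS : ∀ r ∈ Icc 0 b, S ≤ h r)
    (hS : ∀ r ∈ Icc 0 L, S ^ 2 ≤ f r ^ 2 + h r ^ 2) :
    ∃ (s : ℝ × ℝ → ℝ) (ρ lo hi η : ℝ), ρ < 1 ∧ 0 < lo ∧ hi < L ∧ 0 < η ∧
      ContinuousOn s {c | 0 < c.1 ∧ 0 < c.2} ∧
      (∀ c : ℝ × ℝ, 0 < c.1 → 0 < c.2 → lo ≤ s c ∧ s c ≤ hi) ∧
      (∀ c ∈ Tri R, Veff f h c.1 c.2 (s c) ≤ ρ) ∧
      (∀ c : ℝ × ℝ, 0 < c.1 → 0 < c.2 → c.1 ≤ η * c.2 → s c ≤ b) ∧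
      (∀ c : ℝ × ℝ, 0 < c.1 → 0 < c.2 → c.2 ≤ η * c.1 → a ≤ s c) := by
  have hL := hf.pos
  have hS0 : 0 < S := hR.trans hRS
  have hρ : R ^ 2 / S ^ 2 < 1 := by
    rw [div_lt_one (by positivity)]
    exact pow_lt_pow_left₀ hRS hR.le two_ne_zero
  have hsum : ∀ c ∈ Tri R, (c.1 + c.2) ^ 2 / S ^ 2 ≤ R ^ 2 / S ^ 2 := by
    intro c hc
    have h1 : 0 < c.1 := hc.1
    have h2 : 0 < c.2 := hc.2.1
    have h3 : c.1 + c.2 < R := hc.2.2
    gcongr
  rcases le_or_gt a b with hab | hab
  · refine ⟨fun _ => a, R ^ 2 / S ^ 2, a, a, 1, hρ, ha, haL, one_pos, continuousOn_const,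
      fun _ _ _ => ⟨le_rfl, le_rfl⟩, ?_, fun _ _ _ _ => hab, fun _ _ _ _ => le_rfl⟩
    intro c hc
    have h1 : 0 < c.1 := hc.1
    have h2 : 0 < c.2 := hc.2.1
    have h3 := hfS a ⟨le_rfl, haL.le⟩
    have h4 := hhS a ⟨ha.le, hab⟩
    refine le_trans ?_ (hsum c hc)
    have h3' : 0 < f a := hS0.trans_le h3
    have h4' : 0 < h a := hS0.trans_le h4
    have h5 : (c.1 / f a) ^ 2 ≤ (c.1 / S) ^ 2 := by gcongr
    have h6 : (c.2 / h a) ^ 2 ≤ (c.2 / S) ^ 2 := by gcongr
    have h7 : (c.1 / S) ^ 2 + (c.2 / S) ^ 2 ≤ (c.1 + c.2) ^ 2 / S ^ 2 := by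
      rw [div_pow, div_pow, ← add_div]
      gcongr
      nlinarith [mul_pos h1 h2]
    exact (add_le_add h5 h6).trans h7
  · -- the strictly monotone function `G`
    have hfpos : ∀ r ∈ Icc b a, 0 < f r := fun r hr =>
      hf.f_pos r (hb.trans_le hr.1) (hr.2.trans haL.le)
    have hhpos : ∀ r ∈ Icc b a, 0 < h r := fun r hr =>
      hf.h_pos r (hb.le.trans hr.1) (hr.2.trans_lt haL)
    have hfc : Continuous f := hf.smooth_f.continuous
    have hhc : Continuous h := hf.smooth_h.continuous
    have hfm : StrictMonoOn f (Icc b a) := by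
      refine strictMonoOn_of_deriv_pos (convex_Icc b a) hfc.continuousOn ?_
      intro x hx
      rw [interior_Icc] at hx
      exact hfa x ⟨(hb.trans hx.1).le, hx.2.le⟩
    have hhm : StrictAntiOn h (Icc b a) := by
      refine strictAntiOn_of_deriv_neg (convex_Icc b a) hhc.continuousOn ?_
      intro x hx
      rw [interior_Icc] at hx
      exact hhb x ⟨hx.1.le, (hx.2.trans haL).le⟩
    set G : ℝ → ℝ := fun r => (f r / h r) ^ 2 with hG
    have hGm : StrictMonoOn G (Icc b a) := by
      intro x hx y hy hxy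
      have h1 := hfm hx hy hxy
      have h2 := hhm hx hy hxy
      have h3 := hfpos x hx
      have h4 := hhpos y hy
      simp only [hG]
      have h5 : f x / h x < f y / h y := by
        rw [div_lt_div_iff₀ (hhpos x hx) h4]
        nlinarith
      exact pow_lt_pow_left₀ h5 (div_pos h3 (hhpos x hx)).le two_ne_zero
    have hGc : ContinuousOn G (Icc b a) :=
      (hfc.continuousOn.div hhc.continuousOn fun r hr => (hhpos r hr).ne').pow 2
    set cl : ℝ → ℝ := fun x => max b (min a x) with hcl
    have hclI : ∀ x, cl x ∈ Icc b a := fun x =>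
      ⟨le_max_left _ _, max_le hab.le (min_le_left _ _)⟩
    have hclc : Continuous cl := continuous_const.max (continuous_const.min continuous_id)
    have hclm : Monotone cl := fun x y hxy => max_le_max le_rfl (min_le_min le_rfl hxy)
    have hclid : ∀ x, b ≤ x → x ≤ a → cl x = x := by
      intro x h1 h2
      simp only [hcl]
      rw [min_eq_right h2, max_eq_right h1]
    have hcllow : ∀ x, x ≤ b → cl x = b := by
      intro x h1
      simp only [hcl]
      exact max_eq_left ((min_le_right _ _).trans h1)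
    have hclhigh : ∀ x, a ≤ x → cl x = a := by
      intro x h1
      simp only [hcl]
      rw [min_eq_left h1, max_eq_right hab.le]
    set E : ℝ → ℝ := fun x => G (cl x) + (x - cl x) with hE
    have hEc : Continuous E := by
      refine Continuous.add ?_ (continuous_id.sub hclc)
      exact hGc.comp_continuous hclc hclI
    have hclsub : ∀ x y, x ≤ y → x - cl x ≤ y - cl y := by
      intro x y hxy
      simp only [hcl]
      rcases le_total a x with h1 | h1 <;> rcases le_total a y with h2 | h2 <;>
        rcases le_total b x with h3 | h3 <;> rcases le_total b y with h4 | h4 <;>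
        simp only [min_eq_left, min_eq_right, max_eq_right, max_eq_left, h1, h2, h3, h4, hab.le] <;>
        linarith
    have hEm : StrictMono E := by
      intro x y hxy
      have h1 := hclm hxy.le
      have h2 := hclsub x y hxy.le
      simp only [hE]
      rcases h1.eq_or_lt with h3 | h3
      · rw [h3] at h2 ⊢
        linarith
      · have h4 := hGm (hclI x) (hclI y) h3
        linarith
    have hEs : Function.Surjective E := by
      refine hEc.surjective ?_ ?_
      · refine Filter.tendsto_atTop_mono (f := fun x => x + (G b - a)) (fun x => ?_)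
          (Filter.tendsto_atTop_add_const_right _ _ Filter.tendsto_id)
        have h1 : G b ≤ G (cl x) := hGm.monotoneOn ⟨le_rfl, hab.le⟩ (hclI x) (hclI x).1
        have h2 := (hclI x).2
        simp only [hE]
        linarith
      · refine Filter.tendsto_atBot_mono (f := fun x : ℝ => x + (G a - b)) (g := E) (fun x => ?_)
          (Filter.tendsto_atBot_add_const_right _ _ Filter.tendsto_id)
        have h1 : G (cl x) ≤ G a := hGm.monotoneOn (hclI x) ⟨hab.le, le_rfl⟩ (hclI x).2
        have h2 := (hclI x).1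
        simp only [hE]
        linarith
    set e := hEm.orderIsoOfSurjective E hEs with he
    have hec : Continuous e.symm := e.symm.continuous
    have hes : ∀ y, E (e.symm y) = y := fun y =>
      hEm.orderIsoOfSurjective_self_symm_apply E hEs y
    have hEb : E b = G b := by
      simp only [hE]
      rw [hclid b le_rfl hab.le]
      ring
    have hEa : E a = G a := by
      simp only [hE]
      rw [hclid a hab.le le_rfl]
      ring
    have hGb0 : 0 < G b := by
      have h1 := hfpos b ⟨le_rfl, hab.le⟩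
      have h2 := hhpos b ⟨le_rfl, hab.le⟩
      simp only [hG]
      positivity
    have hGa0 : 0 < G a := by
      have h1 := hfpos a ⟨hab.le, le_rfl⟩
      have h2 := hhpos a ⟨hab.le, le_rfl⟩
      simp only [hG]
      positivity
    refine ⟨fun c => cl (e.symm (c.1 / c.2)), R ^ 2 / S ^ 2, b, a, min (G b) (1 / G a), hρ, hb, haL,
      lt_min hGb0 (by positivity), ?_, fun c _ _ => hclI _, ?_, ?_, ?_⟩
    · refine hclc.comp_continuousOn (hec.comp_continuousOn ?_)
      exact continuous_fst.continuousOn.div continuous_snd.continuousOn fun c hc => hc.2.ne'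
    · intro c hc
      have h1 : 0 < c.1 := hc.1
      have h2 : 0 < c.2 := hc.2.1
      refine le_trans ?_ (hsum c hc)
      simp only [Veff]
      set x := e.symm (c.1 / c.2) with hx
      have hxE : E x = c.1 / c.2 := hes _
      have hfx := hfpos (cl x) (hclI x)
      have hhx := hhpos (cl x) (hclI x)
      rcases le_or_gt x b with h3 | h3
      · have h4 : cl x = b := hcllow x h3
        have h5 : c.1 / c.2 ≤ G b := by
          rw [← hxE, ← hEb]
          exact hEm.monotone h3
        rw [h4] at hfx hhx ⊢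
        simp only [hG] at h5
        rw [div_pow, div_le_div_iff₀ h2 (by positivity)] at h5
        have h6 := hhS b ⟨hb.le, le_rfl⟩
        have h7 : (c.1 / f b) ^ 2 ≤ c.1 * c.2 / h b ^ 2 := by
          rw [div_pow, div_le_div_iff₀ (by positivity) (by positivity)]
          nlinarith
        have h8 : c.1 * c.2 / h b ^ 2 + (c.2 / h b) ^ 2 = (c.1 + c.2) * c.2 / h b ^ 2 := by
          field_simp
        have h9 : (c.1 + c.2) * c.2 / h b ^ 2 ≤ (c.1 + c.2) * (c.1 + c.2) / S ^ 2 := by
          gcongr
          linarith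
        calc (c.1 / f b) ^ 2 + (c.2 / h b) ^ 2 ≤ c.1 * c.2 / h b ^ 2 + (c.2 / h b) ^ 2 := by
              linarith
          _ ≤ (c.1 + c.2) * (c.1 + c.2) / S ^ 2 := by rw [h8]; exact h9
          _ = (c.1 + c.2) ^ 2 / S ^ 2 := by rw [sq (c.1 + c.2)]
      · rcases le_or_gt a x with h3' | h3'
        · have h4 : cl x = a := hclhigh x h3'
          have h5 : G a ≤ c.1 / c.2 := by
            rw [← hxE, ← hEa]
            exact hEm.monotone h3'
          rw [h4] at hfx hhx ⊢
          simp only [hG] at h5
          rw [div_pow, div_le_div_iff₀ (by positivity) h2] at h5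
          have h6 := hfS a ⟨le_rfl, haL.le⟩
          have h7 : (c.2 / h a) ^ 2 ≤ c.1 * c.2 / f a ^ 2 := by
            rw [div_pow, div_le_div_iff₀ (by positivity) (by positivity)]
            nlinarith
          have h8 : (c.1 / f a) ^ 2 + c.1 * c.2 / f a ^ 2 = (c.1 + c.2) * c.1 / f a ^ 2 := by
            field_simp
          have h9 : (c.1 + c.2) * c.1 / f a ^ 2 ≤ (c.1 + c.2) * (c.1 + c.2) / S ^ 2 := by
            gcongr
            linarith
          calc (c.1 / f a) ^ 2 + (c.2 / h a) ^ 2 ≤ (c.1 / f a) ^ 2 + c.1 * c.2 / f a ^ 2 := by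
                linarith
            _ ≤ (c.1 + c.2) * (c.1 + c.2) / S ^ 2 := by rw [h8]; exact h9
            _ = (c.1 + c.2) ^ 2 / S ^ 2 := by rw [sq (c.1 + c.2)]
        · have h4 : cl x = x := hclid x h3.le h3'.le
          have h5 : G x = c.1 / c.2 := by
            rw [← hxE]
            simp only [hE]
            rw [h4]
            ring
          rw [h4] at hfx hhx ⊢
          simp only [hG] at h5
          rw [div_pow, div_eq_div_iff (by positivity) h2.ne'] at h5
          have h6 := hS x ⟨(hb.trans h3).le, (h3'.trans haL).le⟩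
          -- `f² c₂ = c₁ h²`
          have h7 : (c.1 / f x) ^ 2 + (c.2 / h x) ^ 2 = c.2 * (c.1 + c.2) / h x ^ 2 := by
            have h71 : (c.1 / f x) ^ 2 = c.1 * c.2 / h x ^ 2 := by
              rw [div_pow, div_eq_div_iff (by positivity) (by positivity)]
              linear_combination (-c.1) * h5
            rw [h71]
            field_simp
            try ring
          rw [h7, div_le_div_iff₀ (by positivity) (by positivity)]
          have h8 : S ^ 2 * c.2 ≤ (c.1 + c.2) * h x ^ 2 := by nlinarith
          nlinarith [mul_pos h1 h2]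
    · intro c h1 h2 h3
      have h4 : c.1 / c.2 ≤ G b := by
        rw [div_le_iff₀ h2]
        exact h3.trans (mul_le_mul_of_nonneg_right (min_le_left _ _) h2.le)
      have h5 : e.symm (c.1 / c.2) ≤ b := by
        refine hEm.le_iff_le.mp ?_
        rw [hes, hEb]
        exact h4
      exact (hcllow _ h5).le
    · intro c h1 h2 h3
      have h4 : G a ≤ c.1 / c.2 := by
        rw [le_div_iff₀ h2]
        have h5 : c.2 ≤ 1 / G a * c.1 :=
          h3.trans (mul_le_mul_of_nonneg_right (min_le_right _ _) h1.le)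
        calc G a * c.2 ≤ G a * (1 / G a * c.1) := by gcongr
          _ = c.1 := by field_simp
      have h5 : a ≤ e.symm (c.1 / c.2) := by
        refine hEm.le_iff_le.mp ?_
        rw [hes, hEa]
        exact h4
      exact (hclhigh _ h5).ge

end Pool.Agent.H206R2.Rot2.TD
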