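import Pool.Agent.H206R2.Rot2.Defs

/-!
# Wells of the effective potential and existence of the minimum of the action defect
-/

open Real Set MeasureTheory Filter Topology
open scoped ContDiff

namespace Pool.Agent.H206R2.Rot2.TE

/-- Last point where a continuous function is `≥ 1` before it is `< 1`. -/
theorem exists_last {g : ℝ → ℝ} {u v : ℝ} (huv : u ≤ v) (hg : ContinuousOn g (Icc u v))
    (hu : 1 ≤ g u) (hv : g v < 1) :
    ∃ p, u ≤ p ∧ p < v ∧ g p = 1 ∧ ∀ x, p < x → x ≤ v → g x < 1 := by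
  have hK : IsCompact (Icc u v ∩ g ⁻¹' Ici 1) :=
    isCompact_Icc.of_isClosed_subset (hg.preimage_isClosed_of_isClosed isClosed_Icc isClosed_Ici)
      inter_subset_left
  obtain ⟨p, hp, hmax⟩ := hK.exists_isGreatest ⟨u, ⟨le_refl u, huv⟩, hu⟩
  have hp1 : 1 ≤ g p := hp.2
  have hpv : p < v := by
    rcases lt_or_eq_of_le hp.1.2 with h | h
    · exact h
    · rw [h] at hp1; exact absurd hp1 (not_le.mpr hv)
  have hlt : ∀ x, p < x → x ≤ v → g x < 1 := by
    intro x hpx hxv
    by_contra hcon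
    have := hmax ⟨⟨hp.1.1.trans hpx.le, hxv⟩, not_lt.mp hcon⟩
    exact absurd this (not_le.mpr hpx)
  refine ⟨p, hp.1.1, hpv, ?_, hlt⟩
  refine le_antisymm ?_ hp1
  by_contra hcon
  push Not at hcon
  have hsub : ContinuousOn g (Icc p v) := hg.mono (Icc_subset_Icc hp.1.1 le_rfl)
  have hmem : (1 : ℝ) ∈ Icc (g v) (g p) := ⟨hv.le, hcon.le⟩
  obtain ⟨x, hx, hx1⟩ := intermediate_value_Icc' hpv.le hsub hmem
  rcases eq_or_lt_of_le hx.1 with h | h
  · rw [← h] at hx1; linarith
  · exact absurd hx1 (ne_of_lt (hlt x h hx.2))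

theorem exists_first {g : ℝ → ℝ} {u v : ℝ} (huv : u ≤ v) (hg : ContinuousOn g (Icc u v))
    (hu : g u < 1) (hv : 1 ≤ g v) :
    ∃ q, u < q ∧ q ≤ v ∧ g q = 1 ∧ ∀ x, u ≤ x → x < q → g x < 1 := by
  have hg' : ContinuousOn (fun x => g (-x)) (Icc (-v) (-u)) := by
    refine hg.comp continuous_neg.continuousOn ?_
    intro x hx
    exact ⟨by linarith [hx.2], by linarith [hx.1]⟩
  obtain ⟨p, h1, h2, h3, h4⟩ := exists_last (g := fun x => g (-x)) (neg_le_neg huv) hg'
    (by simpa using hv) (by simpa using hu)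
  refine ⟨-p, by linarith, by linarith, h3, ?_⟩
  intro x hux hxp
  have := h4 (-x) (by linarith) (by linarith)
  simpa using this

section
variable {L : ℝ} {f h : ℝ → ℝ} (hf : IsProfile2 L f h)
include hf

theorem f_zero : f 0 = 0 := by
  have := hf.f_odd 0
  simp at this
  linarith

theorem h_L : h L = 0 := by
  have := hf.h_odd 0
  simp at this
  linarith

theorem cont_V {c₁ c₂ : ℝ} : ContinuousOn (Veff f h c₁ c₂) (Ioo 0 L) := by
  unfold Veff
  intro r hr
  have h1 : f r ≠ 0 := (hf.f_pos r hr.1 hr.2.le).ne'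
  have h2 : h r ≠ 0 := (hf.h_pos r hr.1.le hr.2).ne'
  have e1 : ContinuousAt f r := hf.smooth_f.continuous.continuousAt
  have e2 : ContinuousAt h r := hf.smooth_h.continuous.continuousAt
  exact (((continuousAt_const.div e1 h1).pow 2).add
    ((continuousAt_const.div e2 h2).pow 2)).continuousWithinAt

theorem well_spec {c₁ c₂ : ℝ} (h1 : 0 < c₁)
    (h2 : 0 < c₂) {s : ℝ} (hs0 : 0 < s) (hsL : s < L) (hs : Veff f h c₁ c₂ s < 1) :
    ∃ p q, 0 < p ∧ p < s ∧ s < q ∧ q < L ∧ Veff f h c₁ c₂ p = 1 ∧ Veff f h c₁ c₂ q = 1 ∧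
      well L (Veff f h c₁ c₂) s = Ioo p q ∧ ∀ x ∈ Ioo p q, Veff f h c₁ c₂ x < 1 := by
  have hVc := cont_V hf (c₁ := c₁) (c₂ := c₂)
  -- a point near `0` with `V ≥ 1`
  obtain ⟨u, hu0, hus, hu1⟩ : ∃ u, 0 < u ∧ u < s ∧ 1 ≤ Veff f h c₁ c₂ u := by
    have e1 : Tendsto f (𝓝[>] 0) (𝓝 (f 0)) := hf.smooth_f.continuous.continuousAt.mono_left
      nhdsWithin_le_nhds
    rw [f_zero hf] at e1
    have e2 : ∀ᶠ x in 𝓝[>] (0 : ℝ), f x < c₁ := e1.eventually_lt_const h1
    have e3 : ∀ᶠ x in 𝓝[>] (0 : ℝ), x ∈ Ioo 0 s := Ioo_mem_nhdsGT hs0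
    obtain ⟨u, hu, hu'⟩ := (e2.and e3).exists
    refine ⟨u, hu'.1, hu'.2, ?_⟩
    have hfu : 0 < f u := hf.f_pos u hu'.1 (by linarith [hu'.2])
    have : 1 ≤ c₁ / f u := by rw [le_div_iff₀ hfu]; linarith
    unfold Veff
    nlinarith [sq_nonneg (c₂ / h u)]
  obtain ⟨v, hsv, hvL, hv1⟩ : ∃ v, s < v ∧ v < L ∧ 1 ≤ Veff f h c₁ c₂ v := by
    have e1 : Tendsto h (𝓝[<] L) (𝓝 (h L)) := hf.smooth_h.continuous.continuousAt.mono_left
      nhdsWithin_le_nhds
    rw [h_L hf] at e1
    have e2 : ∀ᶠ x in 𝓝[<] L, h x < c₂ := e1.eventually_lt_const h2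
    have e3 : ∀ᶠ x in 𝓝[<] L, x ∈ Ioo s L := Ioo_mem_nhdsLT hsL
    obtain ⟨v, hv, hv'⟩ := (e2.and e3).exists
    refine ⟨v, hv'.1, hv'.2, ?_⟩
    have hhv : 0 < h v := hf.h_pos v (by linarith [hv'.1]) hv'.2
    have : 1 ≤ c₂ / h v := by rw [le_div_iff₀ hhv]; linarith
    unfold Veff
    nlinarith [sq_nonneg (c₁ / f v)]
  obtain ⟨p, hup, hps, hp1, hplt⟩ := exists_last hus.le
    (hVc.mono (fun x hx => ⟨lt_of_lt_of_le hu0 hx.1, lt_of_le_of_lt hx.2 hsL⟩)) hu1 hs
  obtain ⟨q, hsq, hqv, hq1, hqlt⟩ := exists_first hsv.le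
    (hVc.mono (fun x hx => ⟨lt_of_lt_of_le hs0 hx.1, lt_of_le_of_lt hx.2 hvL⟩)) hs hv1
  have hp0 : 0 < p := lt_of_lt_of_le hu0 hup
  have hqL : q < L := lt_of_le_of_lt hqv hvL
  have hin : ∀ x ∈ Ioo p q, Veff f h c₁ c₂ x < 1 := by
    intro x hx
    rcases le_total x s with hxs | hxs
    · exact hplt x hx.1 hxs
    · exact hqlt x hxs hx.2
  refine ⟨p, q, hp0, hps, hsq, hqL, hp1, hq1, ?_, hin⟩
  ext r
  constructor
  · intro hr
    have hr' : ∀ x ∈ uIcc s r, 0 < x ∧ x < L ∧ Veff f h c₁ c₂ x < 1 := hr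
    constructor
    · by_contra hcon
      push Not at hcon
      have : p ∈ uIcc s r := by
        rw [uIcc_of_ge (by linarith)]; exact ⟨hcon, hps.le⟩
      have := (hr' p this).2.2
      linarith
    · by_contra hcon
      push Not at hcon
      have : q ∈ uIcc s r := by
        rw [uIcc_of_le (by linarith)]; exact ⟨hsq.le, hcon⟩
      have := (hr' q this).2.2
      linarith
  · intro hr x hx
    have hx' : x ∈ Ioo p q :=
      (ordConnected_Ioo.uIcc_subset ⟨hps, hsq⟩ hr) hx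
    exact ⟨hp0.trans hx'.1, hx'.2.trans hqL, hin x hx'⟩

theorem meas (c₁ c₂ : ℝ) : Measurable (fun r => √(1 - Veff f h c₁ c₂ r)) := by
  unfold Veff
  have m1 : Measurable f := hf.smooth_f.continuous.measurable
  have m2 : Measurable h := hf.smooth_h.continuous.measurable
  exact (measurable_const.sub (((measurable_const.div m1).pow_const 2).add
    ((measurable_const.div m2).pow_const 2))).sqrt

end

theorem bd {f h : ℝ → ℝ} (c₁ c₂ r : ℝ) : √(1 - Veff f h c₁ c₂ r) ≤ 1 := by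
  rw [Real.sqrt_le_left zero_le_one]
  unfold Veff
  nlinarith [sq_nonneg (c₁ / f r), sq_nonneg (c₂ / h r)]

theorem intOn {L : ℝ} {f h : ℝ → ℝ} (hf : IsProfile2 L f h) (c₁ c₂ : ℝ) {A : Set ℝ}
    (hA : volume A < ⊤) : IntegrableOn (fun r => √(1 - Veff f h c₁ c₂ r)) A := by
  refine Measure.integrableOn_of_bounded (M := 1) hA.ne (meas hf c₁ c₂).aestronglyMeasurable ?_
  refine Eventually.of_forall fun r => ?_
  rw [Real.norm_of_nonneg (Real.sqrt_nonneg _)]
  exact bd c₁ c₂ r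

theorem well_sub (L : ℝ) (V : ℝ → ℝ) (s : ℝ) : well L V s ⊆ Ioo 0 L := by
  intro r hr
  have := hr r right_mem_uIcc
  exact ⟨this.1, this.2.1⟩

theorem actW_nonneg (L : ℝ) (V : ℝ → ℝ) (s : ℝ) : 0 ≤ actW L V s := by
  unfold actW
  have : 0 ≤ ∫ r in well L V s, √(1 - V r) := integral_nonneg fun r => Real.sqrt_nonneg _
  linarith

/-- Contribution of a compact interval to the action. -/
theorem actW_ge {L : ℝ} {f h : ℝ → ℝ} (hf : IsProfile2 L f h) {c₁ c₂ x y s : ℝ}
    (hx : 0 < x) (hy : y < L) (hs : s ∈ Icc x y) (hV : ∀ r ∈ Icc x y, Veff f h c₁ c₂ r < 1) :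
    2 * ∫ r in Icc x y, √(1 - Veff f h c₁ c₂ r) ≤ actW L (Veff f h c₁ c₂) s := by
  unfold actW
  have hsub : Icc x y ⊆ well L (Veff f h c₁ c₂) s := by
    intro r hr z hz
    have hz' : z ∈ Icc x y := (ordConnected_Icc.uIcc_subset hs hr) hz
    exact ⟨lt_of_lt_of_le hx hz'.1, lt_of_le_of_lt hz'.2 hy, hV z hz'⟩
  have hfin : volume (well L (Veff f h c₁ c₂) s) < ⊤ :=
    lt_of_le_of_lt (measure_mono (well_sub L _ s)) measure_Ioo_lt_top
  have := setIntegral_mono_set (intOn hf c₁ c₂ hfin)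
    (Eventually.of_forall fun r => Real.sqrt_nonneg _) hsub.eventuallyLE
  linarith

/-- The effective potential stays below `1` on compact intervals for nearby constants. -/
theorem ev_lt {L : ℝ} {f h : ℝ → ℝ} (hf : IsProfile2 L f h) {c₀ : ℝ × ℝ} {x y : ℝ}
    (hx : 0 < x) (hy : y < L) (hV : ∀ r ∈ Icc x y, Veff f h c₀.1 c₀.2 r < 1) :
    ∀ᶠ c : ℝ × ℝ in 𝓝 c₀, ∀ r ∈ Icc x y, Veff f h c.1 c.2 r < 1 := by
  refine isCompact_Icc.eventually_forall_of_forall_eventually
    (P := fun (c : ℝ × ℝ) (r : ℝ) => Veff f h c.1 c.2 r < 1) ?_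
  intro r hr
  have h1 : f r ≠ 0 := (hf.f_pos r (lt_of_lt_of_le hx hr.1) (hr.2.trans hy.le)).ne'
  have h2 : h r ≠ 0 :=
    (hf.h_pos r (hx.le.trans hr.1) (lt_of_le_of_lt hr.2 hy)).ne'
  have e1 : ContinuousAt (fun z : (ℝ × ℝ) × ℝ => f z.2) (c₀, r) :=
    (hf.smooth_f.continuous.comp continuous_snd).continuousAt
  have e2 : ContinuousAt (fun z : (ℝ × ℝ) × ℝ => h z.2) (c₀, r) :=
    (hf.smooth_h.continuous.comp continuous_snd).continuousAt
  have e3 : ContinuousAt (fun z : (ℝ × ℝ) × ℝ => z.1.1) (c₀, r) :=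
    (continuous_fst.comp continuous_fst).continuousAt
  have e4 : ContinuousAt (fun z : (ℝ × ℝ) × ℝ => z.1.2) (c₀, r) :=
    (continuous_snd.comp continuous_fst).continuousAt
  have e5 : ContinuousAt (fun z : (ℝ × ℝ) × ℝ => Veff f h z.1.1 z.1.2 z.2) (c₀, r) := by
    unfold Veff
    exact ((e3.div e1 h1).pow 2).add ((e4.div e2 h2).pow 2)
  exact e5.eventually (eventually_lt_nhds (hV r hr))

theorem tendsto_int {L : ℝ} {f h : ℝ → ℝ} (hf : IsProfile2 L f h) {c₀ : ℝ × ℝ}
    {c : ℕ → ℝ × ℝ} (hc : Tendsto c atTop (𝓝 c₀)) (x y : ℝ) :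
    Tendsto (fun n => ∫ r in Icc x y, √(1 - Veff f h (c n).1 (c n).2 r)) atTop
      (𝓝 (∫ r in Icc x y, √(1 - Veff f h c₀.1 c₀.2 r))) := by
  refine tendsto_integral_of_dominated_convergence (fun _ => (1 : ℝ)) ?_ ?_ ?_ ?_
  · intro n; exact (meas hf _ _).aestronglyMeasurable
  · exact (integrableOn_const measure_Icc_lt_top.ne : IntegrableOn (fun _ => (1 : ℝ)) (Icc x y))
  · intro n
    refine Eventually.of_forall fun r => ?_
    rw [Real.norm_of_nonneg (Real.sqrt_nonneg _)]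
    exact bd _ _ r
  · refine Eventually.of_forall fun r => ?_
    unfold Veff
    have e1 : Tendsto (fun n => (c n).1) atTop (𝓝 c₀.1) := (continuous_fst.tendsto c₀).comp hc
    have e2 : Tendsto (fun n => (c n).2) atTop (𝓝 c₀.2) := (continuous_snd.tendsto c₀).comp hc
    exact (tendsto_const_nhds.sub (((e1.div_const _).pow 2).add ((e2.div_const _).pow 2))).sqrt

/-- Truncating the interval of integration changes the integral by at most the length. -/
theorem trunc {L : ℝ} {f h : ℝ → ℝ} (hf : IsProfile2 L f h) (c₁ c₂ : ℝ) {p x y q : ℝ}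
    (hpx : p ≤ x) (hxy : x ≤ y) (hyq : y ≤ q) :
    ∫ r in Ioo p q, √(1 - Veff f h c₁ c₂ r) ≤
      (∫ r in Icc x y, √(1 - Veff f h c₁ c₂ r)) + (x - p) + (q - y) := by
  rw [← integral_Ioc_eq_integral_Ioo, integral_Icc_eq_integral_Ioc,
    ← intervalIntegral.integral_of_le (hpx.trans (hxy.trans hyq)),
    ← intervalIntegral.integral_of_le hxy]
  have hi : ∀ u v : ℝ, IntervalIntegrable (fun r => √(1 - Veff f h c₁ c₂ r)) volume u v := by
    intro u v
    rw [intervalIntegrable_iff]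
    exact intOn hf c₁ c₂ (by rw [uIoc]; exact measure_Ioc_lt_top)
  have hb : ∀ u v : ℝ, u ≤ v → ∫ r in u..v, √(1 - Veff f h c₁ c₂ r) ≤ v - u := by
    intro u v huv
    have := intervalIntegral.integral_mono_on huv (hi u v)
      (intervalIntegrable_const (c := (1 : ℝ))) (fun r _ => bd c₁ c₂ r)
    simpa using this
  rw [← intervalIntegral.integral_add_adjacent_intervals (hi p y) (hi y q),
    ← intervalIntegral.integral_add_adjacent_intervals (hi p x) (hi x y)]
  have := hb p x hpx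
  have := hb y q hyq
  linarith

/-- The action defect. -/
noncomputable def Df (L R : ℝ) (f h : ℝ → ℝ) (s : ℝ × ℝ → ℝ) (c : ℝ × ℝ) : ℝ :=
  actW L (Veff f h c.1 c.2) (s c) - π * (R - c.1 - c.2)

/-- Lower semicontinuity of the action defect. -/
theorem lsc {L : ℝ} {f h : ℝ → ℝ} (hf : IsProfile2 L f h) {R : ℝ} {s : ℝ × ℝ → ℝ}
    {c₀ : ℝ × ℝ} {c : ℕ → ℝ × ℝ} (hc : Tendsto c atTop (𝓝 c₀)) {m : ℝ}
    (hD : Tendsto (fun n => Df L R f h s (c n)) atTop (𝓝 m))
    {p q x' y' : ℝ} (hp : 0 ≤ p) (hq : q ≤ L)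
    (hV : ∀ r ∈ Ioo p q, Veff f h c₀.1 c₀.2 r < 1) (hx : p < x') (hxy : x' ≤ y') (hy : y' < q)
    (hs : ∀ᶠ n in atTop, s (c n) ∈ Icc x' y') :
    2 * (∫ r in Ioo p q, √(1 - Veff f h c₀.1 c₀.2 r)) - π * (R - c₀.1 - c₀.2) ≤ m := by
  refine le_of_forall_pos_le_add fun ε hε => ?_
  set x := min (p + ε / 4) x' with hxdef
  set y := max (q - ε / 4) y' with hydef
  have hpx : p < x := lt_min (by linarith) hx
  have hyq : y < q := max_lt (by linarith) hy
  have hxx : x ≤ x' := min_le_right _ _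
  have hyy : y' ≤ y := le_max_right _ _
  have hx4 : x ≤ p + ε / 4 := min_le_left _ _
  have hy4 : q - ε / 4 ≤ y := le_max_left _ _
  have hxy2 : x ≤ y := hxx.trans (hxy.trans hyy)
  have hV' : ∀ r ∈ Icc x y, Veff f h c₀.1 c₀.2 r < 1 := fun r hr =>
    hV r ⟨lt_of_lt_of_le hpx hr.1, lt_of_le_of_lt hr.2 hyq⟩
  have hx0 : 0 < x := lt_of_le_of_lt hp hpx
  have hyL : y < L := lt_of_lt_of_le hyq hq
  have ev1 := hc.eventually (ev_lt hf hx0 hyL hV')
  have ev2 : ∀ᶠ n in atTop, 2 * (∫ r in Icc x y, √(1 - Veff f h (c n).1 (c n).2 r)) -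
      π * (R - (c n).1 - (c n).2) ≤ Df L R f h s (c n) := by
    filter_upwards [ev1, hs] with n hn hsn
    have hsn' : s (c n) ∈ Icc x y := ⟨hxx.trans hsn.1, hsn.2.trans hyy⟩
    have := actW_ge hf hx0 hyL hsn' hn
    unfold Df
    linarith
  have e1 : Tendsto (fun n => (c n).1) atTop (𝓝 c₀.1) := (continuous_fst.tendsto c₀).comp hc
  have e2 : Tendsto (fun n => (c n).2) atTop (𝓝 c₀.2) := (continuous_snd.tendsto c₀).comp hc
  have lim : Tendsto (fun n => 2 * (∫ r in Icc x y, √(1 - Veff f h (c n).1 (c n).2 r)) -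
      π * (R - (c n).1 - (c n).2)) atTop (𝓝 (2 * (∫ r in Icc x y, √(1 - Veff f h c₀.1 c₀.2 r)) -
      π * (R - c₀.1 - c₀.2))) :=
    ((tendsto_int hf hc x y).const_mul 2).sub (((tendsto_const_nhds.sub e1).sub e2).const_mul π)
  have key := le_of_tendsto_of_tendsto lim hD ev2
  have ht := trunc hf c₀.1 c₀.2 hpx.le hxy2 hyq.le
  linarith

/-- Existence of the minimum of `D(c) = A(c) - π (R - c₁ - c₂)` if it is negative somewhere. -/
theorem exists_min {L : ℝ} {f h : ℝ → ℝ} (hf : IsProfile2 L f h) {R S a b : ℝ} (hR : 0 < R)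
    (hRS : R < S) (ha : 0 < a) (haL : a < L) (hb : 0 < b) (hbL : b < L)
    (hfa : ∀ r ∈ Icc 0 a, 0 < deriv f r) (hfS : ∀ r ∈ Icc a L, S ≤ f r)
    (hhb : ∀ r ∈ Icc b L, deriv h r < 0) (hhS : ∀ r ∈ Icc 0 b, S ≤ h r)
    {s : ℝ × ℝ → ℝ} {ρ lo hi η : ℝ} (hρ : ρ < 1) (hlo : 0 < lo) (hhi : hi < L) (hη : 0 < η)
    (hs : ContinuousOn s {c | 0 < c.1 ∧ 0 < c.2})
    (hsI : ∀ c : ℝ × ℝ, 0 < c.1 → 0 < c.2 → lo ≤ s c ∧ s c ≤ hi)
    (hsρ : ∀ c ∈ Tri R, Veff f h c.1 c.2 (s c) ≤ ρ)
    (hsb : ∀ c : ℝ × ℝ, 0 < c.1 → 0 < c.2 → c.1 ≤ η * c.2 → s c ≤ b)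
    (hsa : ∀ c : ℝ × ℝ, 0 < c.1 → 0 < c.2 → c.2 ≤ η * c.1 → a ≤ s c)
    (hEf : ∀ c, 0 ≤ c → c ≤ R → π * (R - c) ≤ 2 * ∫ r in Ioo 0 L, √(1 - (c / f r) ^ 2))
    (hEh : ∀ c, 0 ≤ c → c ≤ R → π * (R - c) ≤ 2 * ∫ r in Ioo 0 L, √(1 - (c / h r) ^ 2))
    (hneg : ∃ c ∈ Tri R, actW L (Veff f h c.1 c.2) (s c) < π * (R - c.1 - c.2)) :
    ∃ c ∈ Tri R, actW L (Veff f h c.1 c.2) (s c) < π * (R - c.1 - c.2) ∧
      ∀ c' ∈ Tri R, actW L (Veff f h c.1 c.2) (s c) - π * (R - c.1 - c.2) ≤
        actW L (Veff f h c'.1 c'.2) (s c') - π * (R - c'.1 - c'.2) := by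
  have hπ := Real.pi_pos
  -- the infimum
  set E : Set ℝ := Df L R f h s '' Tri R with hE
  have hbdd : BddBelow E := by
    refine ⟨-(π * R), ?_⟩
    rintro _ ⟨c, hc, rfl⟩
    have h0 := actW_nonneg L (Veff f h c.1 c.2) (s c)
    obtain ⟨h1, h2, h3⟩ := hc
    unfold Df
    nlinarith
  obtain ⟨c₁, hc₁, hc₁'⟩ := hneg
  have hne : E.Nonempty := ⟨_, c₁, hc₁, rfl⟩
  set m := sInf E with hm
  have hmneg : m < 0 := by
    have : m ≤ Df L R f h s c₁ := csInf_le hbdd ⟨c₁, hc₁, rfl⟩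
    unfold Df at this
    linarith
  obtain ⟨u, -, hu, huE⟩ := exists_seq_tendsto_sInf hne hbdd
  choose d hdT hdu using huE
  -- subsequence
  have hdK : ∀ n, d n ∈ Icc ((0 : ℝ), (0 : ℝ)) (R, R) := by
    intro n
    obtain ⟨h1, h2, h3⟩ := hdT n
    exact ⟨⟨h1.le, h2.le⟩, ⟨by simp only; linarith, by simp only; linarith⟩⟩
  obtain ⟨c₀, hc₀, φ, hφ, hlim⟩ := isCompact_Icc.tendsto_subseq hdK
  set c : ℕ → ℝ × ℝ := d ∘ φ with hcdef
  have hcT : ∀ n, c n ∈ Tri R := fun n => hdT (φ n)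
  have hD : Tendsto (fun n => Df L R f h s (c n)) atTop (𝓝 m) := by
    have : (fun n => Df L R f h s (c n)) = u ∘ φ := by
      funext n; exact hdu (φ n)
    rw [this]
    exact hu.comp hφ.tendsto_atTop
  have e1 : Tendsto (fun n => (c n).1) atTop (𝓝 c₀.1) := (continuous_fst.tendsto c₀).comp hlim
  have e2 : Tendsto (fun n => (c n).2) atTop (𝓝 c₀.2) := (continuous_snd.tendsto c₀).comp hlim
  have h01 : 0 ≤ c₀.1 := hc₀.1.1
  have h02 : 0 ≤ c₀.2 := hc₀.1.2
  have hsum : c₀.1 + c₀.2 ≤ R :=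
    le_of_tendsto (e1.add e2) (Eventually.of_forall fun n => (hcT n).2.2.le)
  -- the hypotenuse
  have hsum' : c₀.1 + c₀.2 < R := by
    rcases lt_or_eq_of_le hsum with hh | hh
    · exact hh
    exfalso
    have lim0 : Tendsto (fun n => -(π * (R - (c n).1 - (c n).2))) atTop
        (𝓝 (-(π * (R - c₀.1 - c₀.2)))) :=
      (((tendsto_const_nhds.sub e1).sub e2).const_mul π).neg
    have := le_of_tendsto_of_tendsto lim0 hD (Eventually.of_forall fun n => by
      have := actW_nonneg L (Veff f h (c n).1 (c n).2) (s (c n))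
      unfold Df
      linarith)
    have e : R - c₀.1 - c₀.2 = 0 := by linarith
    rw [e] at this
    simp at this
    linarith
  rcases eq_or_lt_of_le h01 with h01' | h01'
  · rcases eq_or_lt_of_le h02 with h02' | h02'
    · -- the origin
      exfalso
      have h10 : c₀.1 = 0 := h01'.symm
      have h20 : c₀.2 = 0 := h02'.symm
      have hlohi : lo ≤ hi := by
        have := hsI (c 0) (hcT 0).1 (hcT 0).2.1
        exact this.1.trans this.2
      have key := lsc (R := R) (s := s) hf hlim hD (p := 0) (q := L) (x' := lo) (y' := hi) le_rfl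
        le_rfl (fun r _ => by rw [h10, h20]; unfold Veff; simp) hlo hlohi hhi
        (Eventually.of_forall fun n => hsI (c n) (hcT n).1 (hcT n).2.1)
      have hE0 := hEf 0 le_rfl hR.le
      rw [h10, h20] at key
      unfold Veff at key
      simp only [zero_div, ne_eq, OfNat.ofNat_ne_zero, not_false_eq_true, zero_pow, add_zero,
        sub_zero] at key hE0
      linarith
    · -- the edge `c₁ = 0`
      exfalso
      have h10 : c₀.1 = 0 := h01'.symm
      set t := c₀.2 with ht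
      have htR : t < R := by rw [h10] at hsum'; linarith
      -- the point where `h = t`
      have hanti : StrictAntiOn h (Icc b L) := by
        refine strictAntiOn_of_deriv_neg (convex_Icc b L) hf.smooth_h.continuous.continuousOn ?_
        intro r hr
        rw [interior_Icc] at hr
        exact hhb r ⟨hr.1.le, hr.2.le⟩
      have hhL := h_L hf
      have hhb' := hhS b ⟨hb.le, le_rfl⟩
      obtain ⟨y₀, hy₀, hy₀t⟩ : t ∈ h '' Icc b L :=
        intermediate_value_Icc' hbL.le hf.smooth_h.continuous.continuousOn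
          ⟨by rw [hhL]; exact h02'.le, by linarith⟩
      have hby : b < y₀ := by
        rcases eq_or_lt_of_le hy₀.1 with h | h
        · rw [← h] at hy₀t; linarith
        · exact h
      have hyL : y₀ < L := by
        rcases eq_or_lt_of_le hy₀.2 with h | h
        · rw [h, hhL] at hy₀t; linarith
        · exact h
      have hgt : ∀ r ∈ Ioo 0 y₀, t < h r := by
        intro r hr
        rcases le_total r b with hrb | hrb
        · have := hhS r ⟨hr.1.le, hrb⟩
          linarith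
        · rw [← hy₀t]
          exact hanti ⟨hrb, hr.2.le.trans hyL.le⟩ hy₀ hr.2
      have hVt : ∀ r ∈ Ioo 0 y₀, Veff f h c₀.1 c₀.2 r < 1 := by
        intro r hr
        have h1 := hgt r hr
        have h2 : t / h r < 1 := by rw [div_lt_one (by linarith)]; exact h1
        have h3 : 0 < t / h r := div_pos h02' (by linarith)
        unfold Veff
        rw [h10, ← ht, zero_div]
        nlinarith
      have hev : ∀ᶠ n in atTop, s (c n) ∈ Icc lo (max b lo) := by
        have e3 : Tendsto (fun n => η * (c n).2 - (c n).1) atTop (𝓝 (η * t - 0)) := by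
          rw [← h10]; exact (e2.const_mul η).sub e1
        have e4 : (0 : ℝ) < η * t - 0 := by rw [sub_zero]; exact mul_pos hη h02'
        filter_upwards [e3.eventually (lt_mem_nhds e4)] with n hn
        have hn1 := (hcT n).1
        have hn2 := (hcT n).2.1
        exact ⟨(hsI _ hn1 hn2).1, (hsb _ hn1 hn2 (by linarith)).trans (le_max_left _ _)⟩
      have hlob : lo ≤ b := by
        have e3 : Tendsto (fun n => η * (c n).2 - (c n).1) atTop (𝓝 (η * t - 0)) := by
          rw [← h10]; exact (e2.const_mul η).sub e1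
        have e4 : (0 : ℝ) < η * t - 0 := by rw [sub_zero]; exact mul_pos hη h02'
        obtain ⟨n, hn⟩ := (e3.eventually (lt_mem_nhds e4)).exists
        have hn1 := (hcT n).1
        have hn2 := (hcT n).2.1
        exact (hsI _ hn1 hn2).1.trans (hsb _ hn1 hn2 (by linarith))
      have key := lsc (R := R) (s := s) hf hlim hD (p := 0) (q := y₀) (x' := lo)
        (y' := max b lo) le_rfl
        hyL.le hVt hlo (le_max_right _ _) (max_lt hby (lt_of_le_of_lt hlob hby)) hev
      have hE0 := hEh t h02 htR.le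
      have hsplit : ∫ r in Ioo 0 L, √(1 - (t / h r) ^ 2) =
          ∫ r in Ioo 0 y₀, √(1 - Veff f h c₀.1 c₀.2 r) := by
        have e : (fun r => √(1 - (t / h r) ^ 2)) = fun r => √(1 - Veff f h c₀.1 c₀.2 r) := by
          funext r; unfold Veff; rw [h10, ← ht]; simp
        rw [e]
        refine setIntegral_eq_of_subset_of_forall_sdiff_eq_zero measurableSet_Ioo
          (Ioo_subset_Ioo_right hyL.le) ?_
        intro r hr
        have hr1 : y₀ ≤ r := by
          by_contra hcon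
          exact hr.2 ⟨hr.1.1, not_le.mp hcon⟩
        have hr2 : h r ≤ t := by
          rw [← hy₀t]
          exact hanti.antitoneOn hy₀ ⟨hby.le.trans hr1, hr.1.2.le⟩ hr1
        have hr3 : 0 < h r := hf.h_pos r hr.1.1.le hr.1.2
        have hr4 : 1 ≤ t / h r := by rw [le_div_iff₀ hr3]; linarith
        refine Real.sqrt_eq_zero_of_nonpos ?_
        unfold Veff
        rw [← ht]
        nlinarith [sq_nonneg (c₀.1 / f r)]
      rw [hsplit] at hE0
      rw [h10] at key hE0
      rw [← ht] at key hE0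
      have : R - 0 - t = R - t := by ring
      rw [this] at key
      linarith
  · rcases eq_or_lt_of_le h02 with h02' | h02'
    · -- the edge `c₂ = 0`
      exfalso
      have h20 : c₀.2 = 0 := h02'.symm
      set t := c₀.1 with ht
      have htR : t < R := by rw [h20] at hsum'; linarith
      have hmono : StrictMonoOn f (Icc 0 a) := by
        refine strictMonoOn_of_deriv_pos (convex_Icc 0 a) hf.smooth_f.continuous.continuousOn ?_
        intro r hr
        rw [interior_Icc] at hr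
        exact hfa r ⟨hr.1.le, hr.2.le⟩
      have hf0 := f_zero hf
      have hfa' := hfS a ⟨le_rfl, haL.le⟩
      obtain ⟨x₀, hx₀, hx₀t⟩ : t ∈ f '' Icc 0 a :=
        intermediate_value_Icc ha.le hf.smooth_f.continuous.continuousOn
          ⟨by rw [hf0]; exact h01'.le, by linarith⟩
      have hxa : x₀ < a := by
        rcases eq_or_lt_of_le hx₀.2 with h | h
        · rw [h] at hx₀t; linarith
        · exact h
      have hx0 : 0 < x₀ := by
        rcases eq_or_lt_of_le hx₀.1 with h | h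
        · rw [← h, hf0] at hx₀t; linarith
        · exact h
      have hgt : ∀ r ∈ Ioo x₀ L, t < f r := by
        intro r hr
        rcases le_total a r with hrb | hrb
        · have := hfS r ⟨hrb, hr.2.le⟩
          linarith
        · rw [← hx₀t]
          exact hmono hx₀ ⟨hx0.le.trans hr.1.le, hrb⟩ hr.1
      have hVt : ∀ r ∈ Ioo x₀ L, Veff f h c₀.1 c₀.2 r < 1 := by
        intro r hr
        have h1 := hgt r hr
        have h2 : t / f r < 1 := by rw [div_lt_one (by linarith)]; exact h1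
        have h3 : 0 < t / f r := div_pos h01' (by linarith)
        unfold Veff
        rw [h20, ← ht, zero_div]
        nlinarith
      have e3 : Tendsto (fun n => η * (c n).1 - (c n).2) atTop (𝓝 (η * t - 0)) := by
        rw [← h20]; exact (e1.const_mul η).sub e2
      have e4 : (0 : ℝ) < η * t - 0 := by rw [sub_zero]; exact mul_pos hη h01'
      have hev : ∀ᶠ n in atTop, s (c n) ∈ Icc (min a hi) hi := by
        filter_upwards [e3.eventually (lt_mem_nhds e4)] with n hn
        have hn1 := (hcT n).1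
        have hn2 := (hcT n).2.1
        exact ⟨(min_le_left _ _).trans (hsa _ hn1 hn2 (by linarith)), (hsI _ hn1 hn2).2⟩
      have hahi : a ≤ hi := by
        obtain ⟨n, hn⟩ := (e3.eventually (lt_mem_nhds e4)).exists
        have hn1 := (hcT n).1
        have hn2 := (hcT n).2.1
        exact (hsa _ hn1 hn2 (by linarith)).trans (hsI _ hn1 hn2).2
      have key := lsc (R := R) (s := s) hf hlim hD (p := x₀) (q := L) (x' := min a hi)
        (y' := hi) hx0.le
        le_rfl hVt (lt_min hxa (lt_of_lt_of_le hxa hahi)) (min_le_right _ _) hhi hev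
      have hE0 := hEf t h01 htR.le
      have hsplit : ∫ r in Ioo 0 L, √(1 - (t / f r) ^ 2) =
          ∫ r in Ioo x₀ L, √(1 - Veff f h c₀.1 c₀.2 r) := by
        have e : (fun r => √(1 - (t / f r) ^ 2)) = fun r => √(1 - Veff f h c₀.1 c₀.2 r) := by
          funext r; unfold Veff; rw [h20, ← ht]; simp
        rw [e]
        refine setIntegral_eq_of_subset_of_forall_sdiff_eq_zero measurableSet_Ioo
          (Ioo_subset_Ioo_left hx0.le) ?_
        intro r hr
        have hr1 : r ≤ x₀ := by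
          by_contra hcon
          exact hr.2 ⟨not_le.mp hcon, hr.1.2⟩
        have hr2 : f r ≤ t := by
          rw [← hx₀t]
          exact hmono.monotoneOn ⟨hr.1.1.le, hr1.trans hxa.le⟩ hx₀ hr1
        have hr3 : 0 < f r := hf.f_pos r hr.1.1 hr.1.2.le
        have hr4 : 1 ≤ t / f r := by rw [le_div_iff₀ hr3]; linarith
        refine Real.sqrt_eq_zero_of_nonpos ?_
        unfold Veff
        rw [← ht]
        nlinarith [sq_nonneg (c₀.2 / h r)]
      rw [hsplit] at hE0
      rw [h20] at key hE0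
      rw [← ht] at key hE0
      have : R - t - 0 = R - t := by ring
      rw [this] at key
      linarith
    · -- an interior point: the minimum
      have hc₀T : c₀ ∈ Tri R := ⟨h01', h02', hsum'⟩
      have hopen : IsOpen {c : ℝ × ℝ | 0 < c.1 ∧ 0 < c.2} :=
        (isOpen_lt continuous_const continuous_fst).inter
          (isOpen_lt continuous_const continuous_snd)
      have hscont : ContinuousAt s c₀ := hs.continuousAt (hopen.mem_nhds ⟨h01', h02'⟩)
      have hslim : Tendsto (fun n => s (c n)) atTop (𝓝 (s c₀)) := hscont.tendsto.comp hlim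
      have hsI0 := hsI c₀ h01' h02'
      obtain ⟨p, q, hp, hps, hsq, hq, -, -, hw, hin⟩ := well_spec hf h01' h02'
        (lt_of_lt_of_le hlo hsI0.1) (lt_of_le_of_lt hsI0.2 hhi)
        (lt_of_le_of_lt (hsρ c₀ hc₀T) hρ)
      have hev : ∀ᶠ n in atTop, s (c n) ∈ Icc ((p + s c₀) / 2) ((s c₀ + q) / 2) :=
        hslim.eventually (Icc_mem_nhds (by linarith) (by linarith))
      have key := lsc (R := R) (s := s) hf hlim hD (p := p) (q := q) hp.le hq.le hin
        (by linarith) (by linarith) (by linarith) hev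
      have hle : Df L R f h s c₀ ≤ m := by
        unfold Df actW
        rw [hw]
        exact key
      refine ⟨c₀, hc₀T, ?_, ?_⟩
      · have := lt_of_le_of_lt hle hmneg
        unfold Df at this
        linarith
      · intro c' hc'
        exact hle.trans (csInf_le hbdd ⟨c', hc', rfl⟩)

end Pool.Agent.H206R2.Rot2.TE
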