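import Pool.Agent.H206R2.Rot2.TF

/-! Task G (helper92): at the minimum the rotation angles are at least `π`. -/

open Real Set MeasureTheory Filter Topology
open scoped ContDiff

namespace Pool.Agent.H206R2.Rot2.TG

open Pool.Agent.H206R2.Rot2.TF

lemma left_bound {V : ℝ → ℝ} {p : ℝ} (h : DifferentiableAt ℝ V p) (hneg : deriv V p < 0)
    (hVp : V p = 1) : ∀ᶠ r in 𝓝[<] p, 1 + (-(deriv V p) / 2) * (p - r) ≤ V r := by
  have h1 : HasDerivWithinAt V (deriv V p) (Iio p) p := h.hasDerivAt.hasDerivWithinAt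
  rw [hasDerivWithinAt_iff_tendsto_slope' (by simp)] at h1
  filter_upwards [h1.eventually_lt_const (by linarith : deriv V p < deriv V p / 2),
    self_mem_nhdsWithin] with r hr hr2
  rw [slope_def_field, div_lt_iff_of_neg (by linarith [mem_Iio.mp hr2]), hVp] at hr
  linarith

lemma right_bound {V : ℝ → ℝ} {q : ℝ} (h : DifferentiableAt ℝ V q) (hpos : 0 < deriv V q)
    (hVq : V q = 1) : ∀ᶠ r in 𝓝[>] q, 1 + (deriv V q / 2) * (r - q) ≤ V r := by
  have h1 : HasDerivWithinAt V (deriv V q) (Ioi q) q := h.hasDerivAt.hasDerivWithinAt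
  rw [hasDerivWithinAt_iff_tendsto_slope' (by simp)] at h1
  filter_upwards [h1.eventually_const_lt (by linarith : deriv V q / 2 < deriv V q),
    self_mem_nhdsWithin] with r hr hr2
  rw [slope_def_field, lt_div_iff₀ (by linarith [mem_Ioi.mp hr2]), hVq] at hr
  linarith

/-- abstract upper estimate -/
lemma abs_ge {L : ℝ} {V G : ℝ → ℝ} (hV : ContinuousOn V (Ioo 0 L)) (hG : ContinuousOn G (Ioo 0 L))
    (hG0 : ∀ x ∈ Ioo 0 L, 0 < G x) {p q s₀ : ℝ} (hp : 0 < p) (hps : p < s₀) (hsq : s₀ < q)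
    (hq : q < L) (hVp : V p = 1) (hVq : V q = 1) (hin : ∀ x ∈ Ioo p q, V x < 1) {a b : ℝ}
    (ha : 0 < a) (hb : 0 < b) (hpd : ∀ᶠ r in 𝓝[<] p, 1 + a * (p - r) ≤ V r)
    (hqd : ∀ᶠ r in 𝓝[>] q, 1 + b * (r - q) ≤ V r) {k : ℝ}
    (hk : 0 < k) {σ : ℝ → ℝ} (hσ : Tendsto σ (𝓝[>] 0) (𝓝 s₀))
    (hmin : ∀ᶠ ε in 𝓝[>] (0 : ℝ), 2 * (∫ r in Ioo p q, √(1 - V r)) + π * ε ≤
      2 * ∫ r in well L (fun r => V r - (k ^ 2 - (k - ε) ^ 2) * G r) (σ ε),
        √(1 - (V r - (k ^ 2 - (k - ε) ^ 2) * G r)))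
    (hint : IntegrableOn (fun r => k * G r / √(1 - V r)) (Ioo p q)) :
    π ≤ 2 * ∫ r in Ioo p q, k * G r / √(1 - V r) := by
  -- compact neighbourhood
  obtain ⟨l1, hl1, hl1'⟩ := (mem_nhdsLT_iff_exists_mem_Ico_Ioo_subset
    (by linarith : p / 2 < p)).mp hpd
  obtain ⟨u1, hu1, hu1'⟩ := (mem_nhdsGT_iff_exists_mem_Ioc_Ioo_subset
    (by linarith : q < (q + L) / 2)).mp hqd
  set l := (l1 + p) / 2 with hl
  set u := (u1 + q) / 2 with hu
  have hl0 : 0 < l := by rw [hl]; linarith [hl1.1]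
  have hlp : l < p := by rw [hl]; linarith [hl1.2]
  have hqu : q < u := by rw [hu]; linarith [hu1.1]
  have huL : u < L := by rw [hu]; linarith [hu1.2]
  have hVl : ∀ r ∈ Icc l p, 1 + a * (p - r) ≤ V r := by
    intro r hr
    rcases eq_or_lt_of_le hr.2 with h | h
    · rw [h, hVp]; simp
    · exact hl1' ⟨by linarith [hr.1, hl1.2], h⟩
  have hVu : ∀ r ∈ Icc q u, 1 + b * (r - q) ≤ V r := by
    intro r hr
    rcases eq_or_lt_of_le hr.1 with h | h
    · rw [← h, hVq]; simp
    · exact hu1' ⟨h, by linarith [hr.2, hu1.1]⟩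
  have hK : Icc l u ⊆ Ioo 0 L := fun r hr => ⟨by linarith [hr.1], by linarith [hr.2]⟩
  obtain ⟨x2, hx2, hmax2⟩ := isCompact_Icc.exists_isMaxOn (nonempty_Icc.mpr (by linarith : l ≤ u))
    (hG.mono hK)
  set B := G x2 with hB
  have hB0 : 0 < B := hG0 x2 (hK hx2)
  set C := 2 * k * B with hC
  have hC0 : 0 < C := by positivity
  have hpqK : Icc p q ⊆ Icc l u := Icc_subset_Icc hlp.le hqu.le
  -- the main inequality
  have main : ∀ᶠ ε in 𝓝[>] (0 : ℝ), π ≤ 2 * (∫ r in Ioo p q, k * G r / √(1 - V r)) +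
      2 * √(C * ε) * (C / a + C / b) := by
    have e1 : ∀ᶠ ε in 𝓝[>] (0 : ℝ), C * ε / a < p - l := by
      have hc : Continuous fun ε : ℝ => C * ε / a := by fun_prop
      have ht := hc.tendsto 0
      simp only [mul_zero, zero_div] at ht
      exact (tendsto_nhdsWithin_of_tendsto_nhds ht).eventually_lt_const (by linarith)
    have e2 : ∀ᶠ ε in 𝓝[>] (0 : ℝ), C * ε / b < u - q := by
      have hc : Continuous fun ε : ℝ => C * ε / b := by fun_prop
      have ht := hc.tendsto 0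
      simp only [mul_zero, zero_div] at ht
      exact (tendsto_nhdsWithin_of_tendsto_nhds ht).eventually_lt_const (by linarith)
    have e3 : ∀ᶠ ε in 𝓝[>] (0 : ℝ), ε < k :=
      (tendsto_nhdsWithin_of_tendsto_nhds tendsto_id).eventually_lt_const hk
    have e4 : ∀ᶠ ε in 𝓝[>] (0 : ℝ), σ ε ∈ Ioo p q := hσ (Ioo_mem_nhds hps hsq)
    have e5 : ∀ᶠ ε in 𝓝[>] (0 : ℝ), ε ∈ Ioi (0 : ℝ) := self_mem_nhdsWithin
    filter_upwards [e1, e2, e3, e4, e5, hmin] with ε h1 h2 h3 h4 h5 h6
    rw [mem_Ioi] at h5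
    set κ : ℝ := k ^ 2 - (k - ε) ^ 2 with hκ
    have hκ1 : κ ≤ 2 * k * ε := by rw [hκ]; nlinarith [sq_nonneg ε]
    have hκ0 : 0 < κ := by rw [hκ]; nlinarith
    set V' : ℝ → ℝ := fun r => V r - κ * G r with hV'
    set W := well L V' (σ ε) with hW
    have hdiff : ∀ r ∈ Icc l u, V r - C * ε ≤ V' r := fun r hr => by
      have h7 : G r ≤ B := hmax2 hr
      have h8 := mul_le_mul hκ1 h7 (hG0 r (hK hr)).le (by positivity)
      simp only [hV', hC]
      nlinarith
    set P := p - C * ε / a with hP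
    set Q := q + C * ε / b with hQ
    have hCa : 0 < C * ε / a := by positivity
    have hCb : 0 < C * ε / b := by positivity
    have hPm : P ∈ Icc l p := ⟨by rw [hP]; linarith, by rw [hP]; linarith⟩
    have hQm : Q ∈ Icc q u := ⟨by rw [hQ]; linarith, by rw [hQ]; linarith⟩
    have hVP : 1 ≤ V' P := by
      have h7 := hVl P hPm
      have h8 := hdiff P ⟨hPm.1, by linarith [hPm.2]⟩
      have h9 : a * (p - P) = C * ε := by rw [hP]; field_simp; ring
      linarith
    have hVQ : 1 ≤ V' Q := by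
      have h7 := hVu Q hQm
      have h8 := hdiff Q ⟨by linarith [hQm.1], hQm.2⟩
      have h9 : b * (Q - q) = C * ε := by rw [hQ]; field_simp; ring
      linarith
    have hW1 : W ⊆ Ioo P Q := by
      intro r hr
      constructor
      · by_contra hcon
        push Not at hcon
        have hm : P ∈ uIcc (σ ε) r := by
          rw [mem_uIcc]; right; exact ⟨hcon, by linarith [h4.1, hPm.2]⟩
        obtain ⟨-, -, h7⟩ := hr P hm
        linarith
      · by_contra hcon
        push Not at hcon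
        have hm : Q ∈ uIcc (σ ε) r := by
          rw [mem_uIcc]; left; exact ⟨by linarith [h4.2, hQm.1], hcon⟩
        obtain ⟨-, -, h7⟩ := hr Q hm
        linarith
    have hWm : MeasurableSet W := well_meas L V' (σ ε)
    have hPQ : Icc P Q ⊆ Icc l u := Icc_subset_Icc hPm.1 hQm.2
    have hi : IntegrableOn (fun r => √(1 - V' r)) W := by
      refine (ContinuousOn.integrableOn_Icc (a := l) (b := u) ?_).mono_set
        ((hW1.trans Ioo_subset_Icc_self).trans hPQ)
      exact (continuousOn_const.sub ((hV.mono hK).sub (continuousOn_const.mul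
        (hG.mono hK)))).sqrt
    have hi1 : IntegrableOn (fun r => √(1 - V r)) (Ioo p q) := by
      refine (ContinuousOn.integrableOn_Icc ?_).mono_set Ioo_subset_Icc_self
      exact (continuousOn_const.sub (hV.mono (hpqK.trans hK))).sqrt
    have hi2 : IntegrableOn (fun r => √(1 - V r) + ε * (k * G r / √(1 - V r))) (Ioo p q) :=
      hi1.add (hint.const_mul ε)
    have hsub3 : Ioo p q ⊆ Ioo 0 L := (Ioo_subset_Icc_self.trans hpqK).trans hK
    have key1 : ∫ r in W ∩ Ioo p q, √(1 - V' r) ≤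
        (∫ r in Ioo p q, √(1 - V r)) + ε * ∫ r in Ioo p q, k * G r / √(1 - V r) := by
      calc ∫ r in W ∩ Ioo p q, √(1 - V' r)
          ≤ ∫ r in W ∩ Ioo p q, (√(1 - V r) + ε * (k * G r / √(1 - V r))) := by
            apply setIntegral_mono_on (hi.mono_set inter_subset_left)
              (hi2.mono_set inter_subset_right) (hWm.inter measurableSet_Ioo)
            rintro r ⟨hrW, hrI⟩
            have hrV := hin r hrI
            have hrV' : V' r < 1 := (hrW r right_mem_uIcc).2.2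
            have g1 := sqrt_sub_le (a := 1 - V r) (b := 1 - V' r) (by linarith) (by linarith)
            have hs : 0 < √(1 - V r) := Real.sqrt_pos.mpr (by linarith)
            have g2 : (1 - V' r - (1 - V r)) / (2 * √(1 - V r)) = κ * G r / (2 * √(1 - V r)) := by
              simp only [hV']
              ring
            have g3 : κ * G r / (2 * √(1 - V r)) ≤ ε * (k * G r / √(1 - V r)) := by
              rw [← mul_div_assoc, div_le_div_iff₀ (by positivity) hs]
              have hG' := hG0 r (hsub3 hrI)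
              nlinarith [mul_pos hG' hs]
            rw [g2] at g1
            linarith
        _ ≤ ∫ r in Ioo p q, (√(1 - V r) + ε * (k * G r / √(1 - V r))) := by
            refine setIntegral_mono_set hi2 ?_ inter_subset_right.eventuallyLE
            refine (ae_restrict_iff' measurableSet_Ioo).mpr (ae_of_all _ fun r hr => ?_)
            have hG' := hG0 r (hsub3 hr)
            simp only [Pi.zero_apply]
            positivity
        _ = _ := by
            rw [integral_add hi1 (hint.const_mul ε), integral_const_mul]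
    have hWd : W \ Ioo p q ⊆ Icc P p ∪ Icc q Q := by
      rintro r ⟨hr1, hr2⟩
      have hr3 := hW1 hr1
      rw [mem_Ioo, not_and_or, not_lt, not_lt] at hr2
      rcases hr2 with h | h
      · left; exact ⟨hr3.1.le, h⟩
      · right; exact ⟨h, hr3.2.le⟩
    have key2 : ∫ r in W \ Ioo p q, √(1 - V' r) ≤ √(C * ε) * (C * ε / a + C * ε / b) := by
      have hfin : volume (Icc P p ∪ Icc q Q) ≤
          ENNReal.ofReal (C * ε / a + C * ε / b) := by
        refine (measure_union_le _ _).trans ?_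
        rw [Real.volume_Icc, Real.volume_Icc, ← ENNReal.ofReal_add (by linarith [hPm.2])
          (by linarith [hQm.1])]
        apply ENNReal.ofReal_le_ofReal
        rw [hP, hQ]
        linarith
      have hvW : volume (W \ Ioo p q) ≤ ENNReal.ofReal (C * ε / a + C * ε / b) :=
        (measure_mono hWd).trans hfin
      have hvr : volume.real (W \ Ioo p q) ≤ C * ε / a + C * ε / b := by
        unfold Measure.real
        exact ENNReal.toReal_le_of_le_ofReal (by positivity) hvW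
      have hb1 : ‖∫ r in W \ Ioo p q, √(1 - V' r)‖ ≤ √(C * ε) * volume.real (W \ Ioo p q) := by
        refine norm_setIntegral_le_of_norm_le_const (lt_of_le_of_lt hvW ENNReal.ofReal_lt_top) ?_
        intro r hr
        rw [Real.norm_eq_abs, abs_of_nonneg (Real.sqrt_nonneg _)]
        apply Real.sqrt_le_sqrt
        have hrU := hWd hr
        have hV1 : 1 ≤ V r := by
          rcases hrU with h | h
          · have := hVl r ⟨by linarith [h.1, hPm.1], h.2⟩
            have h7 : 0 ≤ a * (p - r) := mul_nonneg ha.le (by linarith [h.2])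
            linarith
          · have := hVu r ⟨h.1, by linarith [h.2, hQm.2]⟩
            have h7 : 0 ≤ b * (r - q) := mul_nonneg hb.le (by linarith [h.1])
            linarith
        have := hdiff r (hPQ (Ioo_subset_Icc_self (hW1 hr.1)))
        linarith
      have hb2 : ∫ r in W \ Ioo p q, √(1 - V' r) ≤ ‖∫ r in W \ Ioo p q, √(1 - V' r)‖ :=
        Real.le_norm_self _
      refine (hb2.trans hb1).trans (mul_le_mul_of_nonneg_left hvr (Real.sqrt_nonneg _))
    have hsplit := integral_inter_add_sdiff (μ := volume) (s := W) (t := Ioo p q)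
      (f := fun r => √(1 - V' r)) measurableSet_Ioo hi
    have htot : π * ε ≤ ε * (2 * (∫ r in Ioo p q, k * G r / √(1 - V r)) +
        2 * √(C * ε) * (C / a + C / b)) := by
      have g4 : √(C * ε) * (C * ε / a + C * ε / b) = ε * (√(C * ε) * (C / a + C / b)) := by ring
      rw [g4] at key2
      have h6' : 2 * (∫ r in Ioo p q, √(1 - V r)) + π * ε ≤ 2 * ∫ r in W, √(1 - V' r) := h6
      rw [← hsplit] at h6'
      linarith
    have : ε * π ≤ ε * (2 * (∫ r in Ioo p q, k * G r / √(1 - V r)) +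
        2 * √(C * ε) * (C / a + C / b)) := by linarith
    exact le_of_mul_le_mul_left this h5
  have hlim : Tendsto (fun ε : ℝ => 2 * (∫ r in Ioo p q, k * G r / √(1 - V r)) +
      2 * √(C * ε) * (C / a + C / b)) (𝓝[>] 0) (𝓝 (2 * ∫ r in Ioo p q, k * G r / √(1 - V r))) := by
    have hc : Continuous fun ε : ℝ => 2 * (∫ r in Ioo p q, k * G r / √(1 - V r)) +
      2 * √(C * ε) * (C / a + C / b) := by fun_prop
    have ht := hc.tendsto 0
    simp only [mul_zero, Real.sqrt_zero, zero_mul, add_zero] at ht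
    exact tendsto_nhdsWithin_of_tendsto_nhds ht
  exact ge_of_tendsto hlim main

lemma veff_sub1 (f h : ℝ → ℝ) (c₁ c₂ ε : ℝ) : Veff f h (c₁ - ε) c₂ =
    fun r => Veff f h c₁ c₂ r - (c₁ ^ 2 - (c₁ - ε) ^ 2) * (1 / f r ^ 2) := by
  funext r
  unfold Veff
  ring

lemma veff_sub2 (f h : ℝ → ℝ) (c₁ c₂ ε : ℝ) : Veff f h c₁ (c₂ - ε) =
    fun r => Veff f h c₁ c₂ r - (c₂ ^ 2 - (c₂ - ε) ^ 2) * (1 / h r ^ 2) := by
  funext r
  unfold Veff
  ring

lemma weight_int {V G : ℝ → ℝ} {p q L : ℝ} (hpq : p < q) (hsub2 : Icc p q ⊆ Ioo 0 L)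
    (hV : ContinuousOn V (Ioo 0 L)) (hG : ContinuousOn G (Ioo 0 L))
    (hG0 : ∀ x ∈ Ioo 0 L, 0 < G x) (hin : ∀ x ∈ Ioo p q, V x < 1) {k : ℝ} (hk : 0 < k)
    (hint : IntegrableOn (fun r => 1 / √(1 - V r)) (Ioo p q)) :
    IntegrableOn (fun r => k * G r / √(1 - V r)) (Ioo p q) := by
  obtain ⟨x1, hx1, hmax1⟩ := isCompact_Icc.exists_isMaxOn (nonempty_Icc.mpr hpq.le)
    (hG.mono hsub2)
  have hsub3 : Ioo p q ⊆ Ioo 0 L := Ioo_subset_Icc_self.trans hsub2
  have hI : IntegrableOn (fun r => (k * G x1) * (1 / √(1 - V r))) (Ioo p q) :=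
    hint.const_mul _
  refine hI.mono' ?_ ?_
  · apply ContinuousOn.aestronglyMeasurable _ measurableSet_Ioo
    refine (continuousOn_const.mul (hG.mono hsub3)).div
      (continuousOn_const.sub (hV.mono hsub3)).sqrt ?_
    intro r hr
    exact (Real.sqrt_pos.mpr (by linarith [hin r hr])).ne'
  · refine (ae_restrict_iff' measurableSet_Ioo).mpr (ae_of_all _ fun r hr => ?_)
    have hs : 0 < √(1 - V r) := Real.sqrt_pos.mpr (by linarith [hin r hr])
    have hG' := hG0 r (hsub3 hr)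
    rw [Real.norm_eq_abs, abs_of_pos (by positivity), mul_one_div]
    have h1 : G r ≤ G x1 := hmax1 (Ioo_subset_Icc_self hr)
    gcongr

/-- Second half of the critical point equations: rotation angles at least `π`. -/
theorem crit_ge {L : ℝ} {f h : ℝ → ℝ} (hf : IsProfile2 L f h) {R : ℝ} (hR : 0 < R)
    {s : ℝ × ℝ → ℝ} (hs : ContinuousOn s {c | 0 < c.1 ∧ 0 < c.2})
    (hsI : ∀ c : ℝ × ℝ, 0 < c.1 → 0 < c.2 → 0 < s c ∧ s c < L)
    (hs1 : ∀ c ∈ Tri R, Veff f h c.1 c.2 (s c) < 1) {c : ℝ × ℝ} (hc : c ∈ Tri R)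
    (hmin : ∀ c' ∈ Tri R, actW L (Veff f h c.1 c.2) (s c) - π * (R - c.1 - c.2) ≤
        actW L (Veff f h c'.1 c'.2) (s c') - π * (R - c'.1 - c'.2))
    {p q : ℝ} (hp : 0 < p) (hps : p < s c) (hsq : s c < q) (hq : q < L)
    (hVp : Veff f h c.1 c.2 p = 1) (hVq : Veff f h c.1 c.2 q = 1)
    (hw : well L (Veff f h c.1 c.2) (s c) = Ioo p q)
    (hin : ∀ x ∈ Ioo p q, Veff f h c.1 c.2 x < 1)
    (hint : IntegrableOn (fun r => 1 / √(1 - Veff f h c.1 c.2 r)) (Ioo p q))
    (hp' : deriv (Veff f h c.1 c.2) p < 0) (hq' : 0 < deriv (Veff f h c.1 c.2) q) :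
    π ≤ 2 * ∫ r in Ioo p q, c.1 / (f r ^ 2 * √(1 - Veff f h c.1 c.2 r)) ∧
    π ≤ 2 * ∫ r in Ioo p q, c.2 / (h r ^ 2 * √(1 - Veff f h c.1 c.2 r)) := by
  obtain ⟨c₁, c₂⟩ := c
  obtain ⟨hc1, hc2, hc3⟩ := hc
  simp only at hc1 hc2 hc3 hmin hVp hVq hw hin hint hp' hq' ⊢
  have hcT : (c₁, c₂) ∈ Tri R := ⟨hc1, hc2, hc3⟩
  have hsc : ContinuousAt s (c₁, c₂) := hs.continuousAt (isOpen_Q.mem_nhds ⟨hc1, hc2⟩)
  have hVc : ContinuousOn (Veff f h c₁ c₂) (Ioo 0 L) := (veff_contDiffOn hf c₁ c₂).continuousOn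
  have hpq : p < q := hps.trans hsq
  have hsub2 : Icc p q ⊆ Ioo 0 L := fun r hr => ⟨by linarith [hr.1], by linarith [hr.2]⟩
  have b1 := left_bound (veff_reg hf c₁ c₂ (hsub2 (left_mem_Icc.mpr hpq.le))).1.self_of_nhds hp' hVp
  have b2 := right_bound (veff_reg hf c₁ c₂ (hsub2 (right_mem_Icc.mpr hpq.le))).1.self_of_nhds
    hq' hVq
  have e1 : (fun r => c₁ / (f r ^ 2 * √(1 - Veff f h c₁ c₂ r))) =
      fun r => c₁ * (1 / f r ^ 2) / √(1 - Veff f h c₁ c₂ r) := by
    funext r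
    rw [div_mul_eq_div_div, mul_one_div]
  have e2 : (fun r => c₂ / (h r ^ 2 * √(1 - Veff f h c₁ c₂ r))) =
      fun r => c₂ * (1 / h r ^ 2) / √(1 - Veff f h c₁ c₂ r) := by
    funext r
    rw [div_mul_eq_div_div, mul_one_div]
  constructor
  · rw [e1]
    have h1 : Tendsto (fun ε : ℝ => (c₁ - ε, c₂)) (𝓝[>] 0) (𝓝 (c₁, c₂)) := by
      have : Continuous fun ε : ℝ => (c₁ - ε, c₂) := by fun_prop
      have h2 := this.tendsto 0
      rw [sub_zero] at h2
      exact tendsto_nhdsWithin_of_tendsto_nhds h2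
    refine abs_ge (V := Veff f h c₁ c₂) (G := fun r => 1 / f r ^ 2) hVc (gf_cont hf) (gf_pos hf)
      hp hps hsq hq hVp hVq hin (by linarith : 0 < -deriv (Veff f h c₁ c₂) p / 2)
      (by linarith : 0 < deriv (Veff f h c₁ c₂) q / 2) b1 b2 hc1 (σ := fun ε => s (c₁ - ε, c₂))
      (hsc.tendsto.comp h1) ?_ (weight_int hpq hsub2 hVc (gf_cont hf) (gf_pos hf) hin hc1 hint)
    filter_upwards [h1 ((isOpen_Tri R).mem_nhds hcT)] with ε hε
    have h2 := hmin (c₁ - ε, c₂) hε
    simp only [actW] at h2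
    rw [hw, veff_sub1] at h2
    linarith
  · rw [e2]
    have h1 : Tendsto (fun ε : ℝ => (c₁, c₂ - ε)) (𝓝[>] 0) (𝓝 (c₁, c₂)) := by
      have : Continuous fun ε : ℝ => (c₁, c₂ - ε) := by fun_prop
      have h2 := this.tendsto 0
      rw [sub_zero] at h2
      exact tendsto_nhdsWithin_of_tendsto_nhds h2
    refine abs_ge (V := Veff f h c₁ c₂) (G := fun r => 1 / h r ^ 2) hVc (gh_cont hf) (gh_pos hf)
      hp hps hsq hq hVp hVq hin (by linarith : 0 < -deriv (Veff f h c₁ c₂) p / 2)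
      (by linarith : 0 < deriv (Veff f h c₁ c₂) q / 2) b1 b2 hc2 (σ := fun ε => s (c₁, c₂ - ε))
      (hsc.tendsto.comp h1) ?_ (weight_int hpq hsub2 hVc (gh_cont hf) (gh_pos hf) hin hc2 hint)
    filter_upwards [h1 ((isOpen_Tri R).mem_nhds hcT)] with ε hε
    have h2 := hmin (c₁, c₂ - ε) hε
    simp only [actW] at h2
    rw [hw, veff_sub2] at h2
    linarith

end Pool.Agent.H206R2.Rot2.TG
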