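import Pool.Agent.H206R2.Rot.TF

/-! Task H: the oscillation in a well with regular endpoints. -/

open Real Set MeasureTheory
open scoped ContDiff Topology

namespace Pool.Agent.H206R2.Rot2.TH

open Pool.Agent.H206R2.Rot.TF

/-- factorisation of `1 - V` on `[p, q]` -/
lemma factor1 {L : ℝ} {V : ℝ → ℝ} {p q : ℝ} (hp : 0 < p) (hpq : p < q) (hq : q < L)
    (hV : ContDiffOn ℝ ∞ V (Ioo 0 L)) (hVp : V p = 1) (hVq : V q = 1)
    (hp' : deriv V p < 0) (hq' : 0 < deriv V q) (hin : ∀ x ∈ Ioo p q, V x < 1) :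
    ∃ k : ℝ → ℝ, Continuous k ∧ (∀ x ∈ Icc p q, 1 - V x = (x - p) * (q - x) * k x) ∧
      ∀ x ∈ Icc p q, 0 < k x := by
  have hVd : ∀ x ∈ Ioo 0 L, DifferentiableAt ℝ V x := fun x hx =>
    (hV.differentiableOn (by simp)).differentiableAt (isOpen_Ioo.mem_nhds hx)
  have hsub : Icc p q ⊆ Ioo 0 L := fun x hx => ⟨by linarith [hx.1], by linarith [hx.2]⟩
  set g : ℝ → ℝ := fun x => 1 - V x with hg
  have hgd : ∀ x ∈ Ioo 0 L, DifferentiableAt ℝ g x := fun x hx => (hVd x hx).const_sub 1
  have hgd' : ∀ x ∈ Ioo 0 L, deriv g x = - deriv V x := by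
    intro x hx
    exact ((hVd x hx).hasDerivAt.const_sub 1).deriv
  have hpm : p ∈ Ioo 0 L := hsub ⟨le_rfl, hpq.le⟩
  have hqm : q ∈ Ioo 0 L := hsub ⟨hpq.le, le_rfl⟩
  have hgp : g p = 0 := by simp [hg, hVp]
  have hgq : g q = 0 := by simp [hg, hVq]
  set g1 := dslope g p with hg1
  have e1 : ∀ x, g x = (x - p) * g1 x := by
    intro x
    have := sub_smul_dslope g p x
    rw [hgp, sub_zero, smul_eq_mul] at this
    exact this.symm
  have hg1c : ∀ x ∈ Ioo 0 L, ContinuousAt g1 x := by
    intro x hx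
    by_cases hxp : x = p
    · subst hxp
      exact continuousAt_dslope_same.2 (hgd x hx)
    · exact (continuousAt_dslope_of_ne hxp).2 (hgd x hx).continuousAt
  have hg1d : DifferentiableAt ℝ g1 q := (differentiableAt_dslope_of_ne hpq.ne').2 (hgd q hqm)
  have hg1q : g1 q = 0 := by
    have := e1 q
    rw [hgq] at this
    rcases mul_eq_zero.1 this.symm with h | h
    · linarith
    · exact h
  set g2 := dslope g1 q with hg2
  have e2 : ∀ x, g1 x = (x - q) * g2 x := by
    intro x
    have := sub_smul_dslope g1 q x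
    rw [hg1q, sub_zero, smul_eq_mul] at this
    exact this.symm
  have hg2c : ∀ x ∈ Ioo 0 L, ContinuousAt g2 x := by
    intro x hx
    by_cases hxq : x = q
    · subst hxq
      exact continuousAt_dslope_same.2 hg1d
    · exact (continuousAt_dslope_of_ne hxq).2 (hg1c x hx)
  have hk0 : ContinuousOn (fun x => -g2 x) (Icc p q) := fun x hx =>
    (hg2c x (hsub hx)).neg.continuousWithinAt
  set c : ℝ → ℝ := fun x => max p (min q x) with hc
  have hcc : Continuous c := by fun_prop
  have hcI : ∀ x, c x ∈ Icc p q := by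
    intro x
    simp only [hc]
    exact ⟨le_max_left _ _, max_le hpq.le (min_le_left _ _)⟩
  have hcx : ∀ x ∈ Icc p q, c x = x := by
    intro x hx
    simp only [hc]
    rw [min_eq_right hx.2, max_eq_right hx.1]
  refine ⟨fun x => -g2 (c x), hk0.comp_continuous hcc hcI, ?_, ?_⟩
  · intro x hx
    have h1 : 1 - V x = g x := rfl
    simp only [hcx x hx]
    rw [h1, e1 x, e2 x]
    ring
  · intro x hx
    simp only [hcx x hx]
    rcases hx.1.lt_or_eq with h | h
    · rcases hx.2.lt_or_eq with h' | h'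
      · have h1 : 0 < g x := by
          have := hin x ⟨h, h'⟩
          simp only [hg]
          linarith
        rw [e1, e2] at h1
        have h2 : 0 < (x - p) * (q - x) := mul_pos (by linarith) (by linarith)
        by_contra hcon
        push Not at hcon
        have h3 : (x - p) * (q - x) * (-g2 x) ≤ 0 :=
          mul_nonpos_of_nonneg_of_nonpos h2.le hcon
        nlinarith
      · subst h'
        -- at the right end
        have h1 : g2 x = deriv g1 x := dslope_same g1 x
        have h2 : HasDerivAt g (1 * g1 x + (x - p) * deriv g1 x) x := by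
          have h3 : HasDerivAt (fun y => (y - p) * g1 y) (1 * g1 x + (x - p) * deriv g1 x) x :=
            ((hasDerivAt_id x).sub_const p).mul hg1d.hasDerivAt
          have h4 : g = fun y => (y - p) * g1 y := funext e1
          rw [h4]
          exact h3
        have h5 := h2.deriv
        rw [hgd' x hqm, hg1q, ← h1] at h5
        have h7 : (x - p) * g2 x < 0 := by linarith
        have h8 : 0 < x - p := by linarith
        by_contra hcon
        push Not at hcon
        nlinarith
    · -- left end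
      have h1 : g1 p = deriv g p := dslope_same g p
      rw [hgd' p hpm, e2 p] at h1
      rw [← h]
      have h2 : 0 < - deriv V p := by linarith
      rw [← h1] at h2
      by_contra hcon
      push Not at hcon
      nlinarith

/-- the change of variables `x = m + A sin φ` -/
lemma cov1 {V k : ℝ → ℝ} {p q : ℝ} (hpq : p < q) (hkc : Continuous k)
    (hk : ∀ x ∈ Icc p q, 1 - V x = (x - p) * (q - x) * k x) (hkpos : ∀ x ∈ Icc p q, 0 < k x)
    {G : ℝ → ℝ} (hG : Continuous fun φ : ℝ => G ((p + q) / 2 + (q - p) / 2 * sin φ)) :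
    2 * ∫ x in Ioo p q, G x / √(1 - V x) =
      ∫ φ in (0 : ℝ)..(2 * π), G ((p + q) / 2 + (q - p) / 2 * sin φ) /
        √(k ((p + q) / 2 + (q - p) / 2 * sin φ)) := by
  set m := (p + q) / 2 with hm
  set A := (q - p) / 2 with hA
  have hA0 : 0 < A := by rw [hA]; linarith
  set X : ℝ → ℝ := fun φ => m + A * sin φ with hX
  have hXI : ∀ φ, X φ ∈ Icc p q := by
    intro φ
    have h1 := Real.neg_one_le_sin φ
    have h2 := Real.sin_le_one φ
    simp only [hX]
    constructor <;> nlinarith
  have hXc : Continuous X := by fun_prop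
  set H : ℝ → ℝ := fun φ => G (X φ) / √(k (X φ)) with hH
  have hHc : Continuous H := by
    refine hG.div (Real.continuous_sqrt.comp (hkc.comp hXc)) ?_
    intro φ
    exact (Real.sqrt_pos.2 (hkpos _ (hXI φ))).ne'
  have himg : X '' Icc (-(π / 2)) (π / 2) = Icc p q := by
    have h1 := Real.bijOn_sin.image_eq
    have h2 : X '' Icc (-(π / 2)) (π / 2) = (fun y => m + A * y) '' (sin '' Icc (-(π / 2)) (π / 2)) := by
      rw [image_image]
    rw [h2, h1]
    ext x
    simp only [mem_image, mem_Icc]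
    constructor
    · rintro ⟨y, ⟨hy1, hy2⟩, rfl⟩
      constructor <;> nlinarith
    · rintro ⟨hx1, hx2⟩
      refine ⟨(x - m) / A, ⟨?_, ?_⟩, ?_⟩
      · rw [le_div_iff₀ hA0]; linarith
      · rw [div_le_iff₀ hA0]; linarith
      · field_simp; ring
  have hinj : InjOn X (Icc (-(π / 2)) (π / 2)) := by
    intro x hx y hy hxy
    apply Real.injOn_sin hx hy
    simp only [hX] at hxy
    exact mul_left_cancel₀ hA0.ne' (add_left_cancel hxy)
  have hder : ∀ φ ∈ Icc (-(π / 2)) (π / 2),
      HasDerivWithinAt X (A * cos φ) (Icc (-(π / 2)) (π / 2)) φ := by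
    intro φ _
    exact (((Real.hasDerivAt_sin φ).const_mul A).const_add m).hasDerivWithinAt
  have h1 : ∫ x in Ioo p q, G x / √(1 - V x) = ∫ φ in (-(π / 2))..(π / 2), H φ := by
    rw [← integral_Icc_eq_integral_Ioo, ← himg,
      integral_image_eq_integral_abs_deriv_smul measurableSet_Icc hder hinj,
      integral_Icc_eq_integral_Ioo, intervalIntegral.integral_of_le (by linarith [Real.pi_pos]),
      ← integral_Ioc_eq_integral_Ioo.symm]
    refine setIntegral_congr_fun measurableSet_Ioo ?_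
    intro φ hφ
    have hcos : 0 < cos φ := Real.cos_pos_of_mem_Ioo hφ
    have hAc : 0 < A * cos φ := mul_pos hA0 hcos
    simp only [smul_eq_mul, hH]
    have h2 : 1 - V (X φ) = (A * cos φ) ^ 2 * k (X φ) := by
      rw [hk _ (hXI φ)]
      congr 1
      simp only [hX]
      have := Real.sin_sq_add_cos_sq φ
      have h3 : cos φ ^ 2 = 1 - sin φ ^ 2 := by linarith
      rw [mul_pow, h3]
      have e1 : m - p = A := by rw [hm, hA]; ring
      have e2 : q - m = A := by rw [hm, hA]; ring
      have e3 : m + A * sin φ - p = A + A * sin φ := by rw [← e1]; ring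
      have e4 : q - (m + A * sin φ) = A - A * sin φ := by rw [← e2]; ring
      rw [e3, e4]
      ring
    rw [h2, Real.sqrt_mul (sq_nonneg _), Real.sqrt_sq hAc.le, abs_of_pos hAc]
    have h3 : 0 < √(k (X φ)) := Real.sqrt_pos.2 (hkpos _ (hXI φ))
    field_simp
  have hsym : ∀ φ, H (π - φ) = H φ := by
    intro φ
    simp only [hH, hX, Real.sin_pi_sub]
  have hHper : Function.Periodic H (2 * π) := by
    intro φ
    simp only [hH, hX, Real.sin_add_two_pi]
  have h4 : ∫ φ in (0 : ℝ)..(2 * π), H φ = ∫ φ in (-(π / 2))..(-(π / 2) + 2 * π), H φ := by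
    have := hHper.intervalIntegral_add_eq 0 (-(π / 2))
    rw [zero_add] at this
    exact this
  have h5 : ∫ φ in (π / 2)..(-(π / 2) + 2 * π), H φ = ∫ φ in (-(π / 2))..(π / 2), H φ := by
    have := intervalIntegral.integral_comp_sub_left (a := -(π / 2)) (b := π / 2) H π
    simp_rw [hsym] at this
    rw [this]
    congr 1
    · ring
    · ring
  rw [h1, h4, ← intervalIntegral.integral_add_adjacent_intervals (a := -(π / 2)) (b := π / 2)
    (c := -(π / 2) + 2 * π) (hHc.intervalIntegrable _ _) (hHc.intervalIntegrable _ _), h5]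
  ring

/-- The periodic oscillation `r'² = 1 - V(r)` in a well with regular endpoints. -/
theorem oscillator {L : ℝ} {V : ℝ → ℝ} {p q : ℝ} (hp : 0 < p) (hpq : p < q) (hq : q < L)
    (hV : ContDiffOn ℝ ∞ V (Ioo 0 L)) (hVp : V p = 1) (hVq : V q = 1)
    (hp' : deriv V p < 0) (hq' : 0 < deriv V q) (hin : ∀ x ∈ Ioo p q, V x < 1) :
    ∃ (r : ℝ → ℝ) (T : ℝ), 0 < T ∧ T = 2 * ∫ x in Ioo p q, 1 / √(1 - V x) ∧ ContDiff ℝ 2 r ∧
      (∀ t, p ≤ r t ∧ r t ≤ q) ∧ (∀ t, deriv (deriv r) t = -deriv V (r t) / 2) ∧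
      (∀ t, deriv r t ^ 2 = 1 - V (r t)) ∧ (∀ t, r (t + T) = r t) ∧
      (∀ g : ℝ → ℝ, ContinuousOn g (Icc p q) →
        ∫ t in (0 : ℝ)..T, g (r t) = 2 * ∫ x in Ioo p q, g x / √(1 - V x)) := by
  obtain ⟨k, hkc, hk, hkpos⟩ := factor1 hp hpq hq hV hVp hVq hp' hq' hin
  have hsub : Icc p q ⊆ Ioo 0 L := fun x hx => ⟨by linarith [hx.1], by linarith [hx.2]⟩
  have hVd : ∀ x ∈ Ioo 0 L, DifferentiableAt ℝ V x := fun x hx =>
    (hV.differentiableOn (by simp)).differentiableAt (isOpen_Ioo.mem_nhds hx)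
  have hV'c : ContinuousOn (deriv V) (Ioo 0 L) :=
    hV.continuousOn_deriv_of_isOpen isOpen_Ioo (by simp)
  set X : ℝ → ℝ := fun φ => (p + q) / 2 + (q - p) / 2 * sin φ with hX
  have hXI : ∀ φ, X φ ∈ Icc p q := by
    intro φ
    have h1 := Real.neg_one_le_sin φ
    have h2 := Real.sin_le_one φ
    simp only [hX]
    constructor <;> nlinarith
  have hXc : Continuous X := by fun_prop
  have hkX : ∀ φ, 0 < √(k (X φ)) := fun φ => Real.sqrt_pos.2 (hkpos _ (hXI φ))
  set W : ℝ → ℝ := fun φ => 1 / √(k (X φ)) with hWdef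
  have hWc : Continuous W := by
    refine continuous_const.div (Real.continuous_sqrt.comp (hkc.comp hXc)) ?_
    intro φ
    exact (hkX φ).ne'
  have hWpos : ∀ φ, 0 < W φ := fun φ => div_pos one_pos (hkX φ)
  have hWper : ∀ φ, W (φ + 2 * π) = W φ := by
    intro φ
    simp only [hWdef, hX, Real.sin_add_two_pi]
  obtain ⟨v₀, hv₀, hWv⟩ : ∃ v₀ : ℝ, 0 < v₀ ∧ ∀ φ, v₀ ≤ W φ := by
    have hcon : ContinuousOn (fun x => 1 / √(k x)) (Icc p q) := by
      refine ContinuousOn.div continuousOn_const (Real.continuous_sqrt.comp hkc).continuousOn ?_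
      intro x hx
      exact (Real.sqrt_pos.2 (hkpos x hx)).ne'
    obtain ⟨x₀, hx₀, hmin⟩ := isCompact_Icc.exists_isMinOn (nonempty_Icc.2 hpq.le) hcon
    refine ⟨1 / √(k x₀), div_pos one_pos (Real.sqrt_pos.2 (hkpos x₀ hx₀)), ?_⟩
    intro φ
    exact hmin (hXI φ)
  obtain ⟨τ, ϕ, hτd, hτ0, hϕτ, hτϕ, hϕd, hτs, hϕs⟩ := clock hWc hv₀ hWv hWper
  set T := ∫ y in (0 : ℝ)..(2 * π), W y with hT
  have hTpos : 0 < T := by
    have h1 : ∫ _ in (0 : ℝ)..(2 * π), v₀ ≤ ∫ y in (0 : ℝ)..(2 * π), W y :=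
      intervalIntegral.integral_mono_on (by positivity) (by simp) (hWc.intervalIntegrable _ _)
        (fun y _ => hWv y)
    rw [intervalIntegral.integral_const, smul_eq_mul, sub_zero] at h1
    have : 0 < 2 * π * v₀ := by positivity
    linarith
  have hϕc : Continuous ϕ := continuous_iff_continuousAt.2 fun t => (hϕd t).continuousAt
  -- the radial function
  set r : ℝ → ℝ := fun t => X (ϕ t) with hr
  set A := (q - p) / 2 with hA
  have hA0 : 0 < A := by rw [hA]; linarith
  set pt : ℝ → ℝ := fun t => A * cos (ϕ t) * (W (ϕ t))⁻¹ with hpt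
  have hrc : Continuous r := hXc.comp hϕc
  have hptc : Continuous pt := by
    refine ((continuous_const.mul (Real.continuous_cos.comp hϕc))).mul ?_
    exact (hWc.comp hϕc).inv₀ (fun t => (hWpos _).ne')
  have hrd : ∀ t, HasDerivAt r (pt t) t := by
    intro t
    have h1 := (((Real.hasDerivAt_sin (ϕ t)).comp t (hϕd t)).const_mul A).const_add ((p + q) / 2)
    have h2 : A * (cos (ϕ t) * (W (ϕ t))⁻¹) = pt t := by simp only [hpt]; ring
    rw [h2] at h1
    exact h1
  have hrI : ∀ t, r t ∈ Icc p q := fun t => hXI (ϕ t)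
  have hrL : ∀ t, r t ∈ Ioo 0 L := fun t => hsub (hrI t)
  have hE : ∀ t, pt t ^ 2 = 1 - V (r t) := by
    intro t
    have h1 : 1 - V (X (ϕ t)) = (A * cos (ϕ t)) ^ 2 * k (X (ϕ t)) := by
      rw [hk _ (hXI _)]
      congr 1
      simp only [hX, hA]
      have := Real.sin_sq_add_cos_sq (ϕ t)
      have h3 : cos (ϕ t) ^ 2 = 1 - sin (ϕ t) ^ 2 := by linarith
      rw [mul_pow, h3]
      ring
    have h2 : √(k (X (ϕ t))) ^ 2 = k (X (ϕ t)) := Real.sq_sqrt (hkpos _ (hXI _)).le
    have h4 : pt t = A * cos (ϕ t) * √(k (X (ϕ t))) := by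
      simp only [hpt, hWdef]
      rw [one_div, inv_inv]
    rw [h4, mul_pow, h2]
    exact h1.symm
  set K : ℝ → ℝ := fun t => -deriv V (r t) / 2 with hK
  have hKc : Continuous K :=
    ((hV'c.comp_continuous hrc hrL).neg).div_const 2
  have hEd : ∀ t, HasDerivAt (fun t => 1 - V (r t)) (-(deriv V (r t) * pt t)) t := by
    intro t
    exact ((hVd _ (hrL t)).hasDerivAt.comp t (hrd t)).const_sub 1
  have hptd0 : ∀ t, pt t ≠ 0 → HasDerivAt pt (K t) t := by
    intro t ht
    have h1 := hasDerivAt_root hptc hE (hEd t) ht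
    have h2 : -(deriv V (r t) * pt t) / (2 * pt t) = K t := by
      simp only [hK]
      field_simp
    rw [h2] at h1
    exact h1
  have hcount : {t | pt t = 0}.Countable := by
    have h1 : {t | pt t = 0} ⊆ ϕ ⁻¹' (range fun n : ℤ => (2 * (n : ℝ) + 1) * π / 2) := by
      intro t ht
      have ht' : A * cos (ϕ t) * (W (ϕ t))⁻¹ = 0 := ht
      have h2 : cos (ϕ t) = 0 := by
        rcases mul_eq_zero.1 ht' with h | h
        · rcases mul_eq_zero.1 h with h | h
          · exact absurd h hA0.ne'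
          · exact h
        · exact absurd h (inv_ne_zero (hWpos _).ne')
      obtain ⟨n, hn⟩ := Real.cos_eq_zero_iff.1 h2
      exact ⟨n, hn.symm⟩
    refine Set.Countable.mono h1 ?_
    refine (countable_range _).preimage_of_injOn ?_
    intro x _ y _ hxy
    rw [← hτϕ x, ← hτϕ y, hxy]
  have hFTC : ∀ t, ∫ s in (0 : ℝ)..t, K s = pt t - pt 0 := by
    intro t
    refine integral_eq_of_hasDerivAt_off_countable pt K hcount hptc.continuousOn ?_
      (hKc.intervalIntegrable _ _)
    intro x hx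
    exact hptd0 x hx.2
  have hptd : ∀ t, HasDerivAt pt (K t) t := by
    intro t
    have h1 : HasDerivAt (fun t => pt 0 + ∫ s in (0 : ℝ)..t, K s) (K t) t :=
      (intervalIntegral.integral_hasDerivAt_right (hKc.intervalIntegrable _ _)
        (hKc.stronglyMeasurableAtFilter _ _) hKc.continuousAt).const_add _
    refine h1.congr_of_eventuallyEq (Filter.Eventually.of_forall fun s => ?_)
    show pt s = pt 0 + ∫ s in (0 : ℝ)..s, K s
    rw [hFTC]
    ring
  have hr2 : ContDiff ℝ 2 r := contDiff_two_of hrd hptd hKc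
  have er : deriv r = pt := funext fun t => (hrd t).deriv
  have ept : deriv pt = K := funext fun t => (hptd t).deriv
  -- periods
  have hτP : τ (2 * π) = T := by
    have := hτs 0
    rw [zero_add, hτ0, zero_add] at this
    exact this
  refine ⟨r, T, hTpos, ?_, hr2, ?_, ?_, ?_, ?_, ?_⟩
  · exact (cov1 hpq hkc hk hkpos (G := fun _ => 1) continuous_const).symm
  · intro t
    exact hrI t
  · intro t
    rw [er, ept]
  · intro t
    rw [er, hE]
  · intro t
    simp only [hr, hϕs, hX, Real.sin_add_two_pi]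
  · intro g hg
    have hgX : Continuous fun φ : ℝ => g (X φ) := hg.comp_continuous hXc hXI
    have hgr : Continuous fun t : ℝ => g (r t) := hg.comp_continuous hrc hrI
    have h2 : ∫ φ in (0 : ℝ)..(2 * π), ((fun t => g (r t)) ∘ τ) φ * W φ =
        ∫ s in τ 0..τ (2 * π), g (r s) :=
      intervalIntegral.integral_comp_mul_deriv (fun x _ => hτd x) hWc.continuousOn hgr
    rw [hτ0, hτP] at h2
    rw [← h2, cov1 hpq hkc hk hkpos (G := g) hgX]
    refine intervalIntegral.integral_congr ?_
    intro φ _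
    simp only [Function.comp_apply, hr, hϕτ, hWdef]
    ring

end Pool.Agent.H206R2.Rot2.TH
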