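import Pool.Agent.H206R2.Rot2.Defs
import Pool.Agent.H206R2.Rot.TE

/-!
# The volume bound for `O(k) × O(m)`-invariant metrics (task I)
-/

open Real Set MeasureTheory
open scoped ContDiff

namespace Pool.Agent.H206R2.Rot2.TI

/-! ### Constants -/

/-- `∫ sin^p cos^q` over the quarter period -/
noncomputable def SC (p q : ℕ) : ℝ := ∫ t in (0 : ℝ)..π / 2, Real.sin t ^ p * Real.cos t ^ q

lemma SC_parts (p q : ℕ) : ((p : ℝ) + 1) * SC p (q + 2) = ((q : ℝ) + 1) * SC (p + 2) q := by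
  have hd : ∀ t : ℝ, HasDerivAt (fun t : ℝ => Real.sin t ^ (p + 1) * Real.cos t ^ (q + 1))
      (((p : ℝ) + 1) * (Real.sin t ^ p * Real.cos t ^ (q + 2)) -
        ((q : ℝ) + 1) * (Real.sin t ^ (p + 2) * Real.cos t ^ q)) t := by
    intro t
    have h1 := (Real.hasDerivAt_sin t).pow (p + 1)
    have h2 := (Real.hasDerivAt_cos t).pow (q + 1)
    refine HasDerivAt.congr_deriv (h1.mul h2) ?_
    simp only [Pi.pow_apply, add_tsub_cancel_right]
    push_cast
    ring
  have h := intervalIntegral.integral_eq_sub_of_hasDerivAt (a := 0) (b := π / 2) (fun t _ => hd t)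
    (Continuous.intervalIntegrable (by fun_prop) _ _)
  rw [intervalIntegral.integral_sub
    (Continuous.intervalIntegrable (by fun_prop) _ _) (Continuous.intervalIntegrable (by fun_prop) _ _),
    intervalIntegral.integral_const_mul, intervalIntegral.integral_const_mul] at h
  simp only [Real.sin_pi_div_two, Real.cos_pi_div_two, Real.sin_zero, Real.cos_zero] at h
  simp at h
  unfold SC
  linarith

lemma SC_add (p q : ℕ) : SC p (q + 2) + SC (p + 2) q = SC p q := by
  unfold SC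
  rw [← intervalIntegral.integral_add
    (Continuous.intervalIntegrable (by fun_prop) _ _) (Continuous.intervalIntegrable (by fun_prop) _ _)]
  apply intervalIntegral.integral_congr
  intro t _
  simp only
  have := Real.sin_sq_add_cos_sq t
  calc Real.sin t ^ p * Real.cos t ^ (q + 2) + Real.sin t ^ (p + 2) * Real.cos t ^ q =
      Real.sin t ^ p * Real.cos t ^ q * (Real.sin t ^ 2 + Real.cos t ^ 2) := by ring
    _ = _ := by rw [this, mul_one]

lemma SC_right (p q : ℕ) : ((p : ℝ) + q + 2) * SC p (q + 2) = ((q : ℝ) + 1) * SC p q := by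
  have h1 := SC_parts p q
  have h2 := SC_add p q
  rw [← h2]
  linarith

lemma SC_left (p q : ℕ) : ((p : ℝ) + q + 2) * SC (p + 2) q = ((p : ℝ) + 1) * SC p q := by
  have h1 := SC_parts p q
  have h2 := SC_add p q
  rw [← h2]
  linarith

lemma SC_one (q : ℕ) : SC 1 q = 1 / ((q : ℝ) + 1) := by
  have hd : ∀ t : ℝ, HasDerivAt (fun t : ℝ => -(Real.cos t ^ (q + 1)) / ((q : ℝ) + 1))
      (Real.sin t ^ 1 * Real.cos t ^ q) t := by
    intro t
    have h2 := (((Real.hasDerivAt_cos t).pow (q + 1)).neg).div_const ((q : ℝ) + 1)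
    refine HasDerivAt.congr_deriv h2 ?_
    simp only [add_tsub_cancel_right]
    push_cast
    have : (q : ℝ) + 1 ≠ 0 := by positivity
    field_simp
  have h := intervalIntegral.integral_eq_sub_of_hasDerivAt (a := 0) (b := π / 2) (fun t _ => hd t)
    (Continuous.intervalIntegrable (by fun_prop) _ _)
  unfold SC
  rw [h]
  simp
  ring

lemma SC_zero_pair (b : ℕ) : (∫ x in (0 : ℝ)..(π / 2), Real.sin x ^ b) * SC 0 (b + 1) =
    π / (2 * ((b : ℝ) + 1)) := by
  have h1 := Rot.TE.VW b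
  have h2 := EulerSine.integral_cos_pow_eq (b + 1)
  have h3 : SC 0 (b + 1) = ∫ x in (0 : ℝ)..π / 2, Real.cos x ^ (b + 1) := by
    unfold SC
    simp
  rw [h3, h2]
  have : (∫ x in (0 : ℝ)..(π / 2), Real.sin x ^ b) * (1 / 2 * ∫ x in (0 : ℝ)..π, Real.sin x ^ (b + 1)) =
      1 / 2 * ((∫ x in (0 : ℝ)..π, Real.sin x ^ (b + 1)) * ∫ x in (0 : ℝ)..(π / 2), Real.sin x ^ b) := by ring
  rw [this, h1]
  field_simp

/-- the Beta identity -/
lemma beta_id (a b : ℕ) : 2 * ((1 / ((b : ℝ) + 2)) * (∫ x in (0 : ℝ)..(π / 2), Real.sin x ^ b) *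
    SC a (b + 3)) * SC (a + 1) (b + 1) = π * (a.factorial : ℝ) * b.factorial / ((a + b + 3).factorial : ℝ) := by
  set W := ∫ x in (0 : ℝ)..(π / 2), Real.sin x ^ b with hW
  induction a with
  | zero =>
    have h1 := SC_right 0 (b + 1)
    rw [show b + 1 + 2 = b + 3 by ring] at h1
    have h2 : W * SC 0 (b + 1) = π / (2 * ((b : ℝ) + 1)) := SC_zero_pair b
    have h3 := SC_one (b + 1)
    have h4 : ((0 + b + 3).factorial : ℝ) = ((b : ℝ) + 3) * ((b : ℝ) + 2) * ((b : ℝ) + 1) * b.factorial := by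
      rw [show 0 + b + 3 = b + 1 + 1 + 1 by ring, Nat.factorial_succ, Nat.factorial_succ, Nat.factorial_succ]
      push_cast
      ring
    have hf : (b.factorial : ℝ) ≠ 0 := by positivity
    rw [zero_add, h3, h4]
    push_cast at h1 ⊢
    have e1 : SC 0 (b + 3) = ((b : ℝ) + 2) / ((b : ℝ) + 3) * SC 0 (b + 1) := by
      have : (b : ℝ) + 3 ≠ 0 := by positivity
      field_simp
      linarith
    rw [e1]
    have e2 : 2 * (1 / ((b : ℝ) + 2) * W * (((b : ℝ) + 2) / ((b : ℝ) + 3) * SC 0 (b + 1))) * (1 / ((b : ℝ) + 1 + 1)) =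
        2 / (((b : ℝ) + 2) * ((b : ℝ) + 3)) * (W * SC 0 (b + 1)) := by
      field_simp
      ring
    rw [e2, h2]
    simp only [Nat.factorial_zero, Nat.cast_one]
    field_simp
  | succ a ih =>
    -- SC (a+1) (b+3) in terms of SC (a+1) (b+1); SC (a+2) (b+1) in terms of SC a (b+1)
    have h1 := SC_right (a + 1) (b + 1)
    have h2 := SC_left a (b + 1)
    have h3 := SC_right a (b + 1)
    rw [show b + 1 + 2 = b + 3 by ring] at h1 h3
    rw [show a + 1 + 1 = a + 2 by ring]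
    push_cast at h1 h2 h3
    have e1 : SC (a + 1) (b + 3) = ((b : ℝ) + 2) / ((a : ℝ) + b + 4) * SC (a + 1) (b + 1) := by
      have : (a : ℝ) + b + 4 ≠ 0 := by positivity
      field_simp
      linarith
    have e2 : SC (a + 2) (b + 1) = ((a : ℝ) + 1) / ((b : ℝ) + 2) * SC a (b + 3) := by
      have h4 : ((a : ℝ) + b + 3) * SC (a + 2) (b + 1) = ((a : ℝ) + 1) * SC a (b + 1) := by linarith
      have h5 : ((a : ℝ) + b + 3) * SC a (b + 3) = ((b : ℝ) + 2) * SC a (b + 1) := by linarith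
      have h6 : (a : ℝ) + b + 3 ≠ 0 := by positivity
      have h7 : (b : ℝ) + 2 ≠ 0 := by positivity
      have h8 : SC a (b + 3) = ((b : ℝ) + 2) * SC a (b + 1) / ((a : ℝ) + b + 3) := by
        field_simp; linarith
      have h9 : SC (a + 2) (b + 1) = ((a : ℝ) + 1) * SC a (b + 1) / ((a : ℝ) + b + 3) := by
        field_simp; linarith
      rw [h8, h9]
      field_simp
    have h4 : ((a + 1 + b + 3).factorial : ℝ) = ((a : ℝ) + b + 4) * ((a + b + 3).factorial : ℝ) := by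
      rw [show a + 1 + b + 3 = (a + b + 3) + 1 by ring, Nat.factorial_succ]
      push_cast
      ring
    have h5 : ((a + 1).factorial : ℝ) = ((a : ℝ) + 1) * a.factorial := by
      rw [Nat.factorial_succ]; push_cast; ring
    have hf : ((a + b + 3).factorial : ℝ) ≠ 0 := by positivity
    rw [e1, e2, h4, h5]
    have e3 : 2 * (1 / ((b : ℝ) + 2) * W * (((b : ℝ) + 2) / ((a : ℝ) + b + 4) * SC (a + 1) (b + 1))) *
        (((a : ℝ) + 1) / ((b : ℝ) + 2) * SC a (b + 3)) =
        ((a : ℝ) + 1) / ((a : ℝ) + b + 4) * (2 * (1 / ((b : ℝ) + 2) * W * SC a (b + 3)) * SC (a + 1) (b + 1)) := by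
      field_simp
    rw [e3, ih]
    field_simp

/-- the Beta integral with natural exponents -/
lemma beta_nat (R : ℝ) (a : ℕ) : ∀ c : ℕ, ∫ x in (0 : ℝ)..R, x ^ a * (R - x) ^ c =
    (a.factorial : ℝ) * c.factorial / ((a + c + 1).factorial : ℝ) * R ^ (a + c + 1) := by
  induction a with
  | zero =>
    intro c
    have h : ∫ x in (0 : ℝ)..R, x ^ 0 * (R - x) ^ c = ∫ x in (0 : ℝ)..R, (R - x) ^ c := by
      simp
    rw [h, intervalIntegral.integral_comp_sub_left (fun x => x ^ c) R, integral_pow]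
    rw [show (0 + c + 1) = c + 1 by ring, Nat.factorial_succ]
    have hf : (c.factorial : ℝ) ≠ 0 := by positivity
    simp
    field_simp
  | succ a ih =>
    intro c
    have hd : ∀ x : ℝ, HasDerivAt (fun x : ℝ => x ^ (a + 1) * (R - x) ^ (c + 1))
        (((a : ℝ) + 1) * (x ^ a * (R - x) ^ (c + 1)) - ((c : ℝ) + 1) * (x ^ (a + 1) * (R - x) ^ c)) x := by
      intro x
      have h1 := hasDerivAt_pow (a + 1) x
      have h2 := (((hasDerivAt_id x).const_sub R).pow (c + 1))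
      refine HasDerivAt.congr_deriv (h1.mul h2) ?_
      simp only [add_tsub_cancel_right, id]
      push_cast
      ring
    have h := intervalIntegral.integral_eq_sub_of_hasDerivAt (a := 0) (b := R) (fun t _ => hd t)
      (Continuous.intervalIntegrable (by fun_prop) _ _)
    rw [intervalIntegral.integral_sub
      (Continuous.intervalIntegrable (by fun_prop) _ _) (Continuous.intervalIntegrable (by fun_prop) _ _),
      intervalIntegral.integral_const_mul, intervalIntegral.integral_const_mul, ih (c + 1)] at h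
    have e0 : R ^ (a + 1) * (R - R) ^ (c + 1) - 0 ^ (a + 1) * (R - 0) ^ (c + 1) = 0 := by simp
    rw [e0] at h
    have e1 : ∫ x in (0 : ℝ)..R, x ^ (a + 1) * (R - x) ^ c = ((a : ℝ) + 1) / ((c : ℝ) + 1) *
        ((a.factorial : ℝ) * (c + 1).factorial / ((a + (c + 1) + 1).factorial : ℝ) * R ^ (a + (c + 1) + 1)) := by
      have : (c : ℝ) + 1 ≠ 0 := by positivity
      field_simp
      field_simp at h
      linarith
    rw [e1, show a + 1 + c + 1 = a + (c + 1) + 1 by ring, Nat.factorial_succ a, Nat.factorial_succ c]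
    have hf : ((a + (c + 1) + 1).factorial : ℝ) ≠ 0 := by positivity
    push_cast
    field_simp

/-- inner lower integral -/
lemma lower_inner (ρ : ℝ) (b : ℕ) : ∫ y in (0 : ℝ)..ρ, (ρ - y) * y ^ b =
    ρ ^ (b + 2) / (((b : ℝ) + 1) * ((b : ℝ) + 2)) := by
  have h := beta_nat ρ b 1
  have e : ∫ y in (0 : ℝ)..ρ, (ρ - y) * y ^ b = ∫ x in (0 : ℝ)..ρ, x ^ b * (ρ - x) ^ 1 := by
    apply intervalIntegral.integral_congr
    intro x _
    simp only
    ring
  rw [e, h, Nat.factorial_succ (b + 1), Nat.factorial_succ b]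
  have hf : (b.factorial : ℝ) ≠ 0 := by positivity
  simp
  field_simp
  ring


/-! ### One-variable substitutions -/

lemma cut_Ioi {g : ℝ → ℝ} (h : ∀ x, 1 ≤ x → g x = 0) :
    ∫ x in Ioi (0 : ℝ), g x = ∫ x in (0 : ℝ)..1, g x := by
  rw [intervalIntegral.integral_of_le zero_le_one]
  apply setIntegral_eq_of_subset_of_forall_sdiff_eq_zero measurableSet_Ioi Ioc_subset_Ioi_self
  intro x hx
  apply h
  by_contra hlt
  exact hx.2 ⟨hx.1, (not_le.1 hlt).le⟩

lemma sqrt_one_sub_zero {x : ℝ} (hx : 1 ≤ x) : √(1 - x ^ 2) = 0 :=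
  Real.sqrt_eq_zero_of_nonpos (by nlinarith)

lemma inner_int {H : ℝ} (hH : 0 < H) (A : ℝ) (b : ℕ) :
    ∫ y in Ioi (0 : ℝ), √(1 - (A + (y / H) ^ 2)) * y ^ b =
      H ^ (b + 1) * √(1 - A) ^ (b + 2) * ∫ x in (0 : ℝ)..1, √(1 - x ^ 2) * x ^ b := by
  rcases le_or_gt 1 A with hA | hA
  · have h0 : √(1 - A) = 0 := Real.sqrt_eq_zero_of_nonpos (by linarith)
    have h1 : ∀ y : ℝ, √(1 - (A + (y / H) ^ 2)) * y ^ b = 0 := by
      intro y
      rw [Real.sqrt_eq_zero_of_nonpos (by nlinarith [sq_nonneg (y / H)]), zero_mul]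
    simp_rw [h1, h0]
    simp
  · set s := √(1 - A) with hs
    have hs0 : 0 < s := Real.sqrt_pos.2 (by linarith)
    have hs2 : s ^ 2 = 1 - A := Real.sq_sqrt (by linarith)
    have hκ : 0 < H * s := by positivity
    have h := integral_comp_mul_left_Ioi' (fun y => √(1 - (A + (y / H) ^ 2)) * y ^ b) 0 hκ
    have e1 : ∀ t : ℝ, √(1 - (A + ((H * s * t) / H) ^ 2)) * (H * s * t) ^ b =
        (H * s) ^ b * s * (√(1 - t ^ 2) * t ^ b) := by
      intro t
      have e2 : 1 - (A + ((H * s * t) / H) ^ 2) = s ^ 2 * (1 - t ^ 2) := by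
        have : (H * s * t) / H = s * t := by field_simp
        rw [this, mul_pow, hs2]; ring
      rw [e2, Real.sqrt_mul (sq_nonneg s), Real.sqrt_sq hs0.le, mul_pow]
      ring
    simp only [e1] at h
    rw [integral_const_mul, mul_zero, smul_eq_mul,
      cut_Ioi (g := fun t => √(1 - t ^ 2) * t ^ b) (fun x hx => by
        rw [sqrt_one_sub_zero hx, zero_mul])] at h
    rw [← h]
    ring

lemma outer_int {F : ℝ} (hF : 0 < F) (a b : ℕ) :
    ∫ x in Ioi (0 : ℝ), x ^ a * √(1 - (x / F) ^ 2) ^ (b + 2) = F ^ (a + 1) * SC a (b + 3) := by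
  have h := integral_comp_mul_left_Ioi' (fun x => x ^ a * √(1 - (x / F) ^ 2) ^ (b + 2)) 0 hF
  have e1 : ∀ t : ℝ, (F * t) ^ a * √(1 - ((F * t) / F) ^ 2) ^ (b + 2) =
      F ^ a * (t ^ a * √(1 - t ^ 2) ^ (b + 2)) := by
    intro t
    have : (F * t) / F = t := by field_simp
    rw [this, mul_pow]
    ring
  simp only [e1] at h
  rw [integral_const_mul, mul_zero, smul_eq_mul,
    cut_Ioi (g := fun t => t ^ a * √(1 - t ^ 2) ^ (b + 2)) (fun x hx => by
      rw [sqrt_one_sub_zero hx]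
      simp)] at h
  rw [← h]
  have h2 := intervalIntegral.integral_comp_mul_deriv (a := 0) (b := π / 2)
    (f := Real.sin) (f' := Real.cos) (g := fun x => x ^ a * √(1 - x ^ 2) ^ (b + 2))
    (fun x _ => Real.hasDerivAt_sin x) Real.continuous_cos.continuousOn (by fun_prop)
  rw [Real.sin_zero, Real.sin_pi_div_two] at h2
  rw [← h2]
  have h3 : ∫ x in (0 : ℝ)..(π / 2), ((fun x => x ^ a * √(1 - x ^ 2) ^ (b + 2)) ∘ Real.sin) x * Real.cos x =
      SC a (b + 3) := by
    unfold SC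
    apply intervalIntegral.integral_congr
    intro x hx
    rw [uIcc_of_le (by positivity)] at hx
    have hc : 0 ≤ Real.cos x := Real.cos_nonneg_of_mem_Icc ⟨by linarith [hx.1, Real.pi_pos], hx.2⟩
    simp only [Function.comp]
    have h3 : √(1 - Real.sin x ^ 2) = Real.cos x := by
      rw [← Real.cos_sq', Real.sqrt_sq hc]
    rw [h3]
    ring
  rw [h3]
  ring

/-! ### The integral over the quadrant -/

/-- the integrand -/
noncomputable def gg (F H : ℝ) (a b : ℕ) (c : ℝ × ℝ) : ℝ :=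
  √(1 - ((c.1 / F) ^ 2 + (c.2 / H) ^ 2)) * (c.1 ^ a * c.2 ^ b)

lemma gg_measurable (F H : ℝ) (a b : ℕ) : Measurable (gg F H a b) := by
  unfold gg
  fun_prop

lemma sqrt_le_one' {x : ℝ} (hx : 0 ≤ x) : √(1 - x) ≤ 1 :=
  Real.sqrt_le_iff.mpr ⟨zero_le_one, by linarith⟩

lemma gg_nonneg {F H : ℝ} (a b : ℕ) {c : ℝ × ℝ} (h1 : 0 < c.1) (h2 : 0 < c.2) : 0 ≤ gg F H a b c := by
  unfold gg
  have := Real.sqrt_nonneg (1 - ((c.1 / F) ^ 2 + (c.2 / H) ^ 2))
  positivity

lemma gg_bound {F H : ℝ} (a b : ℕ) {c : ℝ × ℝ} {X Y : ℝ} (h1 : 0 < c.1) (h2 : 0 < c.2) (h3 : c.1 ≤ X)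
    (h4 : c.2 ≤ Y) : ‖gg F H a b c‖ ≤ X ^ a * Y ^ b := by
  rw [Real.norm_eq_abs, abs_of_nonneg (gg_nonneg a b h1 h2)]
  unfold gg
  have e1 : √(1 - ((c.1 / F) ^ 2 + (c.2 / H) ^ 2)) ≤ 1 := sqrt_le_one' (by positivity)
  have e2 : c.1 ^ a * c.2 ^ b ≤ X ^ a * Y ^ b := by
    apply mul_le_mul (pow_le_pow_left₀ h1.le h3 a) (pow_le_pow_left₀ h2.le h4 b) (by positivity)
    have : 0 < X := h1.trans_le h3
    positivity
  calc _ ≤ 1 * (X ^ a * Y ^ b) := mul_le_mul e1 e2 (by positivity) zero_le_one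
    _ = _ := one_mul _

lemma gg_zero {F H : ℝ} (hF : 0 < F) (hH : 0 < H) (a b : ℕ) {c : ℝ × ℝ}
    (h : ¬ (c.1 ≤ F ∧ c.2 ≤ H)) : gg F H a b c = 0 := by
  unfold gg
  rw [Real.sqrt_eq_zero_of_nonpos, zero_mul]
  by_cases h3 : c.1 ≤ F
  · have h4 : H < c.2 := by
      by_contra h5
      exact h ⟨h3, not_lt.1 h5⟩
    have h5 : 1 < c.2 / H := by rwa [one_lt_div hH]
    nlinarith [sq_nonneg (c.1 / F)]
  · have h5 : 1 < c.1 / F := by rw [one_lt_div hF]; exact not_le.1 h3
    nlinarith [sq_nonneg (c.2 / H)]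

lemma gg_integrable {F H : ℝ} (hF : 0 < F) (hH : 0 < H) (a b : ℕ) :
    IntegrableOn (gg F H a b) (Ioi (0 : ℝ) ×ˢ Ioi (0 : ℝ)) := by
  have h1 : IntegrableOn (gg F H a b) (Ioc (0 : ℝ) F ×ˢ Ioc (0 : ℝ) H) := by
    apply Measure.integrableOn_of_bounded (M := F ^ a * H ^ b)
    · rw [Measure.volume_eq_prod, Measure.prod_prod]
      simp [ENNReal.mul_eq_top]
    · exact (gg_measurable F H a b).aestronglyMeasurable
    · filter_upwards [ae_restrict_mem (measurableSet_Ioc.prod measurableSet_Ioc)] with c hc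
      exact gg_bound a b hc.1.1 hc.2.1 hc.1.2 hc.2.2
  apply h1.of_forall_sdiff_eq_zero (measurableSet_Ioi.prod measurableSet_Ioi)
  intro c hc
  apply gg_zero hF hH a b
  intro h
  exact hc.2 ⟨⟨hc.1.1, h.1⟩, ⟨hc.1.2, h.2⟩⟩

lemma gg_integral {F H : ℝ} (hF : 0 < F) (hH : 0 < H) (a b : ℕ) :
    ∫ c in Ioi (0 : ℝ) ×ˢ Ioi (0 : ℝ), gg F H a b c =
      F ^ (a + 1) * H ^ (b + 1) * ((∫ x in (0 : ℝ)..1, √(1 - x ^ 2) * x ^ b) * SC a (b + 3)) := by
  have hi := gg_integrable hF hH a b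
  rw [Measure.volume_eq_prod] at hi ⊢
  rw [setIntegral_prod _ hi]
  have e1 : ∀ x : ℝ, ∫ y in Ioi (0 : ℝ), gg F H a b (x, y) =
      (x ^ a * √(1 - (x / F) ^ 2) ^ (b + 2)) * (H ^ (b + 1) * ∫ x in (0 : ℝ)..1, √(1 - x ^ 2) * x ^ b) := by
    intro x
    have h := inner_int hH ((x / F) ^ 2) b
    have e2 : ∀ y : ℝ, gg F H a b (x, y) = x ^ a * (√(1 - ((x / F) ^ 2 + (y / H) ^ 2)) * y ^ b) := by
      intro y
      unfold gg
      ring
    simp_rw [e2]
    rw [integral_const_mul, h]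
    ring
  simp_rw [e1]
  rw [integral_mul_const, outer_int hF]
  ring

lemma Tri_measurable (R : ℝ) : MeasurableSet (Tri R) := by
  unfold Tri
  apply IsOpen.measurableSet
  have h1 : IsOpen {c : ℝ × ℝ | 0 < c.1} := isOpen_lt continuous_const continuous_fst
  have h2 : IsOpen {c : ℝ × ℝ | 0 < c.2} := isOpen_lt continuous_const continuous_snd
  have h3 : IsOpen {c : ℝ × ℝ | c.1 + c.2 < R} := isOpen_lt (by fun_prop) continuous_const
  exact h1.inter (h2.inter h3)

lemma Tri_subset (R : ℝ) : Tri R ⊆ Ioi (0 : ℝ) ×ˢ Ioi (0 : ℝ) := fun _ hc => ⟨hc.1, hc.2.1⟩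

lemma Tri_subset_Icc (R : ℝ) : Tri R ⊆ Icc (0 : ℝ) R ×ˢ Icc (0 : ℝ) R := fun c hc =>
  ⟨⟨hc.1.le, by linarith [hc.2.1, hc.2.2]⟩, ⟨hc.2.1.le, by linarith [hc.1, hc.2.2]⟩⟩

lemma gg_le {F H R : ℝ} (hF : 0 < F) (hH : 0 < H) (a b : ℕ) :
    ∫ c in Tri R, gg F H a b c ≤
      F ^ (a + 1) * H ^ (b + 1) * ((∫ x in (0 : ℝ)..1, √(1 - x ^ 2) * x ^ b) * SC a (b + 3)) := by
  rw [← gg_integral hF hH]
  apply setIntegral_mono_set (gg_integrable hF hH a b)
  · filter_upwards [ae_restrict_mem (measurableSet_Ioi.prod measurableSet_Ioi)] with c hc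
    exact gg_nonneg a b hc.1 hc.2
  · exact (Tri_subset R).eventuallyLE

lemma gg_lt {F H R : ℝ} (hF : 0 < F) (hH : 0 < H) (hR : 0 < R) (hRF : R < F) (a b : ℕ) :
    ∫ c in Tri R, gg F H a b c <
      F ^ (a + 1) * H ^ (b + 1) * ((∫ x in (0 : ℝ)..1, √(1 - x ^ 2) * x ^ b) * SC a (b + 3)) := by
  rw [← gg_integral hF hH]
  set Q : Set (ℝ × ℝ) := Ioi (0 : ℝ) ×ˢ Ioi (0 : ℝ) with hQ
  have hi := gg_integrable hF hH a b
  have hQm : MeasurableSet Q := measurableSet_Ioi.prod measurableSet_Ioi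
  have h1 : ∫ c in Q, gg F H a b c = (∫ c in Q \ Tri R, gg F H a b c) + ∫ c in Tri R, gg F H a b c := by
    rw [← setIntegral_union disjoint_sdiff_left (Tri_measurable R) (hi.mono_set sdiff_subset)
      (hi.mono_set (Tri_subset R)), sdiff_union_of_subset (Tri_subset R)]
  rw [h1]
  have h2 : 0 < ∫ c in Q \ Tri R, gg F H a b c := by
    rw [setIntegral_pos_iff_support_of_nonneg_ae]
    · -- an open set in the support
      set U : Set (ℝ × ℝ) := {c | R < c.1 ∧ 0 < c.2 ∧ (c.1 / F) ^ 2 + (c.2 / H) ^ 2 < 1} with hU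
      have hUo : IsOpen U := by
        have o1 : IsOpen {c : ℝ × ℝ | R < c.1} := isOpen_lt continuous_const continuous_fst
        have o2 : IsOpen {c : ℝ × ℝ | 0 < c.2} := isOpen_lt continuous_const continuous_snd
        have o3 : IsOpen {c : ℝ × ℝ | (c.1 / F) ^ 2 + (c.2 / H) ^ 2 < 1} :=
          isOpen_lt (by fun_prop) continuous_const
        exact o1.inter (o2.inter o3)
      have hUn : U.Nonempty := by
        -- c.1 = (R+F)/2, c.2 small
        set x := (R + F) / 2 with hx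
        have hx1 : R < x := by rw [hx]; linarith
        have hx2 : x < F := by rw [hx]; linarith
        have hx0 : 0 < x := hR.trans hx1
        have hxF : (x / F) ^ 2 < 1 := by
          have h3 : x / F < 1 := by rwa [div_lt_one hF]
          have h4 : 0 < x / F := by positivity
          nlinarith
        set δ := 1 - (x / F) ^ 2 with hδ
        have hδ0 : 0 < δ := by rw [hδ]; linarith
        have hδ1 : δ ≤ 1 := by rw [hδ]; nlinarith [sq_nonneg (x / F)]
        refine ⟨(x, H * (δ / 2)), hx1, by positivity, ?_⟩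
        simp only
        have h5 : H * (δ / 2) / H = δ / 2 := by field_simp
        rw [h5]
        nlinarith
      refine (hUo.measure_pos volume hUn).trans_le (measure_mono ?_)
      intro c hc
      have hc1 : 0 < c.1 := hR.trans hc.1
      refine ⟨?_, ⟨⟨hc1, hc.2.1⟩, fun h => ?_⟩⟩
      · rw [Function.mem_support]
        unfold gg
        have h6 : 0 < √(1 - ((c.1 / F) ^ 2 + (c.2 / H) ^ 2)) := Real.sqrt_pos.2 (by linarith [hc.2.2])
        have h7 : 0 < c.1 ^ a * c.2 ^ b := mul_pos (pow_pos hc1 a) (pow_pos hc.2.1 b)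
        positivity
      · have := h.2.2
        linarith [hc.1, hc.2.1]
    · filter_upwards [ae_restrict_mem (hQm.diff (Tri_measurable R))] with c hc
      exact gg_nonneg a b hc.1.1 hc.1.2
    · exact hi.mono_set sdiff_subset
  linarith


/-! ### The lower integral -/

lemma lower_cut {ρ R : ℝ} (hρ : 0 ≤ ρ) (hρR : ρ ≤ R) (b : ℕ) :
    ∫ y in Ioc (0 : ℝ) R, max (ρ - y) 0 * y ^ b = ρ ^ (b + 2) / (((b : ℝ) + 1) * ((b : ℝ) + 2)) := by
  rw [← lower_inner ρ b, intervalIntegral.integral_of_le hρ]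
  rw [setIntegral_eq_of_subset_of_forall_sdiff_eq_zero (s := Ioc 0 ρ) measurableSet_Ioc
    (Ioc_subset_Ioc_right hρR)]
  · apply setIntegral_congr_fun measurableSet_Ioc
    intro y hy
    simp only
    rw [max_eq_left (by linarith [hy.2])]
  · intro y hy
    have : ρ < y := by
      by_contra h
      exact hy.2 ⟨hy.1.1, not_lt.1 h⟩
    rw [max_eq_right (by linarith), zero_mul]

lemma lower_int2 {R : ℝ} (hR : 0 < R) (a b : ℕ) :
    ∫ c in Tri R, π * (R - c.1 - c.2) * (c.1 ^ a * c.2 ^ b) =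
      π * R ^ (a + b + 3) * ((a.factorial : ℝ) * b.factorial / ((a + b + 3).factorial : ℝ)) := by
  have e0 : ∫ c in Tri R, π * (R - c.1 - c.2) * (c.1 ^ a * c.2 ^ b) =
      ∫ c in Tri R, π * (c.1 ^ a * (max (R - c.1 - c.2) 0 * c.2 ^ b)) := by
    apply setIntegral_congr_fun (Tri_measurable R)
    intro c hc
    simp only
    rw [max_eq_left (by linarith [hc.2.2])]
    ring
  have e1 : ∫ c in Tri R, π * (c.1 ^ a * (max (R - c.1 - c.2) 0 * c.2 ^ b)) =
      ∫ c in Ioc (0 : ℝ) R ×ˢ Ioc (0 : ℝ) R, π * (c.1 ^ a * (max (R - c.1 - c.2) 0 * c.2 ^ b)) := by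
    symm
    apply setIntegral_eq_of_subset_of_forall_sdiff_eq_zero (measurableSet_Ioc.prod measurableSet_Ioc)
    · intro c hc
      exact ⟨⟨hc.1, by linarith [hc.2.1, hc.2.2]⟩, ⟨hc.2.1, by linarith [hc.1, hc.2.2]⟩⟩
    · intro c hc
      have : R ≤ c.1 + c.2 := by
        by_contra h
        exact hc.2 ⟨hc.1.1.1, hc.1.2.1, not_le.1 h⟩
      rw [max_eq_right (by linarith)]
      ring
  have hi : IntegrableOn (fun c : ℝ × ℝ => π * (c.1 ^ a * (max (R - c.1 - c.2) 0 * c.2 ^ b)))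
      (Ioc (0 : ℝ) R ×ˢ Ioc (0 : ℝ) R) (volume.prod volume) := by
    rw [← Measure.volume_eq_prod]
    have h1 : IntegrableOn (fun c : ℝ × ℝ => π * (c.1 ^ a * (max (R - c.1 - c.2) 0 * c.2 ^ b)))
        (Icc (0 : ℝ) R ×ˢ Icc (0 : ℝ) R) :=
      (Continuous.continuousOn (by fun_prop)).integrableOn_compact (isCompact_Icc.prod isCompact_Icc)
    exact h1.mono_set (prod_mono Ioc_subset_Icc_self Ioc_subset_Icc_self)
  rw [e0, e1, Measure.volume_eq_prod, setIntegral_prod _ hi]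
  have e2 : ∫ x in Ioc (0 : ℝ) R, ∫ y in Ioc (0 : ℝ) R, π * (x ^ a * (max (R - x - y) 0 * y ^ b)) =
      ∫ x in Ioc (0 : ℝ) R, π / (((b : ℝ) + 1) * ((b : ℝ) + 2)) * (x ^ a * (R - x) ^ (b + 2)) := by
    apply setIntegral_congr_fun measurableSet_Ioc
    intro x hx
    simp only
    rw [integral_const_mul, integral_const_mul, lower_cut (by linarith [hx.2]) (by linarith [hx.1])]
    ring
  rw [e2, integral_const_mul, ← intervalIntegral.integral_of_le hR.le, beta_nat,
    show a + (b + 2) + 1 = a + b + 3 by ring, Nat.factorial_succ (b + 1), Nat.factorial_succ b]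
  have hf : ((a + b + 3).factorial : ℝ) ≠ 0 := by positivity
  push_cast
  field_simp
  ring

/-! ### The theorem -/

theorem volume_bound2 {L : ℝ} {f h : ℝ → ℝ} (hf : IsProfile2 L f h) {k m : ℕ} (hk : 2 ≤ k)
    (hm : 2 ≤ m) {R : ℝ} (hR : 0 < R)
    (hA : ∀ c ∈ Tri R, π * (R - c.1 - c.2) ≤
      2 * ∫ r in Ioo 0 L, √(1 - Veff f h c.1 c.2 r))
    (hbig : ∃ r, 0 < r ∧ r < L ∧ R < f r) :
    R ^ (k + m - 1) * (∫ t in (0 : ℝ)..π / 2, Real.sin t ^ (k - 1) * Real.cos t ^ (m - 1)) <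
      ∫ r in (0 : ℝ)..L, f r ^ (k - 1) * h r ^ (m - 1) := by
  obtain ⟨a, rfl⟩ := Nat.exists_eq_add_of_le' hk
  obtain ⟨b, rfl⟩ := Nat.exists_eq_add_of_le' hm
  rw [show a + 2 + (b + 2) - 1 = a + b + 3 by omega, show a + 2 - 1 = a + 1 by omega,
    show b + 2 - 1 = b + 1 by omega]
  have hfc : Continuous f := hf.smooth_f.continuous
  have hhc : Continuous h := hf.smooth_h.continuous
  have hfm : Measurable f := hfc.measurable
  have hhm : Measurable h := hhc.measurable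
  have hSC : (∫ t in (0 : ℝ)..π / 2, Real.sin t ^ (a + 1) * Real.cos t ^ (b + 1)) = SC (a + 1) (b + 1) := rfl
  rw [hSC]
  set J1 := ∫ x in (0 : ℝ)..1, √(1 - x ^ 2) * x ^ b with hJ1
  set K := J1 * SC a (b + 3) with hK
  set μ : Measure ℝ := volume.restrict (Ioo 0 L) with hμ
  set ν : Measure (ℝ × ℝ) := volume.restrict (Tri R) with hν
  have hTfin : volume (Tri R) ≠ ⊤ := by
    have h1 : volume (Icc (0 : ℝ) R ×ˢ Icc (0 : ℝ) R) < ⊤ :=
      (isCompact_Icc.prod isCompact_Icc).measure_lt_top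
    exact ((measure_mono (Tri_subset_Icc R)).trans_lt h1).ne
  have : IsFiniteMeasure ν := ⟨by rw [hν, Measure.restrict_apply_univ]; exact lt_top_iff_ne_top.2 hTfin⟩
  have : IsFiniteMeasure μ := ⟨by rw [hμ, Measure.restrict_apply_univ]; simp⟩
  -- Fubini
  have hmeas : Measurable (fun p : ℝ × (ℝ × ℝ) => gg (f p.1) (h p.1) a b p.2) := by
    unfold gg
    fun_prop
  have hint : Integrable (fun p : ℝ × (ℝ × ℝ) => gg (f p.1) (h p.1) a b p.2) (μ.prod ν) := by
    have hb : ∀ᵐ p ∂(μ.prod ν), ‖gg (f p.1) (h p.1) a b p.2‖ ≤ R ^ a * R ^ b := by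
      have e : μ.prod ν = (volume.prod volume).restrict (Ioo 0 L ×ˢ Tri R) := by
        rw [hμ, hν, Measure.prod_restrict]
      rw [e]
      filter_upwards [ae_restrict_mem (measurableSet_Ioo.prod (Tri_measurable R))] with p hp
      have h1 := (Tri_subset_Icc R) hp.2
      exact gg_bound a b hp.2.1 hp.2.2.1 h1.1.2 h1.2.2
    exact Integrable.of_bound hmeas.aestronglyMeasurable _ hb
  have hswap := integral_integral_swap (f := fun r c => gg (f r) (h r) a b c) (μ := μ) (ν := ν) hint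
  -- lower bound
  have hact : ∀ c : ℝ × ℝ, (2 * ∫ r in Ioo 0 L, √(1 - Veff f h c.1 c.2 r)) * (c.1 ^ a * c.2 ^ b) =
      2 * ∫ r, gg (f r) (h r) a b c ∂μ := by
    intro c
    rw [mul_assoc, ← integral_mul_const]
    rfl
  have h1 : π * R ^ (a + b + 3) * ((a.factorial : ℝ) * b.factorial / ((a + b + 3).factorial : ℝ)) ≤
      2 * ∫ c, ∫ r, gg (f r) (h r) a b c ∂μ ∂ν := by
    rw [← lower_int2 hR, ← integral_const_mul]
    apply setIntegral_mono_on _ _ (Tri_measurable R)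
    · intro c hc
      rw [← hact]
      apply mul_le_mul_of_nonneg_right (hA c hc)
      have := hc.1
      have := hc.2.1
      positivity
    · have h2 : IntegrableOn (fun c : ℝ × ℝ => π * (R - c.1 - c.2) * (c.1 ^ a * c.2 ^ b))
          (Icc (0 : ℝ) R ×ˢ Icc (0 : ℝ) R) :=
        (Continuous.continuousOn (by fun_prop)).integrableOn_compact (isCompact_Icc.prod isCompact_Icc)
      exact h2.mono_set (Tri_subset_Icc R)
    · exact (hint.integral_prod_right).const_mul 2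
  rw [← hswap] at h1
  -- comparison
  have hIm : Integrable (fun r => ∫ c, gg (f r) (h r) a b c ∂ν) μ := hint.integral_prod_left
  have hfi : Integrable (fun r => f r ^ (a + 1) * h r ^ (b + 1) * K) μ := by
    have h3 : IntegrableOn (fun r => f r ^ (a + 1) * h r ^ (b + 1) * K) (Icc 0 L) :=
      (Continuous.continuousOn (by fun_prop)).integrableOn_Icc
    exact h3.mono_set Ioo_subset_Icc_self
  have h3 : ∫ r, ∫ c, gg (f r) (h r) a b c ∂ν ∂μ < ∫ r, f r ^ (a + 1) * h r ^ (b + 1) * K ∂μ := by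
    rw [← sub_pos, ← integral_sub hfi hIm]
    rw [integral_pos_iff_support_of_nonneg_ae]
    · obtain ⟨r₀, hr0, hrL, hrR⟩ := hbig
      have hopen : IsOpen (Ioo 0 L ∩ {r | R < f r}) := isOpen_Ioo.inter (isOpen_lt continuous_const hfc)
      have hpos : 0 < volume (Ioo 0 L ∩ {r | R < f r}) :=
        hopen.measure_pos volume ⟨r₀, ⟨hr0, hrL⟩, hrR⟩
      have hμpos : 0 < μ (Ioo 0 L ∩ {r | R < f r}) := by
        rw [hμ, Measure.restrict_apply hopen.measurableSet]
        have : Ioo 0 L ∩ {r | R < f r} ∩ Ioo 0 L = Ioo 0 L ∩ {r | R < f r} := by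
          ext x; simp; tauto
        rwa [this]
      refine hμpos.trans_le (measure_mono ?_)
      intro r hr
      rw [Function.mem_support]
      have h5 := gg_lt (hR.trans hr.2) (hf.h_pos r hr.1.1.le hr.1.2) hR hr.2 a b
      exact (sub_pos.mpr h5).ne'
    · have hae : ∀ᵐ r ∂μ, r ∈ Ioo 0 L := ae_restrict_mem measurableSet_Ioo
      filter_upwards [hae] with r hr
      have h5 := gg_le (R := R) (hf.f_pos r hr.1 hr.2.le) (hf.h_pos r hr.1.le hr.2) a b
      simp only [Pi.zero_apply]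
      exact sub_nonneg.2 h5
    · exact hfi.sub hIm
  have h4 : ∫ r, f r ^ (a + 1) * h r ^ (b + 1) * K ∂μ = K * ∫ r in (0 : ℝ)..L, f r ^ (a + 1) * h r ^ (b + 1) := by
    rw [integral_mul_const, intervalIntegral.integral_of_le hf.pos.le, hμ,
      integral_Ioc_eq_integral_Ioo, mul_comm]
  -- constants
  have hid := beta_id a b
  have hB : J1 = (1 / ((b : ℝ) + 2)) * ∫ x in (0 : ℝ)..(π / 2), Real.sin x ^ b := Rot.TE.B_eq b
  rw [← hB, ← hK] at hid
  -- positivity of K
  have hSpos : ∀ p q : ℕ, 0 < SC p q := by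
    intro p q
    apply intervalIntegral.intervalIntegral_pos_of_pos_on
      (Continuous.intervalIntegrable (by fun_prop) _ _) _ (by positivity)
    intro x hx
    have h5 := Real.sin_pos_of_pos_of_lt_pi hx.1 (by linarith [hx.2, Real.pi_pos])
    have h6 : 0 < Real.cos x := Real.cos_pos_of_mem_Ioo ⟨by linarith [hx.1, Real.pi_pos], hx.2⟩
    positivity
  have hWpos : 0 < ∫ x in (0 : ℝ)..(π / 2), Real.sin x ^ b := by
    have := hSpos b 0
    unfold SC at this
    simpa using this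
  have hKpos : 0 < K := by
    rw [hK, hB]
    have := hSpos a (b + 3)
    positivity
  have h6 : π * R ^ (a + b + 3) * ((a.factorial : ℝ) * b.factorial / ((a + b + 3).factorial : ℝ)) =
      2 * K * (R ^ (a + b + 3) * SC (a + 1) (b + 1)) := by
    calc _ = R ^ (a + b + 3) * (π * (a.factorial : ℝ) * b.factorial / ((a + b + 3).factorial : ℝ)) := by ring
      _ = R ^ (a + b + 3) * (2 * K * SC (a + 1) (b + 1)) := by rw [← hid]
      _ = _ := by ring
  rw [h6] at h1
  rw [h4] at h3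
  have h7 : 2 * K * (R ^ (a + b + 3) * SC (a + 1) (b + 1)) <
      2 * K * ∫ r in (0 : ℝ)..L, f r ^ (a + 1) * h r ^ (b + 1) := by
    calc _ ≤ _ := h1
      _ < 2 * (K * ∫ r in (0 : ℝ)..L, f r ^ (a + 1) * h r ^ (b + 1)) := by linarith
      _ = _ := by ring
  exact lt_of_mul_lt_mul_left h7 (by positivity)

end Pool.Agent.H206R2.Rot2.TI
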