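import Pool.Agent.H206R2.Rot2.Pre
import Pool.Agent.H206R2.Rot2.TA
import Pool.Agent.H206R2.Rot2.TB
import Pool.Agent.H206R2.Rot2.TC
import Pool.Agent.H206R2.Rot2.TD
import Pool.Agent.H206R2.Rot2.TE
import Pool.Agent.H206R2.Rot2.TF
import Pool.Agent.H206R2.Rot2.TG
import Pool.Agent.H206R2.Rot2.TH
import Pool.Agent.H206R2.Rot2.TI

open Real Set MeasureTheory
open scoped ContDiff Topology

namespace Pool.Agent.H206R2.Rot2.Main

lemma unit_vec {n : ℕ} (hn : 2 ≤ n) : ∃ e : EuclideanSpace ℝ (Fin n), ‖e‖ = 1 :=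
  ⟨EuclideanSpace.single ⟨0, by omega⟩ 1, by simp⟩

theorem edge_f {L : ℝ} {f h : ℝ → ℝ} (hf : IsProfile2 L f h) {k m : ℕ} (hk : 2 ≤ k) (hm : 2 ≤ m)
    {R : ℝ} (hR : 0 < R)
    (hno : ∀ (γ : ℝ → EuclideanSpace ℝ (Fin k) × EuclideanSpace ℝ (Fin m)) (T : ℝ), 0 < T →
      IsGeodesic2 L f h 1 γ → (∀ t, γ (t + T) = γ t) → 2 * π * R < T) :
    ∀ c, 0 ≤ c → c ≤ R → π * (R - c) ≤ 2 * ∫ r in Ioo 0 L, √(1 - (c / f r) ^ 2) := by
  intro c hc0 hcR
  obtain ⟨w₀, hw₀⟩ := unit_vec hm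
  have h1 := Edge.rot_edge (TA.profile_f hf) hk hR (fun γ T hT hγ hper =>
    hno _ T hT (TA.lift_f hf hγ hw₀) (fun t => by simp only [hper])) c hc0 hcR
  rw [Edge.actA_double hf.pos hf.smooth_f.continuous hf.f_even] at h1
  linarith

theorem edge_h {L : ℝ} {f h : ℝ → ℝ} (hf : IsProfile2 L f h) {k m : ℕ} (hk : 2 ≤ k) (hm : 2 ≤ m)
    {R : ℝ} (hR : 0 < R)
    (hno : ∀ (γ : ℝ → EuclideanSpace ℝ (Fin k) × EuclideanSpace ℝ (Fin m)) (T : ℝ), 0 < T →
      IsGeodesic2 L f h 1 γ → (∀ t, γ (t + T) = γ t) → 2 * π * R < T) :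
    ∀ c, 0 ≤ c → c ≤ R → π * (R - c) ≤ 2 * ∫ r in Ioo 0 L, √(1 - (c / h r) ^ 2) := by
  intro c hc0 hcR
  obtain ⟨u₀, hu₀⟩ := unit_vec hk
  have h1 := Edge.rot_edge (TA.profile_h hf) hm hR (fun γ T hT hγ hper =>
    hno _ T hT (TA.lift_h hf hγ hu₀) (fun t => by simp only [hper])) c hc0 hcR
  have hcc : Continuous fun r => h (r - L) :=
    hf.smooth_h.continuous.comp (continuous_id.sub continuous_const)
  rw [Edge.actA_double (f := fun r => h (r - L)) hf.pos hcc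
    (fun r => by
      have := hf.h_even r
      rw [show L + r - L = r by ring, show L - r - L = -r by ring, this])] at h1
  have h2 : ∫ r in Ioo 0 L, √(1 - (c / h (r - L)) ^ 2) = ∫ r in Ioo 0 L, √(1 - (c / h r) ^ 2) := by
    rw [← integral_Ioc_eq_integral_Ioo, ← integral_Ioc_eq_integral_Ioo,
      ← intervalIntegral.integral_of_le hf.pos.le, ← intervalIntegral.integral_of_le hf.pos.le]
    have e : ∀ r, √(1 - (c / h (r - L)) ^ 2) = √(1 - (c / h (L - r)) ^ 2) := by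
      intro r
      rw [show r - L = -(L - r) by ring, hf.h_even]
    simp only [e]
    have := intervalIntegral.integral_comp_sub_left (a := (0 : ℝ)) (b := L)
      (fun r => √(1 - (c / h r) ^ 2)) L
    rw [this]
    congr 1 <;> ring
  rw [h2] at h1
  linarith

lemma well_subset {L : ℝ} (V : ℝ → ℝ) (s : ℝ) : well L V s ⊆ Ioo 0 L := fun r hr =>
  ⟨(hr r right_mem_uIcc).1, (hr r right_mem_uIcc).2.1⟩

lemma actW_le {L : ℝ} {f h : ℝ → ℝ} (hf : IsProfile2 L f h) (c₁ c₂ s : ℝ) :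
    actW L (Veff f h c₁ c₂) s ≤ 2 * ∫ r in Ioo 0 L, √(1 - Veff f h c₁ c₂ r) := by
  rw [actW]
  refine mul_le_mul_of_nonneg_left ?_ (by norm_num)
  have hmeas : Measurable fun r => √(1 - Veff f h c₁ c₂ r) := by
    have h1 := hf.smooth_f.continuous.measurable
    have h2 := hf.smooth_h.continuous.measurable
    unfold Veff
    fun_prop
  have hb : ∀ r, |√(1 - Veff f h c₁ c₂ r)| ≤ 1 := by
    intro r
    rw [abs_of_nonneg (Real.sqrt_nonneg _)]
    exact Real.sqrt_le_one.2 (by unfold Veff; nlinarith [sq_nonneg (c₁ / f r), sq_nonneg (c₂ / h r)])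
  refine setIntegral_mono_set ?_ (Filter.Eventually.of_forall fun r => Real.sqrt_nonneg _)
    (Filter.Eventually.of_forall (well_subset _ s))
  exact Measure.integrableOn_of_bounded (by simp) hmeas.aestronglyMeasurable
      (Filter.Eventually.of_forall fun r => by simpa using hb r)

theorem short_geodesic2 {L : ℝ} {f h : ℝ → ℝ} (hf : IsProfile2 L f h) {k m : ℕ} (hk : 2 ≤ k)
    (hm : 2 ≤ m) :
    ∃ (γ : ℝ → EuclideanSpace ℝ (Fin k) × EuclideanSpace ℝ (Fin m)) (T : ℝ), 0 < T ∧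
      IsGeodesic2 L f h 1 γ ∧ (∀ t, γ (t + T) = γ t) ∧
      T ^ (k + m - 1) * (∫ t in (0 : ℝ)..π / 2, Real.sin t ^ (k - 1) * Real.cos t ^ (m - 1))
        ≤ (2 * π) ^ (k + m - 1) * ∫ r in (0 : ℝ)..L, f r ^ (k - 1) * h r ^ (m - 1) := by
  have hfc : Continuous f := hf.smooth_f.continuous
  have hhc : Continuous h := hf.smooth_h.continuous
  have hLpos := hf.pos
  have hpi := Real.pi_pos
  set n := k + m - 1 with hn
  have hn0 : n ≠ 0 := by omega
  set W : ℝ := ∫ t in (0 : ℝ)..π / 2, Real.sin t ^ (k - 1) * Real.cos t ^ (m - 1) with hWdef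
  set V : ℝ := ∫ r in (0 : ℝ)..L, f r ^ (k - 1) * h r ^ (m - 1) with hVdef
  have hW : 0 < W := by
    refine intervalIntegral.intervalIntegral_pos_of_pos_on
      (((Real.continuous_sin.pow _).mul (Real.continuous_cos.pow _)).intervalIntegrable _ _)
      (fun x hx => ?_) (by linarith)
    exact mul_pos (pow_pos (Real.sin_pos_of_pos_of_lt_pi hx.1 (by linarith [hx.2])) _)
      (pow_pos (Real.cos_pos_of_mem_Ioo ⟨by linarith [hx.1], hx.2⟩) _)
  have hV : 0 < V := by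
    refine intervalIntegral.intervalIntegral_pos_of_pos_on
      (((hfc.pow _).mul (hhc.pow _)).intervalIntegrable _ _) (fun x hx => ?_) hLpos
    exact mul_pos (pow_pos (hf.f_pos x hx.1 hx.2.le) _) (pow_pos (hf.h_pos x hx.1.le hx.2) _)
  obtain ⟨R, hR, hRn⟩ : ∃ R : ℝ, 0 < R ∧ R ^ n * W = V := by
    refine ⟨(V / W) ^ ((n : ℝ)⁻¹), Real.rpow_pos_of_pos (div_pos hV hW) _, ?_⟩
    rw [Real.rpow_inv_natCast_pow (div_pos hV hW).le hn0]
    field_simp
  -- it is enough to find a periodic geodesic of length at most `2 π R`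
  suffices hmain : ∃ (γ : ℝ → EuclideanSpace ℝ (Fin k) × EuclideanSpace ℝ (Fin m)) (T : ℝ),
      0 < T ∧ IsGeodesic2 L f h 1 γ ∧ (∀ t, γ (t + T) = γ t) ∧ T ≤ 2 * π * R by
    obtain ⟨γ, T, hT, hγ, hper, hle⟩ := hmain
    refine ⟨γ, T, hT, hγ, hper, ?_⟩
    have h1 : T ^ n ≤ (2 * π * R) ^ n := pow_le_pow_left₀ hT.le hle n
    calc T ^ n * W ≤ (2 * π * R) ^ n * W := mul_le_mul_of_nonneg_right h1 hW.le
      _ = (2 * π) ^ n * (R ^ n * W) := by rw [mul_pow]; ring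
      _ = (2 * π) ^ n * V := by rw [hRn]
  by_contra hcon
  have hno : ∀ (γ : ℝ → EuclideanSpace ℝ (Fin k) × EuclideanSpace ℝ (Fin m)) (T : ℝ), 0 < T →
      IsGeodesic2 L f h 1 γ → (∀ t, γ (t + T) = γ t) → 2 * π * R < T := by
    intro γ T hT hγ hper
    by_contra hle
    exact hcon ⟨γ, T, hT, hγ, hper, not_lt.1 hle⟩
  -- critical circles and tori
  have hcf : ∀ r, 0 < r → r ≤ L → deriv f r = 0 → R < f r := by
    intro r h0 h1 h2
    obtain ⟨γ, hγ, hper⟩ := TB.circle_f hf hk hm h0 h1 h2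
    have hfr := hf.f_pos r h0 h1
    exact lt_of_mul_lt_mul_left (hno γ _ (by positivity) hγ hper) (by positivity)
  have hch : ∀ r, 0 ≤ r → r < L → deriv h r = 0 → R < h r := by
    intro r h0 h1 h2
    obtain ⟨γ, hγ, hper⟩ := TB.circle_h hf hk hm h0 h1 h2
    have hfr := hf.h_pos r h0 h1
    exact lt_of_mul_lt_mul_left (hno γ _ (by positivity) hγ hper) (by positivity)
  have hcfh : ∀ r, 0 ≤ r → r ≤ L → f r * deriv f r + h r * deriv h r = 0 →
      R ^ 2 < f r ^ 2 + h r ^ 2 := by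
    intro r h0 h1 h2
    obtain ⟨γ, hγ, hper⟩ := TB.torus hf hk hm h0 h1 h2
    have hpos : 0 < f r ^ 2 + h r ^ 2 := by
      rcases h0.eq_or_lt with h | h
      · have := hf.h_pos r h0 (by rw [← h]; exact hLpos)
        positivity
      · have := hf.f_pos r h h1
        positivity
    have h3 := lt_of_mul_lt_mul_left (hno γ _ (mul_pos (by positivity) (Real.sqrt_pos.2 hpos)) hγ
      hper) (by positivity)
    exact (Real.lt_sqrt hR.le).1 h3
  obtain ⟨S₁, a, hS₁, ha, haL, hfa, hfS₁⟩ := TD.structure_f hf hR hcf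
  obtain ⟨S₂, b, hS₂, hb, hbL, hhb, hhS₂⟩ := TD.structure_h hf hR hch
  obtain ⟨S₃, hS₃, hfh⟩ := TD.structure_fh hf hR hcfh
  set S := min S₁ (min S₂ S₃) with hSdef
  have hRS : R < S := lt_min hS₁ (lt_min hS₂ hS₃)
  have hfS : ∀ r ∈ Icc a L, S ≤ f r := fun r hr => (min_le_left _ _).trans (hfS₁ r hr)
  have hhS : ∀ r ∈ Icc 0 b, S ≤ h r := fun r hr =>
    (min_le_right _ _).trans ((min_le_left _ _).trans (hhS₂ r hr))
  have hS3 : S ≤ S₃ := (min_le_right _ _).trans (min_le_right _ _)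
  have hfhS : ∀ r ∈ Icc 0 L, S ^ 2 ≤ f r ^ 2 + h r ^ 2 := fun r hr =>
    (pow_le_pow_left₀ (hR.trans hRS).le hS3 2).trans (hfh r hr)
  obtain ⟨s, ρ, lo, hi, η, hρ, hlo, hhi, hη, hs, hsI, hsρ, hsb, hsa⟩ :=
    TD.selection hf hR hRS ha haL hb hbL hfa hfS hhb hhS hfhS
  have hEf := edge_f hf hk hm hR hno
  have hEh := edge_h hf hk hm hR hno
  by_cases hneg : ∃ c ∈ Tri R, actW L (Veff f h c.1 c.2) (s c) < π * (R - c.1 - c.2)
  swap
  · push Not at hneg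
    have h1 := TI.volume_bound2 hf hk hm hR (fun c hc => (hneg c hc).trans (actW_le hf _ _ _))
      ⟨a, ha, haL, hRS.trans_le (hfS a ⟨le_rfl, haL.le⟩)⟩
    rw [← hn, ← hWdef, ← hVdef, hRn] at h1
    exact lt_irrefl _ h1
  obtain ⟨c, hc, hDneg, hmin⟩ := TE.exists_min hf hR hRS ha haL hb hbL hfa hfS hhb hhS hρ hlo hhi hη hs
    hsI hsρ hsb hsa hEf hEh hneg
  have hsI' : ∀ c : ℝ × ℝ, 0 < c.1 → 0 < c.2 → 0 < s c ∧ s c < L := fun c h1 h2 =>
    ⟨hlo.trans_le (hsI c h1 h2).1, (hsI c h1 h2).2.trans_lt hhi⟩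
  have hs1 : ∀ c ∈ Tri R, Veff f h c.1 c.2 (s c) < 1 := fun c hc => (hsρ c hc).trans_lt hρ
  obtain ⟨hsc0, hscL⟩ := hsI' c hc.1 hc.2.1
  obtain ⟨p, q, hp, hps, hsq, hq, hVp, hVq, hw, hin⟩ :=
    TE.well_spec hf hc.1 hc.2.1 hsc0 hscL (hs1 c hc)
  obtain ⟨hint, hΦ1, hΦ2, hp', hq'⟩ := TF.crit_le hf hR hs hsI' hs1 hc hmin hp hps hsq hq hVp hVq hw hin
  obtain ⟨hΨ1, hΨ2⟩ := TG.crit_ge hf hR hs hsI' hs1 hc hmin hp hps hsq hq hVp hVq hw hin hint hp' hq'
  have hpq : p < q := hps.trans hsq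
  obtain ⟨r, T, hT, hTeq, hr, hrI, hr2, hr1, hrT, hrint⟩ :=
    TH.oscillator hp hpq hq (Pre.Veff_contDiffOn hf c.1 c.2) hVp hVq hp' hq' hin
  have hrpos : ∀ t, 0 < r t ∧ r t < L := fun t =>
    ⟨hp.trans_le (hrI t).1, (hrI t).2.trans_lt hq⟩
  have hfne : ∀ x ∈ Icc p q, f x ≠ 0 := fun x hx =>
    Pre.f_ne hf (hp.trans_le hx.1) (hx.2.trans_lt hq)
  have hhne : ∀ x ∈ Icc p q, h x ≠ 0 := fun x hx =>
    Pre.h_ne hf (hp.trans_le hx.1) (hx.2.trans_lt hq)
  obtain ⟨θ₁, hθ₁, hθ₁d, hθ₁T⟩ := Pre.angle (c := c.1) hr hrI hf.smooth_f hfne hrT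
  obtain ⟨θ₂, hθ₂, hθ₂d, hθ₂T⟩ := Pre.angle (c := c.2) hr hrI hf.smooth_h hhne hrT
  have hA1 : ∫ t in (0 : ℝ)..T, c.1 / f (r t) ^ 2 = π := by
    rw [hrint (fun x => c.1 / f x ^ 2)
      (continuousOn_const.div (hfc.continuousOn.pow 2) fun x hx => pow_ne_zero 2 (hfne x hx))]
    simp only [div_div]
    exact le_antisymm hΦ1 hΨ1
  have hA2 : ∫ t in (0 : ℝ)..T, c.2 / h (r t) ^ 2 = π := by
    rw [hrint (fun x => c.2 / h x ^ 2)
      (continuousOn_const.div (hhc.continuousOn.pow 2) fun x hx => pow_ne_zero 2 (hhne x hx))]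
    simp only [div_div]
    exact le_antisymm hΦ2 hΨ2
  -- the length of one oscillation
  have hTlt : T < π * R := by
    have e : ∀ x ∈ Ioo p q, 1 / √(1 - Veff f h c.1 c.2 x) = √(1 - Veff f h c.1 c.2 x)
        + (c.1 * (c.1 / (f x ^ 2 * √(1 - Veff f h c.1 c.2 x)))
        + c.2 * (c.2 / (h x ^ 2 * √(1 - Veff f h c.1 c.2 x)))) := by
      intro x hx
      have hx1 : 0 < 1 - Veff f h c.1 c.2 x := by linarith [hin x hx]
      have hsq := Real.sq_sqrt hx1.le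
      have hsp := Real.sqrt_pos.2 hx1
      have hfx := hfne x ⟨hx.1.le, hx.2.le⟩
      have hhx := hhne x ⟨hx.1.le, hx.2.le⟩
      have hVx : Veff f h c.1 c.2 x = (c.1 / f x) ^ 2 + (c.2 / h x) ^ 2 := rfl
      set y := √(1 - Veff f h c.1 c.2 x) with hy
      have h3 : y ^ 2 = 1 - ((c.1 / f x) ^ 2 + (c.2 / h x) ^ 2) := by rw [hsq, hVx]
      have h4 : 1 = y ^ 2 + (c.1 ^ 2 / f x ^ 2 + c.2 ^ 2 / h x ^ 2) := by
        rw [h3, div_pow, div_pow]; ring
      have h5 : 1 / y = (y ^ 2 + (c.1 ^ 2 / f x ^ 2 + c.2 ^ 2 / h x ^ 2)) / y := by rw [← h4]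
      rw [h5]
      field_simp
    have hbd : ∀ {g : ℝ → ℝ} (d : ℝ), Continuous g → (∀ x ∈ Icc p q, g x ≠ 0) →
        IntegrableOn (fun x => d / (g x ^ 2 * √(1 - Veff f h c.1 c.2 x))) (Ioo p q) := by
      intro g d hg hg0
      have hcont : ContinuousOn (fun x => d / g x ^ 2) (Icc p q) :=
        continuousOn_const.div (hg.continuousOn.pow 2) fun x hx => pow_ne_zero 2 (hg0 x hx)
      obtain ⟨M, hM⟩ := isCompact_Icc.exists_bound_of_continuousOn hcont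
      have h1 : IntegrableOn (fun x => (d / g x ^ 2) * (1 / √(1 - Veff f h c.1 c.2 x)))
          (Ioo p q) := by
        refine Integrable.bdd_mul (c := M) hint
          ((hcont.mono Ioo_subset_Icc_self).aestronglyMeasurable measurableSet_Ioo) ?_
        exact (ae_restrict_iff' measurableSet_Ioo).2 (Filter.Eventually.of_forall fun x hx =>
          hM x (Ioo_subset_Icc_self hx))
      refine h1.congr_fun (fun x _ => ?_) measurableSet_Ioo
      simp only [mul_one_div, div_div]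
    have i1 := hbd c.1 hfc hfne
    have i2 := hbd c.2 hhc hhne
    have i0 : IntegrableOn (fun x => √(1 - Veff f h c.1 c.2 x)) (Ioo p q) := by
      have h1 := (hint.sub ((i1.const_mul c.1).add (i2.const_mul c.2)))
      refine h1.congr_fun (fun x hx => ?_) measurableSet_Ioo
      simp only [Pi.sub_apply, Pi.add_apply]
      linarith [e x hx]
    have h1 : ∫ x in Ioo p q, 1 / √(1 - Veff f h c.1 c.2 x) =
        (∫ x in Ioo p q, √(1 - Veff f h c.1 c.2 x)) +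
        (c.1 * (∫ x in Ioo p q, c.1 / (f x ^ 2 * √(1 - Veff f h c.1 c.2 x))) +
        c.2 * (∫ x in Ioo p q, c.2 / (h x ^ 2 * √(1 - Veff f h c.1 c.2 x)))) := by
      have j12 : IntegrableOn (fun x => c.1 * (c.1 / (f x ^ 2 * √(1 - Veff f h c.1 c.2 x)))
          + c.2 * (c.2 / (h x ^ 2 * √(1 - Veff f h c.1 c.2 x)))) (Ioo p q) :=
        (i1.const_mul c.1).add (i2.const_mul c.2)
      rw [setIntegral_congr_fun measurableSet_Ioo e, integral_add i0 j12,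
        integral_add (i1.const_mul c.1) (i2.const_mul c.2), integral_const_mul, integral_const_mul]
    have h2 : actW L (Veff f h c.1 c.2) (s c) = 2 * ∫ x in Ioo p q, √(1 - Veff f h c.1 c.2 x) := by
      rw [actW, hw]
    rw [h2] at hDneg
    rw [hTeq, h1]
    have g1 : c.1 * (2 * ∫ x in Ioo p q, c.1 / (f x ^ 2 * √(1 - Veff f h c.1 c.2 x))) ≤ c.1 * π :=
      mul_le_mul_of_nonneg_left hΦ1 hc.1.le
    have g2 : c.2 * (2 * ∫ x in Ioo p q, c.2 / (h x ^ 2 * √(1 - Veff f h c.1 c.2 x))) ≤ c.2 * π :=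
      mul_le_mul_of_nonneg_left hΦ2 hc.2.1.le
    nlinarith
  -- the closed geodesic
  obtain ⟨γ, hγ, hper⟩ := TB.geodesic_of_planar2 hf hk hm (c₁ := c.1) (c₂ := c.2) (T := 2 * T) hr hθ₁
    hθ₂ hrpos (fun t => by
      rw [hr2, (Pre.Veff_hasDerivAt hf c.1 c.2 (hrpos t).1 (hrpos t).2).deriv, hθ₁d, hθ₂d]
      ring)
    (fun t => by
      rw [hθ₁d]
      have := hfne (r t) ⟨(hrI t).1, (hrI t).2⟩
      field_simp)
    (fun t => by
      rw [hθ₂d]
      have := hhne (r t) ⟨(hrI t).1, (hrI t).2⟩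
      field_simp)
    (fun t => by
      rw [hr1, hθ₁d, hθ₂d]
      have h1 := hfne (r t) ⟨(hrI t).1, (hrI t).2⟩
      have h2 := hhne (r t) ⟨(hrI t).1, (hrI t).2⟩
      unfold Veff
      field_simp
      ring)
    (fun t => by rw [show t + 2 * T = (t + T) + T by ring, hrT, hrT])
    (fun t => by rw [show t + 2 * T = (t + T) + T by ring, hθ₁T, hθ₁T, hA1]; ring)
    (fun t => by rw [show t + 2 * T = (t + T) + T by ring, hθ₂T, hθ₂T, hA2]; ring)
  have := hno γ (2 * T) (by linarith) hγ hper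
  linarith

end Pool.Agent.H206R2.Rot2.Main
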