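import Pool.Agent.H206R2.Rot2.Edge

open Real Set MeasureTheory
open scoped ContDiff Topology

namespace Pool.Agent.H206R2.Rot2.Pre

variable {L : ℝ} {f h : ℝ → ℝ}

lemma f_ne (hf : IsProfile2 L f h) {x : ℝ} (h0 : 0 < x) (hL : x < L) : f x ≠ 0 :=
  (hf.f_pos x h0 hL.le).ne'

lemma h_ne (hf : IsProfile2 L f h) {x : ℝ} (h0 : 0 < x) (hL : x < L) : h x ≠ 0 :=
  (hf.h_pos x h0.le hL).ne'

lemma hasDerivAt_f (hf : IsProfile2 L f h) (x : ℝ) : HasDerivAt f (deriv f x) x :=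
  (hf.smooth_f.differentiable (by simp)).differentiableAt.hasDerivAt

lemma hasDerivAt_h (hf : IsProfile2 L f h) (x : ℝ) : HasDerivAt h (deriv h x) x :=
  (hf.smooth_h.differentiable (by simp)).differentiableAt.hasDerivAt

lemma Veff_contDiffOn (hf : IsProfile2 L f h) (c₁ c₂ : ℝ) :
    ContDiffOn ℝ ∞ (Veff f h c₁ c₂) (Ioo 0 L) := by
  have h1 : ContDiffOn ℝ ∞ (fun r => c₁ / f r) (Ioo 0 L) :=
    contDiffOn_const.div hf.smooth_f.contDiffOn fun x hx => f_ne hf hx.1 hx.2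
  have h2 : ContDiffOn ℝ ∞ (fun r => c₂ / h r) (Ioo 0 L) :=
    contDiffOn_const.div hf.smooth_h.contDiffOn fun x hx => h_ne hf hx.1 hx.2
  exact (h1.pow 2).add (h2.pow 2)

lemma Veff_hasDerivAt (hf : IsProfile2 L f h) (c₁ c₂ : ℝ) {x : ℝ} (h0 : 0 < x) (hL : x < L) :
    HasDerivAt (Veff f h c₁ c₂)
      (-2 * (f x * deriv f x * (c₁ / f x ^ 2) ^ 2 + h x * deriv h x * (c₂ / h x ^ 2) ^ 2)) x := by
  have hfx := f_ne hf h0 hL
  have hhx := h_ne hf h0 hL
  have h1 : HasDerivAt (fun r => c₁ / f r) (-(c₁ * deriv f x) / f x ^ 2) x := by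
    have := (hasDerivAt_const x c₁).div (hasDerivAt_f hf x) hfx
    refine this.congr_deriv ?_
    ring
  have h2 : HasDerivAt (fun r => c₂ / h r) (-(c₂ * deriv h x) / h x ^ 2) x := by
    have := (hasDerivAt_const x c₂).div (hasDerivAt_h hf x) hhx
    refine this.congr_deriv ?_
    ring
  have h3 := (h1.pow 2).add (h2.pow 2)
  refine h3.congr_deriv ?_
  norm_num
  field_simp
  ring

/-- The angle functions. -/
lemma angle {g r : ℝ → ℝ} {p q T c : ℝ} (hr : ContDiff ℝ 2 r) (hrI : ∀ t, p ≤ r t ∧ r t ≤ q)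
    (hg : ContDiff ℝ ∞ g) (hg0 : ∀ x ∈ Icc p q, g x ≠ 0) (hrT : ∀ t, r (t + T) = r t) :
    ∃ θ : ℝ → ℝ, ContDiff ℝ 2 θ ∧ (∀ t, deriv θ t = c / g (r t) ^ 2) ∧
      ∀ t, θ (t + T) = θ t + ∫ s in (0 : ℝ)..T, c / g (r s) ^ 2 := by
  set F : ℝ → ℝ := fun t => c / g (r t) ^ 2 with hF
  have hne : ∀ t, g (r t) ^ 2 ≠ 0 := fun t => pow_ne_zero 2 (hg0 _ ⟨(hrI t).1, (hrI t).2⟩)
  have hF1 : ContDiff ℝ 1 F := by
    have hgr : ContDiff ℝ 1 fun t => g (r t) :=
      (hg.of_le (by exact_mod_cast le_top)).comp (hr.of_le (by norm_num))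
    exact contDiff_const.div (hgr.pow 2) hne
  have hFc : Continuous F := hF1.continuous
  have hd : ∀ t, HasDerivAt (fun t => ∫ s in (0 : ℝ)..t, F s) (F t) t := fun t =>
    intervalIntegral.integral_hasDerivAt_right (hFc.intervalIntegrable _ _)
      (hFc.stronglyMeasurableAtFilter _ _) hFc.continuousAt
  have hder : deriv (fun t => ∫ s in (0 : ℝ)..t, F s) = F := funext fun t => (hd t).deriv
  refine ⟨fun t => ∫ s in (0 : ℝ)..t, F s, ?_, fun t => (hd t).deriv, fun t => ?_⟩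
  · rw [show (2 : WithTop ℕ∞) = 1 + 1 by norm_num, contDiff_succ_iff_deriv]
    refine ⟨fun t => (hd t).differentiableAt, by simp, ?_⟩
    rw [hder]; exact hF1
  · have hper : Function.Periodic F T := fun t => by simp only [hF, hrT]
    have h1 := hper.intervalIntegral_add_eq t 0
    simp only [zero_add] at h1
    change ∫ s in (0 : ℝ)..(t + T), F s = (∫ s in (0 : ℝ)..t, F s) + ∫ s in (0 : ℝ)..T, F s
    rw [← h1, intervalIntegral.integral_add_adjacent_intervals (hFc.intervalIntegrable _ _)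
      (hFc.intervalIntegrable _ _)]

end Pool.Agent.H206R2.Rot2.Pre
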