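import Pool.Agent.H206R2.Rot2.Defs

open Real Set MeasureTheory
open scoped ContDiff

namespace Pool.Agent.H206R2.Rot2.Stubs

/-- The profile of the totally geodesic 2-spheres `w = const`. -/
theorem profile_f {L : ℝ} {f h : ℝ → ℝ} (hf : IsProfile2 L f h) : Rot.IsProfile (2 * L) f := by
  sorry

/-- The profile of the totally geodesic 2-spheres `u = const`. -/
theorem profile_h {L : ℝ} {f h : ℝ → ℝ} (hf : IsProfile2 L f h) :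
    Rot.IsProfile (2 * L) (fun r => h (r - L)) := by
  sorry

theorem lift_f {L : ℝ} {f h : ℝ → ℝ} (hf : IsProfile2 L f h) {k m : ℕ} {v : ℝ}
    {γ : ℝ → EuclideanSpace ℝ (Fin k) × ℝ} (hγ : Rot.IsGeodesic (2 * L) f v γ)
    {w₀ : EuclideanSpace ℝ (Fin m)} (hw : ‖w₀‖ = 1) :
    IsGeodesic2 L f h v (fun t => ((γ t).1, (γ t).2 • w₀)) := by
  sorry

theorem lift_h {L : ℝ} {f h : ℝ → ℝ} (hf : IsProfile2 L f h) {k m : ℕ} {v : ℝ}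
    {γ : ℝ → EuclideanSpace ℝ (Fin m) × ℝ}
    (hγ : Rot.IsGeodesic (2 * L) (fun r => h (r - L)) v γ)
    {u₀ : EuclideanSpace ℝ (Fin k)} (hu : ‖u₀‖ = 1) :
    IsGeodesic2 L f h v (fun t => (-(γ t).2 • u₀, (γ t).1)) := by
  sorry

theorem circle_f {L : ℝ} {f h : ℝ → ℝ} (hf : IsProfile2 L f h) {k m : ℕ} (hk : 2 ≤ k)
    (hm : 2 ≤ m) {r₀ : ℝ} (h0 : 0 < r₀) (hL : r₀ ≤ L) (hd : deriv f r₀ = 0) :
    ∃ γ : ℝ → EuclideanSpace ℝ (Fin k) × EuclideanSpace ℝ (Fin m), IsGeodesic2 L f h 1 γ ∧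
      ∀ t, γ (t + 2 * π * f r₀) = γ t := by
  sorry

theorem circle_h {L : ℝ} {f h : ℝ → ℝ} (hf : IsProfile2 L f h) {k m : ℕ} (hk : 2 ≤ k)
    (hm : 2 ≤ m) {r₀ : ℝ} (h0 : 0 ≤ r₀) (hL : r₀ < L) (hd : deriv h r₀ = 0) :
    ∃ γ : ℝ → EuclideanSpace ℝ (Fin k) × EuclideanSpace ℝ (Fin m), IsGeodesic2 L f h 1 γ ∧
      ∀ t, γ (t + 2 * π * h r₀) = γ t := by
  sorry

theorem torus {L : ℝ} {f h : ℝ → ℝ} (hf : IsProfile2 L f h) {k m : ℕ} (hk : 2 ≤ k)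
    (hm : 2 ≤ m) {r₀ : ℝ} (h0 : 0 ≤ r₀) (hL : r₀ ≤ L)
    (hd : f r₀ * deriv f r₀ + h r₀ * deriv h r₀ = 0) :
    ∃ γ : ℝ → EuclideanSpace ℝ (Fin k) × EuclideanSpace ℝ (Fin m), IsGeodesic2 L f h 1 γ ∧
      ∀ t, γ (t + 2 * π * √(f r₀ ^ 2 + h r₀ ^ 2)) = γ t := by
  sorry

theorem geodesic_of_planar2 {L : ℝ} {f h : ℝ → ℝ} (hf : IsProfile2 L f h) {k m : ℕ} (hk : 2 ≤ k)
    (hm : 2 ≤ m) {r θ₁ θ₂ : ℝ → ℝ} {c₁ c₂ T : ℝ} (hr : ContDiff ℝ 2 r) (hθ₁ : ContDiff ℝ 2 θ₁)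
    (hθ₂ : ContDiff ℝ 2 θ₂) (hpos : ∀ t, 0 < r t ∧ r t < L)
    (h1 : ∀ t, deriv (deriv r) t = f (r t) * deriv f (r t) * deriv θ₁ t ^ 2
      + h (r t) * deriv h (r t) * deriv θ₂ t ^ 2)
    (h2 : ∀ t, f (r t) ^ 2 * deriv θ₁ t = c₁) (h3 : ∀ t, h (r t) ^ 2 * deriv θ₂ t = c₂)
    (h4 : ∀ t, deriv r t ^ 2 + f (r t) ^ 2 * deriv θ₁ t ^ 2 + h (r t) ^ 2 * deriv θ₂ t ^ 2 = 1)
    (hrT : ∀ t, r (t + T) = r t) (hθ₁T : ∀ t, θ₁ (t + T) = θ₁ t + 2 * π)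
    (hθ₂T : ∀ t, θ₂ (t + T) = θ₂ t + 2 * π) :
    ∃ γ : ℝ → EuclideanSpace ℝ (Fin k) × EuclideanSpace ℝ (Fin m), IsGeodesic2 L f h 1 γ ∧
      ∀ t, γ (t + T) = γ t := by
  sorry

theorem round_profile2 : IsProfile2 (π / 2) Real.sin Real.cos := by
  sorry

theorem round_length2 {k m : ℕ} {v T : ℝ} (hv : 0 < v) (hT : 0 < T)
    {γ : ℝ → EuclideanSpace ℝ (Fin k) × EuclideanSpace ℝ (Fin m)}
    (hγ : IsGeodesic2 (π / 2) Real.sin Real.cos v γ) (hper : ∀ t, γ (t + T) = γ t) :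
    2 * π ≤ v * T := by
  sorry

theorem structure_f {L : ℝ} {f h : ℝ → ℝ} (hf : IsProfile2 L f h) {R : ℝ} (hR : 0 < R)
    (hcrit : ∀ r, 0 < r → r ≤ L → deriv f r = 0 → R < f r) :
    ∃ S a, R < S ∧ 0 < a ∧ a < L ∧ (∀ r ∈ Icc 0 a, 0 < deriv f r) ∧ (∀ r ∈ Icc a L, S ≤ f r) := by
  sorry

theorem structure_h {L : ℝ} {f h : ℝ → ℝ} (hf : IsProfile2 L f h) {R : ℝ} (hR : 0 < R)
    (hcrit : ∀ r, 0 ≤ r → r < L → deriv h r = 0 → R < h r) :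
    ∃ S b, R < S ∧ 0 < b ∧ b < L ∧ (∀ r ∈ Icc b L, deriv h r < 0) ∧ (∀ r ∈ Icc 0 b, S ≤ h r) := by
  sorry

theorem structure_fh {L : ℝ} {f h : ℝ → ℝ} (hf : IsProfile2 L f h) {R : ℝ} (hR : 0 < R)
    (hcrit : ∀ r, 0 ≤ r → r ≤ L → f r * deriv f r + h r * deriv h r = 0 →
      R ^ 2 < f r ^ 2 + h r ^ 2) :
    ∃ S, R < S ∧ ∀ r ∈ Icc 0 L, S ^ 2 ≤ f r ^ 2 + h r ^ 2 := by
  sorry

/-- A continuous selection of a point deep in a well. -/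
theorem selection {L : ℝ} {f h : ℝ → ℝ} (hf : IsProfile2 L f h) {R S a b : ℝ} (hR : 0 < R)
    (hRS : R < S) (ha : 0 < a) (haL : a < L) (hb : 0 < b) (hbL : b < L)
    (hfa : ∀ r ∈ Icc 0 a, 0 < deriv f r) (hfS : ∀ r ∈ Icc a L, S ≤ f r)
    (hhb : ∀ r ∈ Icc b L, deriv h r < 0) (hhS : ∀ r ∈ Icc 0 b, S ≤ h r)
    (hS : ∀ r ∈ Icc 0 L, S ^ 2 ≤ f r ^ 2 + h r ^ 2) :
    ∃ (s : ℝ × ℝ → ℝ) (ρ lo hi η : ℝ), ρ < 1 ∧ 0 < lo ∧ hi < L ∧ 0 < η ∧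
      ContinuousOn s {c | 0 < c.1 ∧ 0 < c.2} ∧
      (∀ c : ℝ × ℝ, 0 < c.1 → 0 < c.2 → lo ≤ s c ∧ s c ≤ hi) ∧
      (∀ c ∈ Tri R, Veff f h c.1 c.2 (s c) ≤ ρ) ∧
      (∀ c : ℝ × ℝ, 0 < c.1 → 0 < c.2 → c.1 ≤ η * c.2 → s c ≤ b) ∧
      (∀ c : ℝ × ℝ, 0 < c.1 → 0 < c.2 → c.2 ≤ η * c.1 → a ≤ s c) := by
  sorry

theorem well_spec {L : ℝ} {f h : ℝ → ℝ} (hf : IsProfile2 L f h) {c₁ c₂ : ℝ} (h1 : 0 < c₁)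
    (h2 : 0 < c₂) {s : ℝ} (hs0 : 0 < s) (hsL : s < L) (hs : Veff f h c₁ c₂ s < 1) :
    ∃ p q, 0 < p ∧ p < s ∧ s < q ∧ q < L ∧ Veff f h c₁ c₂ p = 1 ∧ Veff f h c₁ c₂ q = 1 ∧
      well L (Veff f h c₁ c₂) s = Ioo p q ∧ ∀ x ∈ Ioo p q, Veff f h c₁ c₂ x < 1 := by
  sorry

/-- Existence of the minimum of `D(c) = A(c) - π (R - c₁ - c₂)` if it is negative somewhere. -/
theorem exists_min {L : ℝ} {f h : ℝ → ℝ} (hf : IsProfile2 L f h) {R S a b : ℝ} (hR : 0 < R)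
    (hRS : R < S) (ha : 0 < a) (haL : a < L) (hb : 0 < b) (hbL : b < L)
    (hfa : ∀ r ∈ Icc 0 a, 0 < deriv f r) (hfS : ∀ r ∈ Icc a L, S ≤ f r)
    (hhb : ∀ r ∈ Icc b L, deriv h r < 0) (hhS : ∀ r ∈ Icc 0 b, S ≤ h r)
    {s : ℝ × ℝ → ℝ} {ρ lo hi η : ℝ} (hρ : ρ < 1) (hlo : 0 < lo) (hhi : hi < L) (hη : 0 < η)
    (hs : ContinuousOn s {c | 0 < c.1 ∧ 0 < c.2})
    (hsI : ∀ c : ℝ × ℝ, 0 < c.1 → 0 < c.2 → lo ≤ s c ∧ s c ≤ hi)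
    (hsρ : ∀ c ∈ Tri R, Veff f h c.1 c.2 (s c) ≤ ρ)
    (hsb : ∀ c : ℝ × ℝ, 0 < c.1 → 0 < c.2 → c.1 ≤ η * c.2 → s c ≤ b)
    (hsa : ∀ c : ℝ × ℝ, 0 < c.1 → 0 < c.2 → c.2 ≤ η * c.1 → a ≤ s c)
    (hEf : ∀ c, 0 ≤ c → c ≤ R → π * (R - c) ≤ 2 * ∫ r in Ioo 0 L, √(1 - (c / f r) ^ 2))
    (hEh : ∀ c, 0 ≤ c → c ≤ R → π * (R - c) ≤ 2 * ∫ r in Ioo 0 L, √(1 - (c / h r) ^ 2))
    (hneg : ∃ c ∈ Tri R, actW L (Veff f h c.1 c.2) (s c) < π * (R - c.1 - c.2)) :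
    ∃ c ∈ Tri R, actW L (Veff f h c.1 c.2) (s c) < π * (R - c.1 - c.2) ∧
      ∀ c' ∈ Tri R, actW L (Veff f h c.1 c.2) (s c) - π * (R - c.1 - c.2) ≤
        actW L (Veff f h c'.1 c'.2) (s c') - π * (R - c'.1 - c'.2) := by
  sorry

/-- First half of the critical point equations: rotation angles at most `π`, regular endpoints. -/
theorem crit_le {L : ℝ} {f h : ℝ → ℝ} (hf : IsProfile2 L f h) {R : ℝ} (hR : 0 < R)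
    {s : ℝ × ℝ → ℝ} (hs : ContinuousOn s {c | 0 < c.1 ∧ 0 < c.2})
    (hsI : ∀ c : ℝ × ℝ, 0 < c.1 → 0 < c.2 → 0 < s c ∧ s c < L)
    (hs1 : ∀ c ∈ Tri R, Veff f h c.1 c.2 (s c) < 1) {c : ℝ × ℝ} (hc : c ∈ Tri R)
    (hmin : ∀ c' ∈ Tri R, actW L (Veff f h c.1 c.2) (s c) - π * (R - c.1 - c.2) ≤
        actW L (Veff f h c'.1 c'.2) (s c') - π * (R - c'.1 - c'.2))
    {p q : ℝ} (hp : 0 < p) (hps : p < s c) (hsq : s c < q) (hq : q < L)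
    (hVp : Veff f h c.1 c.2 p = 1) (hVq : Veff f h c.1 c.2 q = 1)
    (hw : well L (Veff f h c.1 c.2) (s c) = Ioo p q)
    (hin : ∀ x ∈ Ioo p q, Veff f h c.1 c.2 x < 1) :
    IntegrableOn (fun r => 1 / √(1 - Veff f h c.1 c.2 r)) (Ioo p q) ∧
    2 * ∫ r in Ioo p q, c.1 / (f r ^ 2 * √(1 - Veff f h c.1 c.2 r)) ≤ π ∧
    2 * ∫ r in Ioo p q, c.2 / (h r ^ 2 * √(1 - Veff f h c.1 c.2 r)) ≤ π ∧
    deriv (Veff f h c.1 c.2) p < 0 ∧ 0 < deriv (Veff f h c.1 c.2) q := by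
  sorry

/-- Second half of the critical point equations: rotation angles at least `π`. -/
theorem crit_ge {L : ℝ} {f h : ℝ → ℝ} (hf : IsProfile2 L f h) {R : ℝ} (hR : 0 < R)
    {s : ℝ × ℝ → ℝ} (hs : ContinuousOn s {c | 0 < c.1 ∧ 0 < c.2})
    (hsI : ∀ c : ℝ × ℝ, 0 < c.1 → 0 < c.2 → 0 < s c ∧ s c < L)
    (hs1 : ∀ c ∈ Tri R, Veff f h c.1 c.2 (s c) < 1) {c : ℝ × ℝ} (hc : c ∈ Tri R)
    (hmin : ∀ c' ∈ Tri R, actW L (Veff f h c.1 c.2) (s c) - π * (R - c.1 - c.2) ≤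
        actW L (Veff f h c'.1 c'.2) (s c') - π * (R - c'.1 - c'.2))
    {p q : ℝ} (hp : 0 < p) (hps : p < s c) (hsq : s c < q) (hq : q < L)
    (hVp : Veff f h c.1 c.2 p = 1) (hVq : Veff f h c.1 c.2 q = 1)
    (hw : well L (Veff f h c.1 c.2) (s c) = Ioo p q)
    (hin : ∀ x ∈ Ioo p q, Veff f h c.1 c.2 x < 1)
    (hint : IntegrableOn (fun r => 1 / √(1 - Veff f h c.1 c.2 r)) (Ioo p q))
    (hp' : deriv (Veff f h c.1 c.2) p < 0) (hq' : 0 < deriv (Veff f h c.1 c.2) q) :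
    π ≤ 2 * ∫ r in Ioo p q, c.1 / (f r ^ 2 * √(1 - Veff f h c.1 c.2 r)) ∧
    π ≤ 2 * ∫ r in Ioo p q, c.2 / (h r ^ 2 * √(1 - Veff f h c.1 c.2 r)) := by
  sorry

/-- The periodic oscillation `r'² = 1 - V(r)` in a well with regular endpoints. -/
theorem oscillator {L : ℝ} {V : ℝ → ℝ} {p q : ℝ} (hp : 0 < p) (hpq : p < q) (hq : q < L)
    (hV : ContDiffOn ℝ ∞ V (Ioo 0 L)) (hVp : V p = 1) (hVq : V q = 1)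
    (hp' : deriv V p < 0) (hq' : 0 < deriv V q) (hin : ∀ x ∈ Ioo p q, V x < 1) :
    ∃ (r : ℝ → ℝ) (T : ℝ), 0 < T ∧ T = 2 * ∫ x in Ioo p q, 1 / √(1 - V x) ∧ ContDiff ℝ 2 r ∧
      (∀ t, p ≤ r t ∧ r t ≤ q) ∧ (∀ t, deriv (deriv r) t = -deriv V (r t) / 2) ∧
      (∀ t, deriv r t ^ 2 = 1 - V (r t)) ∧ (∀ t, r (t + T) = r t) ∧
      (∀ g : ℝ → ℝ, ContinuousOn g (Icc p q) →
        ∫ t in (0 : ℝ)..T, g (r t) = 2 * ∫ x in Ioo p q, g x / √(1 - V x)) := by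
  sorry

theorem volume_bound2 {L : ℝ} {f h : ℝ → ℝ} (hf : IsProfile2 L f h) {k m : ℕ} (hk : 2 ≤ k)
    (hm : 2 ≤ m) {R : ℝ} (hR : 0 < R)
    (hA : ∀ c ∈ Tri R, π * (R - c.1 - c.2) ≤
      2 * ∫ r in Ioo 0 L, √(1 - Veff f h c.1 c.2 r))
    (hbig : ∃ r, 0 < r ∧ r < L ∧ R < f r) :
    R ^ (k + m - 1) * (∫ t in (0 : ℝ)..π / 2, Real.sin t ^ (k - 1) * Real.cos t ^ (m - 1)) <
      ∫ r in (0 : ℝ)..L, f r ^ (k - 1) * h r ^ (m - 1) := by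
  sorry

end Pool.Agent.H206R2.Rot2.Stubs
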